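import Pool.Agent.N6.W.Grp

/-!
# Groups which are not virtually indicable
-/

set_option autoImplicit false

namespace Pool.Agent.N6.W

universe u

theorem exists_ne_of_ne_one {G : Type u} [Group G] {f : G →* Multiplicative ℤ} (hf : f ≠ 1) :
    ∃ g, Multiplicative.toAdd (f g) ≠ 0 := by
  by_contra hno
  push Not at hno
  apply hf
  ext g
  exact hno g

theorem toAdd_pow' (x : Multiplicative ℤ) (n : ℕ) :
    Multiplicative.toAdd (x ^ n) = n * Multiplicative.toAdd x := by
  rw [toAdd_pow, nsmul_eq_mul]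

theorem not_vi_of_torsion {G : Type u} [Group G] (h : ∀ g : G, ∃ n : ℕ, 1 ≤ n ∧ g ^ n = 1) :
    ¬ VI G := by
  rintro ⟨H, -, f, hf⟩
  obtain ⟨g, hg⟩ := exists_ne_of_ne_one hf
  obtain ⟨n, hn, h1⟩ := h g
  have h2 : g ^ n = 1 := Subtype.ext (by simpa using h1)
  have h3 := congrArg Multiplicative.toAdd (congrArg f h2)
  rw [map_pow, toAdd_pow', map_one, toAdd_one] at h3
  rcases mul_eq_zero.1 h3 with h4 | h4
  · have : n = 0 := by exact_mod_cast h4
    omega
  · exact hg h4

theorem not_vi_of_no_fi {G : Type u} [Group G] (h : ∀ H : Subgroup G, H.FiniteIndex → H = ⊤) :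
    ¬ VI G := by
  rintro ⟨H, hH, f, hf⟩
  obtain ⟨g, hg⟩ := exists_ne_of_ne_one hf
  have hHt := h H hH
  subst hHt
  set k : ℤ := Multiplicative.toAdd (f g) with hk
  have : NeZero (2 * k.natAbs) := ⟨by omega⟩
  let ρ : G →* Multiplicative (ZMod (2 * k.natAbs)) :=
    (AddMonoidHom.toMultiplicative (Int.castAddHom (ZMod (2 * k.natAbs)))).comp
      (f.comp Subgroup.topEquiv.symm.toMonoidHom)
  have hρ : ρ.ker = ⊤ := h _ inferInstance
  have h1 : ρ g = 1 := by
    rw [← MonoidHom.mem_ker, hρ]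
    trivial
  have h2 : ((k : ℤ) : ZMod (2 * k.natAbs)) = 0 := h1
  rw [ZMod.intCast_zmod_eq_zero_iff_dvd] at h2
  obtain ⟨c, hc⟩ := h2
  have h3 : k.natAbs = 2 * k.natAbs * c.natAbs := by
    have := congrArg Int.natAbs hc
    rw [Int.natAbs_mul, Int.natAbs_natCast] at this
    exact this
  have h4 : k.natAbs ≠ 0 := by omega
  rcases Nat.eq_zero_or_pos c.natAbs with h5 | h5
  · rw [h5] at h3; omega
  · have h6 : 2 * k.natAbs * 1 ≤ 2 * k.natAbs * c.natAbs := Nat.mul_le_mul_left _ h5
    omega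

theorem not_vi_of_finite_conj {G : Type u} [Group G] (h : Finite (ConjClasses G)) :
    ¬ VI G := by
  rintro ⟨H, hH, f, hf⟩
  obtain ⟨x, hx⟩ := exists_ne_of_ne_one hf
  have hNf : H.normalCore.FiniteIndex := inferInstance
  obtain ⟨j, hj, -, hjN⟩ := Subgroup.exists_pow_mem_of_index_ne_zero hNf.index_ne_zero (x : G)
  set y : G := (x : G) ^ j with hy
  have hconj : ∀ (g : G) (n : ℕ), g * y ^ n * g⁻¹ ∈ H := fun g n =>
    Subgroup.normalCore_le H ((inferInstance : H.normalCore.Normal).conj_mem _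
      (Subgroup.pow_mem _ hjN n) g)
  let val : G → Set ℕ := fun z => {n | 0 < n ∧ ∃ g : G, ∃ hm : g * z * g⁻¹ ∈ H,
    n = (Multiplicative.toAdd (f ⟨g * z * g⁻¹, hm⟩)).natAbs}
  have hinv : ∀ z c : G, val (c * z * c⁻¹) ⊆ val z := by
    rintro z c n ⟨hn, g, hm, e⟩
    have h1 : g * (c * z * c⁻¹) * g⁻¹ = (g * c) * z * (g * c)⁻¹ := by group
    refine ⟨hn, g * c, h1 ▸ hm, ?_⟩
    rw [e]
    congr 3
    exact Subtype.ext h1
  have hinv' : ∀ z c : G, val (c * z * c⁻¹) = val z := by
    intro z c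
    refine Set.Subset.antisymm (hinv z c) ?_
    have h1 := hinv (c * z * c⁻¹) c⁻¹
    have h2 : c⁻¹ * (c * z * c⁻¹) * c⁻¹⁻¹ = z := by group
    rwa [h2] at h1
  have hmin : ∀ n : ℕ, 0 < n → sInf (val (y ^ n)) = n * sInf (val y) := by
    intro n hn
    have e1 : ∀ g : G, Multiplicative.toAdd (f ⟨g * y ^ n * g⁻¹, hconj g n⟩) =
        n * Multiplicative.toAdd (f ⟨g * y ^ 1 * g⁻¹, hconj g 1⟩) := by
      intro g
      rw [← toAdd_pow', ← map_pow]
      congr 2
      apply Subtype.ext
      simp only [Subgroup.coe_pow, pow_one, conj_pow]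
    have hne : (val y).Nonempty := by
      refine ⟨(Multiplicative.toAdd (f ⟨1 * y ^ 1 * 1⁻¹, hconj 1 1⟩)).natAbs, ?_, 1, ?_, ?_⟩
      · have h1 : (⟨1 * y ^ 1 * 1⁻¹, hconj 1 1⟩ : H) = x ^ j := by
          apply Subtype.ext
          simp [hy]
        rw [h1, map_pow, toAdd_pow', Int.natAbs_mul]
        have : 0 < (Multiplicative.toAdd (f x)).natAbs := Int.natAbs_pos.2 hx
        simp only [Int.natAbs_natCast]
        positivity
      · have := hconj 1 1
        rwa [pow_one] at this
      · congr 3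
        apply Subtype.ext
        simp
    have hmem := Nat.sInf_mem hne
    obtain ⟨hpos, g, hm, e⟩ := hmem
    apply le_antisymm
    · apply Nat.sInf_le
      refine ⟨by positivity, g, hconj g n, ?_⟩
      rw [e1, Int.natAbs_mul, Int.natAbs_natCast, e]
      congr 4
      apply Subtype.ext
      simp
    · have hne2 : (val (y ^ n)).Nonempty := by
        refine ⟨n * sInf (val y), by positivity, g, hconj g n, ?_⟩
        rw [e1, Int.natAbs_mul, Int.natAbs_natCast, e]
        congr 4
        apply Subtype.ext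
        simp
      obtain ⟨hpos2, g2, hm2, e2⟩ := Nat.sInf_mem hne2
      rw [e2]
      have h3 := e1 g2
      rw [h3, Int.natAbs_mul, Int.natAbs_natCast]
      apply Nat.mul_le_mul_left
      apply Nat.sInf_le
      refine ⟨?_, g2, by simpa using hconj g2 1, ?_⟩
      · rw [e2, h3, Int.natAbs_mul] at hpos2
        exact Nat.pos_of_mul_pos_left hpos2
      · congr 3
        apply Subtype.ext
        simp
  have hy0 : 0 < sInf (val y) := by
    by_contra h0
    have h1 : sInf (val y) = 0 := by omega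
    rcases Nat.sInf_eq_zero.1 h1 with h2 | h2
    · exact absurd h2.1 (lt_irrefl 0)
    · have hne : (Multiplicative.toAdd (f ⟨1 * y ^ 1 * 1⁻¹, hconj 1 1⟩)).natAbs ∈ val y := by
        refine ⟨?_, 1, ?_, ?_⟩
        · have h1 : (⟨1 * y ^ 1 * 1⁻¹, hconj 1 1⟩ : H) = x ^ j := by
            apply Subtype.ext
            simp [hy]
          rw [h1, map_pow, toAdd_pow', Int.natAbs_mul]
          have : 0 < (Multiplicative.toAdd (f x)).natAbs := Int.natAbs_pos.2 hx
          simp only [Int.natAbs_natCast]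
          positivity
        · have := hconj 1 1
          rwa [pow_one] at this
        · congr 3
          apply Subtype.ext
          simp
      rw [h2] at hne
      exact hne
  have hinj : Function.Injective (fun n : ℕ => ConjClasses.mk (y ^ (n + 1))) := by
    intro a b hab
    simp only at hab
    rw [ConjClasses.mk_eq_mk_iff_isConj, isConj_iff] at hab
    obtain ⟨c, hc⟩ := hab
    have h1 := hmin (a + 1) (by omega)
    have h2 := hmin (b + 1) (by omega)
    rw [← hc, hinv', h1] at h2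
    have h3 := Nat.eq_of_mul_eq_mul_right hy0 h2
    omega
  exact not_injective_infinite_finite _ hinj

end Pool.Agent.N6.W
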