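import Pool.Agent.N6.W.Conv

/-!
# Applications of the uniform bound
-/

set_option autoImplicit false

namespace Pool.Agent.N6.W

universe u v

theorem Wob.mono {X : Type v} {T : Equiv.Perm X} {m m' : ℕ} (hmm : m ≤ m') {σ : Equiv.Perm X}
    (h : Wob T m σ) : Wob T m' σ := fun x => by
  obtain ⟨n, hn, e⟩ := h x
  exact ⟨n, hn.trans (by exact_mod_cast hmm), e⟩

theorem exists_gen (G : Type u) [Group G] [hfp : Group.IsFinitelyPresented G] :
    ∃ S : Set G, S.Finite ∧ Subgroup.closure S = ⊤ := by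
  obtain ⟨n, φ, hφ, -⟩ := hfp.out
  refine ⟨Set.range (fun i => φ (FreeGroup.of i)), Set.finite_range _, ?_⟩
  rw [eq_top_iff]
  intro g _
  obtain ⟨u, rfl⟩ := hφ g
  have h1 : u ∈ Subgroup.closure (Set.range (FreeGroup.of : Fin n → FreeGroup (Fin n))) := by
    rw [FreeGroup.closure_range_of]; trivial
  have h2 := Subgroup.mem_map_of_mem φ h1
  rw [MonoidHom.map_closure, ← Set.range_comp] at h2
  exact h2

theorem exists_common {G : Type u} [Group G] {X : Type v} (S : Set G) (hSf : S.Finite)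
    (T : Equiv.Perm X) (f : G →* Equiv.Perm X) (h : ∀ g, ∃ m : ℕ, Wob T m (f g)) :
    ∃ m : ℕ, ∀ s ∈ S, Wob T m (f s) := by
  choose m hm using h
  obtain ⟨b, hb⟩ := (hSf.image m).bddAbove
  exact ⟨b, fun s hs => (hm s).mono (hb ⟨s, hs, rfl⟩)⟩

theorem finite_of_not_vi (G : Type u) [Group G] [Group.IsFinitelyPresented G] (hG : ¬ VI G)
    (X : Type v) (T : Equiv.Perm X) (f : G →* Equiv.Perm X) (h : ∀ g, ∃ m : ℕ, Wob T m (f g)) :
    (Set.range f).Finite := by
  obtain ⟨S, hSf, hS⟩ := exists_gen G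
  obtain ⟨m, hm⟩ := exists_common S hSf T f h
  obtain ⟨K, hK⟩ := uniform.{u, v} G hG S hS m
  exact finite_range S hSf hS T f K (hK X T f hm)

theorem addRight_zpow_apply (n x : ℤ) : ((Equiv.addRight (1 : ℤ)) ^ n) x = x + n := by
  have h1 : ∀ (n : ℕ) (x : ℤ), ((Equiv.addRight (1 : ℤ)) ^ (n : ℤ)) x = x + n := by
    intro n
    induction n with
    | zero => intro x; simp
    | succ n ih =>
      intro x
      rw [Nat.cast_succ, zpow_add_apply, zpow_one, Equiv.coe_addRight, ih]
      ring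
  rcases Int.le_total 0 n with h | h
  · obtain ⟨k, rfl⟩ := Int.eq_ofNat_of_zero_le h
    exact h1 k x
  · obtain ⟨k, hk⟩ := Int.eq_ofNat_of_zero_le (show 0 ≤ -n by omega)
    have h2 := h1 k (x + n)
    have h3 := congrArg ((Equiv.addRight (1 : ℤ)) ^ n) h2
    rw [← zpow_add_apply, ← hk, add_neg_cancel, zpow_zero, Equiv.Perm.one_apply,
      show x + n + -n = x by ring] at h3
    exact h3.symm

theorem wob_int {m : ℕ} {σ : Equiv.Perm ℤ} :
    Wob (Equiv.addRight (1 : ℤ)) m σ ↔ ∀ p, |σ p - p| ≤ m := by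
  constructor
  · intro h p
    obtain ⟨n, hn, e⟩ := h p
    rw [e, addRight_zpow_apply, add_sub_cancel_left]
    exact hn
  · intro h p
    exact ⟨σ p - p, h p, by rw [addRight_zpow_apply]; ring⟩

theorem finite_of_not_vi_top (G : Type u) [Group G] [Group.IsFinitelyPresented G] (hG : ¬ VI G)
    (X : Type v) [TopologicalSpace X] [CompactSpace X] (T : X ≃ₜ X) (f : G →* (X ≃ₜ X))
    (h : ∀ g, ∃ c : X → ℤ, Continuous c ∧ ∀ x, f g x = (T ^ c x) x) :
    (Set.range f).Finite := by
  let ι : (X ≃ₜ X) →* Equiv.Perm X :=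
    { toFun := Homeomorph.toEquiv
      map_one' := rfl
      map_mul' := fun _ _ => rfl }
  have hι : Function.Injective ι := Homeomorph.toEquiv_injective
  have h1 : (Set.range (ι.comp f)).Finite := by
    apply finite_of_not_vi G hG X (ι T)
    intro g
    obtain ⟨c, hc, e⟩ := h g
    obtain ⟨m, hm⟩ : ∃ m : ℕ, ∀ x, |c x| ≤ m := by
      have h2 : (Set.range c).Finite := by
        have h3 : IsCompact (Set.range c) := isCompact_range hc
        exact h3.finite_of_discrete
      obtain ⟨b, hb⟩ := (h2.image (fun z : ℤ => z.natAbs)).bddAbove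
      refine ⟨b, fun x => ?_⟩
      have h4 : (c x).natAbs ≤ b := hb ⟨c x, ⟨x, rfl⟩, rfl⟩
      rw [← Int.natCast_natAbs]
      exact_mod_cast h4
    refine ⟨m, fun x => ⟨c x, hm x, ?_⟩⟩
    rw [← map_zpow]
    exact e x
  have h2 : Set.range (ι.comp f) = ι '' Set.range f := by
    rw [← Set.range_comp]; rfl
  rw [h2] at h1
  exact h1.of_finite_image hι.injOn

theorem exists_index {Y : Type v} (h : Y → ℤ) (b : ℕ)
    (hb : ∀ n, {y | h y = n}.encard ≤ b) :
    ∃ ι : Y → ℕ, (∀ y, ι y < b) ∧ ∀ y y', h y = h y' → ι y = ι y' → y = y' := by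
  classical
  have hfin : ∀ n, {y | h y = n}.Finite := fun n => Set.finite_of_encard_le_coe (hb n)
  have hcard : ∀ n, (hfin n).toFinset.card ≤ b := by
    intro n
    have h1 := hb n
    rw [(hfin n).encard_eq_coe_toFinset_card] at h1
    exact_mod_cast h1
  let g : ℤ → Y → ℕ := fun n y =>
    if hy : y ∈ (hfin n).toFinset then ((hfin n).toFinset.equivFin ⟨y, hy⟩ : ℕ) else 0
  have hg : ∀ n y (hy : h y = n), g n y = ((hfin n).toFinset.equivFin ⟨y, by simpa using hy⟩ : ℕ) := by
    intro n y hy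
    simp only [g]
    rw [dif_pos]
  refine ⟨fun y => g (h y) y, ?_, ?_⟩
  · intro y
    simp only
    rw [hg _ _ rfl]
    exact lt_of_lt_of_le (Fin.is_lt _) (hcard _)
  · intro y y' h1 h2
    simp only at h2
    rw [← h1, hg _ _ rfl, hg _ _ h1.symm] at h2
    have h3 := Fin.ext h2
    have h4 := (hfin (h y)).toFinset.equivFin.injective h3
    exact congrArg Subtype.val h4

theorem gset (G : Type u) [Group G] [Group.IsFinitelyPresented G] (hG : ¬ VI G)
    (S : Set G) (hS : Subgroup.closure S = ⊤) (m b : ℕ) :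
    ∃ N : ℕ, ∀ (Y : Type v) [MulAction G Y] (h : Y → ℤ),
      (∀ s ∈ S, ∀ y, |h (s • y) - h y| ≤ m) → (∀ n, {y | h y = n}.encard ≤ b) →
      ∀ y : Y, (MulAction.orbit G y).encard ≤ N := by
  obtain ⟨K, hK⟩ := uniform.{u, 0} G hG S hS (b * m + b)
  refine ⟨2 * K + 1, ?_⟩
  intro Y _ h hd hb y
  obtain ⟨ι, hι1, hι2⟩ := exists_index h b hb
  let e : Y ↪ ℤ :=
    ⟨fun y => b * h y + ι y, by
      intro y y' he
      simp only at he
      have h1 := hι1 y
      have h2 := hι1 y'
      have h3 : h y = h y' := by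
        by_contra hne
        rcases lt_or_gt_of_ne hne with hlt | hlt
        · have : (b : ℤ) * (h y + 1) ≤ b * h y' := by
            apply mul_le_mul_of_nonneg_left _ (by positivity)
            omega
          rw [mul_add, mul_one] at this
          omega
        · have : (b : ℤ) * (h y' + 1) ≤ b * h y := by
            apply mul_le_mul_of_nonneg_left _ (by positivity)
            omega
          rw [mul_add, mul_one] at this
          omega
      rw [h3] at he
      exact hι2 y y' h3 (by omega)⟩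
  let Ψ : G →* Equiv.Perm ℤ := (Equiv.Perm.viaEmbeddingHom e).comp (MulAction.toPermHom G Y)
  have hΨ : ∀ g y, Ψ g (e y) = e (g • y) := by
    intro g y
    exact Equiv.Perm.viaEmbedding_apply _ _ _
  have hwob : ∀ s ∈ S, Wob (Equiv.addRight (1 : ℤ)) (b * m + b) (Ψ s) := by
    intro s hs
    rw [wob_int]
    intro p
    by_cases hp : p ∈ Set.range e
    · obtain ⟨y, rfl⟩ := hp
      rw [hΨ]
      have h1 := hd s hs y
      have h2 := hι1 y
      have h3 := hι1 (s • y)
      have h4 : e (s • y) - e y = b * (h (s • y) - h y) + ((ι (s • y) : ℤ) - ι y) := by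
        show ((b : ℤ) * h (s • y) + ι (s • y)) - (b * h y + ι y) = _
        ring
      rw [h4]
      refine (abs_add_le _ _).trans ?_
      rw [abs_mul, Nat.abs_cast]
      push_cast
      refine add_le_add (mul_le_mul_of_nonneg_left h1 (by positivity)) ?_
      rw [abs_le]
      constructor <;> omega
    · have h1 : Ψ s p = p := Equiv.Perm.viaEmbedding_apply_of_notMem _ _ _ hp
      rw [h1, sub_self, abs_zero]
      positivity
  have hK' := hK ℤ _ Ψ hwob
  have hsub : e '' (MulAction.orbit G y) ⊆ (Finset.Icc (e y - K) (e y + K) : Finset ℤ) := by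
    rintro _ ⟨_, ⟨g, rfl⟩, rfl⟩
    have h1 := (wob_int.1 (hK' g)) (e y)
    rw [hΨ, abs_le] at h1
    simp only [Finset.coe_Icc, Set.mem_Icc]
    constructor
    · show e y - K ≤ e (g • y)
      linarith [h1.1]
    · show e (g • y) ≤ e y + K
      linarith [h1.2]
  rw [← e.injective.encard_image]
  refine (Set.encard_le_encard hsub).trans ?_
  rw [Set.encard_coe_eq_coe_finsetCard, Int.card_Icc]
  have : (e y + K + 1 - (e y - K)).toNat = 2 * K + 1 := by omega
  rw [this]

end Pool.Agent.N6.W
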