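import Pool.Agent.N6.W.VAb
import Pool.Agent.N6.W.Types

/-!
# Finitely generated groups which are not virtually indicable
-/

set_option autoImplicit false

namespace Pool.Agent.N6.W

universe u v

theorem exists_functional {M : Type u} [AddCommGroup M] [Module.Finite ℤ M] (x : M)
    (hx : ∀ n : ℤ, n ≠ 0 → n • x ≠ 0) : ∃ f : M →+ ℤ, f x ≠ 0 := by
  have hfree : Module.Free ℤ (M ⧸ Submodule.torsion ℤ M) := inferInstance
  have hq : (Submodule.Quotient.mk x : M ⧸ Submodule.torsion ℤ M) ≠ 0 := by
    intro h
    rw [Submodule.Quotient.mk_eq_zero, Submodule.mem_torsion_iff] at h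
    obtain ⟨a, ha⟩ := h
    exact hx (a : ℤ) (nonZeroDivisors.coe_ne_zero a) ha
  let b := Module.Free.chooseBasis ℤ (M ⧸ Submodule.torsion ℤ M)
  have h1 : ∃ i, b.repr (Submodule.Quotient.mk x) i ≠ 0 := by
    by_contra hno
    push Not at hno
    apply hq
    apply b.repr.injective
    rw [map_zero]
    ext i
    exact hno i
  obtain ⟨i, hi⟩ := h1
  exact ⟨((b.coord i).comp (Submodule.mkQ _)).toAddMonoidHom, hi⟩

theorem finite_of_no_hom {A : Type u} [CommGroup A] (hA : Group.FG A)
    (hno : ∀ f : A →* Multiplicative ℤ, f = 1) : Finite A := by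
  apply CommGroup.finite_of_fg_isMulTorsion
  intro a
  by_contra ha
  have hfin : Module.Finite ℤ (Additive A) := by
    rw [Module.Finite.iff_addGroup_fg]
    exact AddGroup.fg_iff_mul_fg.2 (by exact hA)
  obtain ⟨f, hf⟩ := exists_functional (Additive.ofMul a) (by
    intro n hn h
    apply ha
    rw [isOfFinOrder_iff_zpow_eq_one]
    exact ⟨n, hn, h⟩)
  have h1 := hno
    { toFun := fun a => Multiplicative.ofAdd (f (Additive.ofMul a))
      map_one' := by rw [ofMul_one, map_zero]; rfl
      map_mul' := fun a b => by rw [ofMul_mul, map_add, ofAdd_add] }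
  have h2 := DFunLike.congr_fun h1 a
  exact hf (Multiplicative.ofAdd.injective h2)

theorem commutator_fg_of_not_vi {N : Type u} [Group N] (hN : Group.FG N) (hvi : ¬ VI N)
    (K : Subgroup N) (hK : K.FiniteIndex) : (⁅K, K⁆ : Subgroup N).FG := by
  classical
  have hKfg : Group.FG K := inferInstance
  have hab : Group.FG (Abelianization K) :=
    Group.fg_of_surjective (f := Abelianization.of) (QuotientGroup.mk_surjective)
  have hfin : Finite (Abelianization K) := by
    apply finite_of_no_hom hab
    intro f
    by_contra hf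
    apply hvi
    refine ⟨K, hK, f.comp Abelianization.of, ?_⟩
    intro h
    apply hf
    apply Abelianization.hom_ext
    rw [h]
    rfl
  have hfi : (commutator K).FiniteIndex := by
    have : Finite (K ⧸ commutator K) := hfin
    exact Subgroup.finiteIndex_of_finite_quotient
  have hcfg : Group.FG (commutator K) := inferInstance
  obtain ⟨T, hT⟩ := (Group.fg_iff_subgroup_fg _).1 hcfg
  refine ⟨T.image K.subtype, ?_⟩
  rw [Finset.coe_image, ← MonoidHom.map_closure, hT, commutator_def, Subgroup.map_commutator,
    ← MonoidHom.range_eq_map, Subgroup.range_subtype]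

theorem finite_range_of_virt_ab {N : Type u} [Group N] (hN : Group.FG N) (hvi : ¬ VI N)
    {P : Type v} [Group P] (f : N →* P) (A : Subgroup N) (hA : A.FiniteIndex)
    (hab : ∀ a ∈ A, ∀ b ∈ A, f a * f b = f b * f a) : (Set.range f).Finite := by
  classical
  have hAfg : Group.FG A := inferInstance
  let g : A →* P := f.comp A.subtype
  let instR : CommGroup g.range :=
    { (inferInstance : Group g.range) with
      mul_comm := by
        rintro ⟨_, a, rfl⟩ ⟨_, b, rfl⟩
        exact Subtype.ext (hab a a.2 b b.2) }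
  have hRfg : Group.FG g.range := Group.fg_of_surjective g.rangeRestrict_surjective
  have hRfin : Finite g.range := by
    apply finite_of_no_hom hRfg
    intro h
    by_contra hne
    apply hvi
    refine ⟨A, hA, h.comp g.rangeRestrict, ?_⟩
    intro he
    apply hne
    ext x
    obtain ⟨a, ha⟩ := g.rangeRestrict_surjective x
    rw [← ha]
    exact congrArg _ (DFunLike.congr_fun he a)
  have hfinq : Finite (N ⧸ A) := Subgroup.finite_quotient_of_finiteIndex
  have h1 : (Set.range (fun p : (N ⧸ A) × g.range => f p.1.out * (p.2 : P))).Finite :=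
    Set.finite_range _
  refine h1.subset ?_
  rintro _ ⟨x, rfl⟩
  have hx : (x : N ⧸ A).out⁻¹ * x ∈ A := by
    rw [← QuotientGroup.eq, QuotientGroup.out_eq']
  refine ⟨((x : N ⧸ A), ⟨f ((x : N ⧸ A).out⁻¹ * x), ⟨⟨_, hx⟩, rfl⟩⟩), ?_⟩
  simp only
  rw [← map_mul]
  congr 1
  group

end Pool.Agent.N6.W
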