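import Pool.Agent.N6.W.Poly
import Pool.Agent.N6.W.NotVI

/-!
# Homogeneous relations, and the trivial case of the whole group
-/

set_option autoImplicit false

open scoped Pointwise

namespace Pool.Agent.N6.W

universe u v

open Pool.Agent.H785R3.GrowthA

theorem ev_append' {G : Type u} [Group G] (a b : G) (l l' : List Bool) :
    ev a b (l ++ l') = ev a b l * ev a b l' := by
  unfold ev
  rw [List.map_append, List.prod_append]

theorem homog {G : Type u} [Group G] (a b : G) (l l' : List Bool) (hne : l ≠ l')
    (h : ev a b l = ev a b l') : ¬ FreePair a b := by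
  intro hfp
  wlog hlen : l.length ≤ l'.length generalizing l l'
  · exact this l' l hne.symm h.symm (by omega)
  rcases Nat.eq_or_lt_of_le hlen with h1 | h1
  · exact hne (hfp l l' h1 h)
  · have hx := hfp (l ++ (!l'[l.length]) :: l') (l' ++ (!l'[l.length]) :: l) (by simp; omega) (by
      rw [ev_append', ev_append', ev_cons, ev_cons, h])
    have h2 : (l ++ (!l'[l.length]) :: l')[l.length]? = some (!l'[l.length]) := by
      rw [List.getElem?_append_right (le_refl _)]
      simp
    have h3 : (l' ++ (!l'[l.length]) :: l)[l.length]? = some l'[l.length] := by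
      rw [List.getElem?_append_left h1, List.getElem?_eq_getElem h1]
    rw [hx, h3] at h2
    have h4 := Option.some.inj h2
    revert h4
    cases l'[l.length] <;> simp

theorem freePair_sub {G : Type u} [Group G] (hNF : ∀ a b : G, ¬ FreePair a b) (K : Subgroup G) :
    ∀ a b : K, ¬ FreePair a b := by
  intro a b hab
  apply hNF (a : G) (b : G)
  intro l l' hlen hev
  apply hab l l' hlen
  have hcoe : ∀ l : List Bool, ((ev a b l : K) : G) = ev (a : G) (b : G) l := by
    intro l
    induction l with
    | nil => simp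
    | cons t l ih =>
      rw [ev_cons, ev_cons, Subgroup.coe_mul, ih]
      cases t <;> rfl
  exact Subtype.ext (by rw [hcoe, hcoe, hev])

/-- the whole group -/
theorem virt_ab_top (G : Type u) [Group G] [Group.IsFinitelyPresented G]
    (hNF : ∀ a b : G, ¬ FreePair a b)
    (X : Type v) (T : Equiv.Perm X) (f : G →* Equiv.Perm X) (h : ∀ g, ∃ m : ℕ, Wob T m (f g)) :
    ∃ A : Subgroup G, A.FiniteIndex ∧ ∀ a ∈ A, ∀ b ∈ A, f a * f b = f b * f a := by
  have hFG : (⊤ : Subgroup G).FG := (fg_of_fp G).out
  obtain ⟨A, hA, hab⟩ := virt_ab G ⊤ inferInstance hFG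
    (fun K hK => commutator_sub_fg ((Group.fg_iff_subgroup_fg _).2 hFG) (freePair_sub hNF _) K hK)
    X T f h
  refine ⟨A.map Subgroup.topEquiv.toMonoidHom, ?_, ?_⟩
  · constructor
    have h1 := Subgroup.index_map_equiv A (Subgroup.topEquiv (G := G))
    have h2 : (A.map (Subgroup.topEquiv (G := G)).toMonoidHom).index = A.index := h1
    rw [h2]
    exact hA.index_ne_zero
  · rintro _ ⟨a, ha, rfl⟩ _ ⟨b, hb, rfl⟩
    exact hab a ha b hb

theorem not_injective_of_type7 (G : Type u) [Group G] {P : Type v} [Group P] (f : G →* P)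
    (A : Subgroup G) (hA : A.FiniteIndex) (hab : ∀ a ∈ A, ∀ b ∈ A, f a * f b = f b * f a)
    (S : Finset G) (hS : ∀ C d : ℕ, ∃ r : ℕ, C * (r + 1) ^ d < ((Sy S) ^ r).ncard) :
    ¬ Function.Injective f := by
  intro hf
  obtain ⟨C, d, h⟩ := poly_growth A hA (fun a ha b hb => hf (by
    rw [map_mul, map_mul]; exact hab a ha b hb)) S
  obtain ⟨r, hr⟩ := hS C d
  exact absurd (h r) (by omega)

end Pool.Agent.N6.W
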