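import Pool.Agent.N6.W.Slow
import Pool.Agent.N6.W.Semi

/-!
# Commutator subgroups of finite index subgroups with maximal first Betti number
-/

set_option autoImplicit false

namespace Pool.Agent.N6.W

universe u v w

open Pool.Agent.H71R2.Thin Module

/-- The rank of the abelianization. -/
noncomputable def bet (K : Type u) [Group K] : ℕ := finrank ℤ (Additive (Abelianization K))

theorem finrank_lt_of {A B : Type u} [AddCommGroup A] [AddCommGroup B] [Module.Finite ℤ A]
    [Module.Finite ℤ B] (α : A →ₗ[ℤ] B)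
    (hidx : ∀ b : B, ∃ n : ℤ, n ≠ 0 ∧ n • b ∈ LinearMap.range α) (c : A) (hc : α c = 0)
    (hcn : ∀ n : ℤ, n ≠ 0 → n • c ≠ 0) : finrank ℤ B < finrank ℤ A := by
  have h1 := (LinearMap.ker α).finrank_quotient_add_finrank
  have h2 : finrank ℤ (A ⧸ LinearMap.ker α) = finrank ℤ (LinearMap.range α) :=
    (α.quotKerEquivRange).finrank_eq
  have h3 := (LinearMap.range α).finrank_quotient_add_finrank
  have h4 : finrank ℤ (B ⧸ LinearMap.range α) = 0 := by
    refine finrank_eq_zero_iff.2 fun x => ?_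
    obtain ⟨b, rfl⟩ := Submodule.Quotient.mk_surjective _ x
    obtain ⟨n, hn, hb⟩ := hidx b
    refine ⟨n, hn, ?_⟩
    rw [← Submodule.Quotient.mk_smul, Submodule.Quotient.mk_eq_zero]
    exact hb
  have h5 : finrank ℤ (LinearMap.ker α) ≠ 0 := by
    intro h
    obtain ⟨a, ha, hac⟩ := finrank_eq_zero_iff.1 h ⟨c, hc⟩
    exact hcn a ha (congrArg Subtype.val hac)
  omega

theorem finite_ab (K : Type u) [Group K] (hK : Group.FG K) :
    Module.Finite ℤ (Additive (Abelianization K)) := by
  have h1 : Group.FG (Abelianization K) := QuotientGroup.fg (commutator K)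
  have h2 : AddGroup.FG (Additive (Abelianization K)) := GroupFG.iff_add_fg.1 h1
  exact Module.Finite.iff_addGroup_fg.2 h2

theorem bet_lt {K : Type u} [Group K] (hK : Group.FG K) (M : Subgroup K) (hM : M.FiniteIndex)
    (φ : M →* Multiplicative ℤ) (k : M) (hk : (k : K) ∈ commutator K) (hφ : φ k ≠ 1) :
    bet K < bet M := by
  have hMfg : Group.FG M := inferInstance
  have := finite_ab K hK
  have := finite_ab M hMfg
  let a0 : Abelianization M →* Abelianization K := Abelianization.map M.subtype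
  let α : Additive (Abelianization M) →ₗ[ℤ] Additive (Abelianization K) :=
    (MonoidHom.toAdditive a0).toIntLinearMap
  have hα : ∀ x : M, α (Additive.ofMul (Abelianization.of x)) =
      Additive.ofMul (Abelianization.of (x : K)) := fun x => rfl
  refine finrank_lt_of α ?_ (Additive.ofMul (Abelianization.of k)) ?_ ?_
  · intro b
    obtain ⟨x, hx⟩ : ∃ x : K, b = Additive.ofMul (Abelianization.of x) := by
      obtain ⟨x, hx⟩ := QuotientGroup.mk_surjective (Additive.toMul b)
      exact ⟨x, (congrArg Additive.ofMul hx).symm⟩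
    obtain ⟨n, hn, -, hxn⟩ := Subgroup.exists_pow_mem_of_index_ne_zero hM.index_ne_zero x
    refine ⟨n, by exact_mod_cast hn.ne', Additive.ofMul (Abelianization.of ⟨x ^ n, hxn⟩), ?_⟩
    rw [hα, hx, natCast_zsmul, ← ofMul_pow, ← map_pow]
  · rw [hα]
    have : Abelianization.of (k : K) = 1 := (QuotientGroup.eq_one_iff _).2 hk
    rw [this]; rfl
  · intro n hn h0
    have h1 : (Abelianization.of k) ^ n = 1 := h0
    have h2 := congrArg (Abelianization.lift φ) h1
    rw [map_zpow, Abelianization.lift_apply_of, map_one] at h2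
    apply hφ
    have h3 : n * Multiplicative.toAdd (φ k) = 0 := by
      have := congrArg Multiplicative.toAdd h2
      rw [toAdd_zpow, toAdd_one] at this
      simpa using this
    rcases mul_eq_zero.1 h3 with h4 | h4
    · exact absurd h4 hn
    · exact Multiplicative.toAdd.injective h4

theorem unseen_comm {G : Type u} [Group G] (hG : Group.FG G) (K : Subgroup G)
    (hK : K.FiniteIndex) (hb : ∀ M : Subgroup K, M.FiniteIndex → bet M ≤ bet K) :
    ¬ Seen (⁅K, K⁆ : Subgroup G) := by
  rintro ⟨K2, hK2, φ, g, hg, hne⟩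
  have hKfg : Group.FG K := inferInstance
  have hgm : (g : G) ∈ (commutator K).map K.subtype := by
    rw [Subgroup.map_subtype_commutator]; exact hg
  obtain ⟨y, hy, hyg⟩ := hgm
  let M : Subgroup K := K2.subgroupOf K
  have hM : M.FiniteIndex := inferInstance
  let ι : M →* K2 := (K.subtype.comp M.subtype).codRestrict K2 fun m => m.2
  have hyM : y ∈ M := by
    change (y : G) ∈ K2
    have : (y : G) = g := hyg
    rw [this]; exact g.2
  have h1 := bet_lt hKfg M hM (φ.comp ι) ⟨y, hyM⟩ hy (by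
    have : ι ⟨y, hyM⟩ = g := Subtype.ext hyg
    rw [MonoidHom.comp_apply, this]
    exact hne)
  exact absurd (hb M hM) (by omega)

theorem bet_congr {K : Type u} {M : Type v} [Group K] [Group M] (e : K ≃* M) :
    bet K = bet M := by
  unfold bet
  exact (MulEquiv.toAdditive e.abelianizationCongr).toIntLinearEquiv.finrank_eq

theorem exists_max {G : Type u} [Group G] (b : ℕ)
    (hb : ∀ K : Subgroup G, K.FiniteIndex → bet K ≤ b) :
    ∃ K : Subgroup G, K.FiniteIndex ∧ ∀ M : Subgroup K, M.FiniteIndex → bet M ≤ bet K := by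
  classical
  have hex : ∃ n : ℕ, ∃ K : Subgroup G, K.FiniteIndex ∧ b - bet K = n :=
    ⟨_, ⊤, inferInstance, rfl⟩
  obtain ⟨K, hK, hKn⟩ := Nat.find_spec hex
  refine ⟨K, hK, fun M hM => ?_⟩
  by_contra hlt
  have hfi : (M.map K.subtype).FiniteIndex := by
    refine ⟨?_⟩
    rw [Subgroup.index_map_subtype]
    exact Nat.mul_ne_zero hM.index_ne_zero hK.index_ne_zero
  have hbe : bet (M.map K.subtype) = bet M :=
    (bet_congr (M.equivMapOfInjective K.subtype K.subtype_injective)).symm
  have h1 := Nat.find_min' hex ⟨M.map K.subtype, hfi, rfl⟩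
  have h2 := hb K hK
  have h3 := hb _ hfi
  omega

theorem unseen_comm' {G : Type u} [Group G] (L : Subgroup G) (hL : Group.FG L) (K : Subgroup L)
    (hK : K.FiniteIndex) (hb : ∀ M : Subgroup K, M.FiniteIndex → bet M ≤ bet K) :
    ¬ Seen ((⁅K, K⁆ : Subgroup L).map L.subtype) := by
  rintro ⟨K2, hK2, φ, g, hg, hne⟩
  have hKfg : Group.FG K := inferInstance
  obtain ⟨z, hz, hzg⟩ := hg
  have hgm : z ∈ (commutator K).map K.subtype := by
    rw [Subgroup.map_subtype_commutator]; exact hz
  obtain ⟨y, hy, hyz⟩ := hgm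
  let M : Subgroup K := (K2.subgroupOf L).subgroupOf K
  have hM : M.FiniteIndex := inferInstance
  let ι : M →* K2 := ((L.subtype.comp K.subtype).comp M.subtype).codRestrict K2 fun m => m.2
  have hyg : ((y : L) : G) = g := by
    have : (y : L) = z := hyz
    rw [this]; exact hzg
  have hyM : y ∈ M := by
    change ((y : L) : G) ∈ K2
    rw [hyg]; exact g.2
  have h1 := bet_lt hKfg M hM (φ.comp ι) ⟨y, hyM⟩ hy (by
    have : ι ⟨y, hyM⟩ = g := Subtype.ext hyg
    rw [MonoidHom.comp_apply, this]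
    exact hne)
  exact absurd (hb M hM) (by omega)

theorem unseen_of_not_vi {G : Type u} [Group G] (L : Subgroup G) (hL : ¬ VI L) :
    ¬ Seen L := by
  rintro ⟨K2, hK2, φ, g, hg, hne⟩
  let M : Subgroup L := K2.subgroupOf L
  let ι : M →* K2 := (L.subtype.comp M.subtype).codRestrict K2 fun m => m.2
  refine hL ⟨M, inferInstance, φ.comp ι, fun h => hne ?_⟩
  have h1 := DFunLike.congr_fun h ⟨⟨g, hg⟩, g.2⟩
  have h2 : ι ⟨⟨g, hg⟩, g.2⟩ = g := Subtype.ext rfl
  rw [MonoidHom.comp_apply, h2] at h1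
  exact h1

/-- From finiteness of the images of unseen subgroups to virtually abelian images. -/
theorem betti_gen {G : Type u} [Group G] {H : Type v} [Group H] (f : G →* H)
    (hf : ∀ C : Subgroup G, C.FG → ¬ Seen C → (f '' (C : Set G)).Finite)
    (L : Subgroup G) (hL : L.FG) (b : ℕ)
    (hb : ∀ K : Subgroup L, K.FiniteIndex → bet K ≤ b)
    (hc : ∀ K : Subgroup L, K.FiniteIndex → (⁅K, K⁆ : Subgroup L).FG) :
    ∃ A : Subgroup L, A.FiniteIndex ∧ ∀ a ∈ A, ∀ a' ∈ A, f a * f a' = f a' * f a := by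
  have hLfg : Group.FG L := (Group.fg_iff_subgroup_fg L).2 hL
  obtain ⟨K, hK, hmax⟩ := exists_max b hb
  have hCfg : ((⁅K, K⁆ : Subgroup L).map L.subtype).FG := by
    classical
    obtain ⟨T, hT⟩ := hc K hK
    refine ⟨T.image L.subtype, ?_⟩
    rw [Finset.coe_image, ← MonoidHom.map_closure, hT]
  have h1 := hf _ hCfg (unseen_comm' L hLfg K hK hmax)
  have h2 : ((f.comp L.subtype) '' (⁅K, K⁆ : Subgroup L)).Finite := by
    refine h1.subset ?_
    rintro _ ⟨x, hx, rfl⟩
    exact ⟨x, ⟨x, hx, rfl⟩, rfl⟩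
  exact exists_abelian hLfg (f.comp L.subtype) K hK h2

end Pool.Agent.N6.W
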