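import Mathlib

/-!
# Configurations on the line and pumping

A configuration describes permutations of the integers of bounded displacement: `ω p a` is the
displacement of the point `p` under the letter `a`. A configuration in which the neighbourhoods of
two points `c < c + L` look the same can be made periodic to the right of `c`, or periodic.
-/

set_option autoImplicit false

namespace Pool.Agent.N6.W

variable {A : Type}

/-- the letter `a` applied to the point `p` -/
def stp (ω : ℤ → A → ℤ) (a : A) (p : ℤ) : ℤ := p + ω p a

/-- the word `w` applied to the point `p` (the last letter acts first) -/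
def run (ω : ℤ → A → ℤ) : List A → ℤ → ℤ
  | [], p => p
  | a :: w, p => stp ω a (run ω w p)

/-- displacements bounded by `m` -/
def Bdd (ω : ℤ → A → ℤ) (m : ℕ) : Prop := ∀ p a, |ω p a| ≤ m

/-- the words of `R` act trivially -/
def Valid (ω : ℤ → A → ℤ) (R : Set (List A)) : Prop := ∀ w ∈ R, ∀ p, run ω w p = p

theorem run_shift {ω ω' : ℤ → A → ℤ} {m : ℕ} (hb : Bdd ω m) (t : ℤ) (w : List A) (p : ℤ)
    (h : ∀ q, |q - p| ≤ (m * w.length : ℕ) → ω' (q + t) = ω q) :
    run ω' w (p + t) = run ω w p + t ∧ |run ω w p - p| ≤ (m * w.length : ℕ) := by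
  induction w with
  | nil => simp [run]
  | cons a w ih =>
    have hlen : (m * (a :: w).length : ℕ) = m * w.length + m := by
      simp [Nat.mul_add]
    rw [hlen] at h ⊢
    obtain ⟨h1, h2⟩ := ih (fun q hq => h q (le_trans hq (by push_cast; omega)))
    have h3 : ω' (run ω w p + t) = ω (run ω w p) := h _ (le_trans h2 (by push_cast; omega))
    refine ⟨?_, ?_⟩
    · simp only [run, stp]
      rw [h1, h3]
      ring
    · simp only [run, stp]
      have h4 := hb (run ω w p) a
      rw [abs_le] at h2 h4 ⊢
      push_cast at h2 h4 ⊢
      omega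

/-- the configuration made periodic to the right of `c` -/
def pump (ω : ℤ → A → ℤ) (c L : ℤ) (x : ℤ) : A → ℤ :=
  if x < c + L then ω x else ω (c + (x - c) % L)

/-- the periodic configuration -/
def per (ω : ℤ → A → ℤ) (c L : ℤ) (x : ℤ) : A → ℤ := ω (c + (x - c) % L)

theorem per_add (ω : ℤ → A → ℤ) (c L x : ℤ) : per ω c L (x + L) = per ω c L x := by
  unfold per
  have : (x + L - c) % L = (x - c) % L := by
    rw [show x + L - c = (x - c) + L by ring, Int.add_emod_right]
  rw [this]

theorem pump_eq_per {ω : ℤ → A → ℤ} {c L x : ℤ} (hx : c ≤ x) : pump ω c L x = per ω c L x := by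
  unfold pump per
  split_ifs with h
  · rw [Int.emod_eq_of_lt (by omega) (by omega)]
    congr 1
    ring
  · rfl

section

variable {ω : ℤ → A → ℤ} {c L : ℤ} {W : ℕ} (hL : 0 < L)
  (hw : ∀ i : ℤ, -(W : ℤ) ≤ i → i ≤ W → ω (c + i) = ω (c + L + i))

include hL hw

theorem pump_eq {x : ℤ} (hx : x ≤ c + L + W) : pump ω c L x = ω x := by
  by_cases h : x < c + L
  · unfold pump; rw [if_pos h]
  · obtain ⟨n, hn⟩ : ∃ n : ℕ, x = c + n := ⟨(x - c).toNat, by omega⟩
    induction n using Nat.strong_induction_on generalizing x with
    | _ n ih =>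
      have h1 : pump ω c L x = pump ω c L (x - L) := by
        rw [pump_eq_per (by omega), pump_eq_per (by omega), ← per_add ω c L (x - L)]
        congr 1
        ring
      have h2 : pump ω c L (x - L) = ω (x - L) := by
        by_cases h' : x - L < c + L
        · unfold pump; rw [if_pos h']
        · exact ih ((x - L - c).toNat) (by omega) (by omega) h' (by omega)
      have h3 := hw (x - L - c) (by omega) (by omega)
      rw [h1, h2]
      rw [show x - L = c + (x - L - c) by ring, h3]
      congr 1
      ring

theorem pump_add {x : ℤ} (hx : c - W ≤ x) : pump ω c L (x + L) = pump ω c L x := by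
  by_cases h : c ≤ x
  · rw [pump_eq_per (by omega), pump_eq_per h, per_add]
  · have h1 : pump ω c L (x + L) = ω (x + L) := pump_eq hL hw (by omega)
    have h2 : pump ω c L x = ω x := pump_eq hL hw (by omega)
    have h3 := hw (x - c) (by omega) (by omega)
    rw [h1, h2]
    rw [show c + (x - c) = x by ring, show c + L + (x - c) = x + L by ring] at h3
    exact h3.symm

theorem pump_add_mul (k : ℕ) {x : ℤ} (hx : c - W ≤ x) :
    pump ω c L (x + k * L) = pump ω c L x := by
  induction k with
  | zero => simp
  | succ k ih =>
    have h1 : (0 : ℤ) ≤ k * L := by positivity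
    rw [show x + ((k + 1 : ℕ) : ℤ) * L = (x + k * L) + L by push_cast; ring,
      pump_add hL hw (by omega), ih]

theorem per_eq_pump {x : ℤ} (hx : c - W ≤ x) : per ω c L x = pump ω c L x := by
  by_cases h : c ≤ x
  · exact (pump_eq_per h).symm
  · obtain ⟨n, hn⟩ : ∃ n : ℕ, x = c - n := ⟨(c - x).toNat, by omega⟩
    induction n using Nat.strong_induction_on generalizing x with
    | _ n ih =>
      rw [← per_add, ← pump_add hL hw hx]
      by_cases h' : c ≤ x + L
      · exact (pump_eq_per h').symm
      · exact ih ((c - (x + L)).toNat) (by omega) (by omega) h' (by omega)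

theorem pump_valid {m : ℕ} (hb : Bdd (pump ω c L) m) {R : Set (List A)}
    (hR : ∀ w ∈ R, m * w.length ≤ W) (hv : Valid ω R) (hbω : Bdd ω m) :
    Valid (pump ω c L) R := by
  intro w hw' p
  have key : ∀ n : ℕ, ∀ p : ℤ, p ≤ c + L + n → run (pump ω c L) w p = p := by
    intro n
    induction n using Nat.strong_induction_on with
    | _ n ih =>
      intro p hp
      by_cases h : p ≤ c + L
      · have h1 := (run_shift (ω' := pump ω c L) hbω 0 w p (fun q hq => by
          rw [add_zero]
          apply pump_eq hL hw
          have := hR w hw'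
          have h2 : ((m * w.length : ℕ) : ℤ) ≤ W := by exact_mod_cast this
          rw [abs_le] at hq
          omega)).1
        simp only [add_zero] at h1
        rw [h1]
        exact hv w hw' p
      · have h1 := (run_shift (ω' := pump ω c L) hb L w (p - L) (fun q hq => by
          apply pump_add hL hw
          have := hR w hw'
          have h2 : ((m * w.length : ℕ) : ℤ) ≤ W := by exact_mod_cast this
          rw [abs_le] at hq
          omega)).1
        rw [sub_add_cancel] at h1
        rw [h1]
        by_cases h0 : p - L ≤ c + L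
        · have h3 := (run_shift (ω' := pump ω c L) hbω 0 w (p - L) (fun q hq => by
            rw [add_zero]
            apply pump_eq hL hw
            have := hR w hw'
            have h2 : ((m * w.length : ℕ) : ℤ) ≤ W := by exact_mod_cast this
            rw [abs_le] at hq
            omega)).1
          simp only [add_zero] at h3
          rw [h3, hv w hw' (p - L)]
          ring
        · rw [ih (p - L - (c + L)).toNat (by omega) (p - L) (by omega)]
          ring
  exact key (p - (c + L)).toNat p (by omega)

theorem per_valid {m : ℕ} (hb : Bdd (per ω c L) m) {R : Set (List A)}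
    (hR : ∀ w ∈ R, m * w.length ≤ W) (hv : Valid (pump ω c L) R) (hbp : Bdd (pump ω c L) m) :
    Valid (per ω c L) R := by
  intro w hw' p
  have hs : ∀ p : ℤ, run (per ω c L) w (p + L) = run (per ω c L) w p + L := fun p =>
    (run_shift (ω' := per ω c L) hb L w p (fun q _ => per_add ω c L q)).1
  have hsk : ∀ (k : ℕ) (p : ℤ), run (per ω c L) w (p + k * L) = run (per ω c L) w p + k * L := by
    intro k
    induction k with
    | zero => intro p; simp
    | succ k ih =>
      intro p
      rw [show p + ((k + 1 : ℕ) : ℤ) * L = (p + k * L) + L by push_cast; ring, hs, ih]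
      push_cast
      ring
  have hbig : ∀ p : ℤ, c ≤ p → run (per ω c L) w p = p := by
    intro p hp
    have h1 := (run_shift (ω' := per ω c L) hbp 0 w p (fun q hq => by
      rw [add_zero]
      apply per_eq_pump hL hw
      have := hR w hw'
      have h2 : ((m * w.length : ℕ) : ℤ) ≤ W := by exact_mod_cast this
      rw [abs_le] at hq
      omega)).1
    simp only [add_zero] at h1
    rw [h1]
    exact hv w hw' p
  have h1 : c ≤ p + ((c - p).toNat : ℕ) * L := by
    have h2 : (1 : ℤ) ≤ L := hL
    have h3 : ((c - p).toNat : ℤ) * 1 ≤ ((c - p).toNat : ℤ) * L :=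
      mul_le_mul_of_nonneg_left h2 (by positivity)
    omega
  have h2 := hbig _ h1
  rw [hsk] at h2
  linarith

end

theorem pump_bdd {ω : ℤ → A → ℤ} {m : ℕ} (hb : Bdd ω m) (c L : ℤ) : Bdd (pump ω c L) m := by
  intro p a
  unfold pump
  split_ifs <;> exact hb _ _

theorem per_bdd {ω : ℤ → A → ℤ} {m : ℕ} (hb : Bdd ω m) (c L : ℤ) : Bdd (per ω c L) m := by
  intro p a
  unfold per
  exact hb _ _

end Pool.Agent.N6.W
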