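import Pool.Agent.N6.W.Fin

/-!
# Virtually indicable groups act on the line
-/

set_option autoImplicit false

namespace Pool.Agent.N6.W

universe u v

theorem exists_of_vi {G : Type u} [Group G] (h : VI G) :
    ∃ f : G →* Equiv.Perm ℤ, (∀ g, ∃ m : ℕ, ∀ p, |f g p - p| ≤ m) ∧ (Set.range f).Infinite := by
  classical
  obtain ⟨H, hH, χ, hχ⟩ := h
  have hmem : ∀ (g : G) (q : G ⧸ H), ((g • q).out)⁻¹ * (g * q.out) ∈ H := by
    intro g q
    rw [← QuotientGroup.eq, QuotientGroup.out_eq']
    conv_lhs => rw [← QuotientGroup.out_eq' q]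
    rfl
  let c : G → G ⧸ H → ℤ := fun g q => Multiplicative.toAdd (χ ⟨_, hmem g q⟩)
  have c_mul : ∀ g g' q, c (g * g') q = c g (g' • q) + c g' q := by
    intro g g' q
    simp only [c]
    rw [← toAdd_mul, ← map_mul]
    congr 2
    apply Subtype.ext
    simp only [Subgroup.coe_mul, mul_smul]
    group
  have c_one : ∀ q, c 1 q = 0 := by
    intro q
    have h1 := c_mul 1 1 q
    rw [mul_one, one_smul] at h1
    linarith
  let act : G →* Equiv.Perm ((G ⧸ H) × ℤ) := MonoidHom.toHomPerm
    { toFun := fun g p => (g • p.1, p.2 + c g p.1)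
      map_one' := by
        funext p
        simp only [one_smul, c_one, add_zero]
        rfl
      map_mul' := by
        intro g g'
        funext p
        show (((g * g') • p.1, p.2 + c (g * g') p.1) : (G ⧸ H) × ℤ) =
          (g • g' • p.1, p.2 + c g' p.1 + c g (g' • p.1))
        rw [c_mul, mul_smul]
        congr 1
        ring }
  have hact : ∀ g p, act g p = (g • p.1, p.2 + c g p.1) := fun g p => rfl
  have hfin : Finite (G ⧸ H) := Subgroup.finite_quotient_of_finiteIndex
  have : Fintype (G ⧸ H) := Fintype.ofFinite _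
  have hne : NeZero (Fintype.card (G ⧸ H)) := ⟨Fintype.card_ne_zero⟩
  set d := Fintype.card (G ⧸ H) with hd
  let e0 : G ⧸ H ≃ Fin d := Fintype.equivFin _
  let e : (G ⧸ H) × ℤ ≃ ℤ := (Equiv.prodComm _ _).trans
    ((Equiv.prodCongr (Equiv.refl ℤ) e0).trans (Int.divModEquiv d).symm)
  have he : ∀ q n, e (q, n) = n * d + (e0 q : ℕ) := by
    intro q n
    simp only [e, Equiv.trans_apply, Equiv.prodComm_apply, Prod.swap_prod_mk,
      Equiv.prodCongr_apply, Prod.map_apply, Equiv.refl_apply, Int.divModEquiv_symm_apply]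
  let f : G →* Equiv.Perm ℤ := e.permCongrHom.toMonoidHom.comp act
  have hf : ∀ g q n, f g (e (q, n)) = e (g • q, n + c g q) := by
    intro g q n
    show e (act g (e.symm (e (q, n)))) = _
    rw [Equiv.symm_apply_apply, hact]
  refine ⟨f, ?_, ?_⟩
  · intro g
    refine ⟨(∑ q, (c g q).natAbs) * d + d, ?_⟩
    intro p
    obtain ⟨⟨q, n⟩, rfl⟩ := e.surjective p
    rw [hf, he, he]
    have h1 : (c g q).natAbs ≤ ∑ q, (c g q).natAbs :=
      Finset.single_le_sum (f := fun q => (c g q).natAbs) (fun _ _ => Nat.zero_le _)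
        (Finset.mem_univ q)
    have h2 := (e0 q).2
    have h3 := (e0 (g • q)).2
    have h4 : ((c g q).natAbs : ℤ) = |c g q| := Int.natCast_natAbs _
    have h5 : |c g q * d| ≤ ((∑ q, (c g q).natAbs : ℕ) : ℤ) * d := by
      rw [abs_mul, ← h4, Nat.abs_cast]
      exact mul_le_mul_of_nonneg_right (by exact_mod_cast h1) (by positivity)
    have h6 : (n + c g q) * d + ((e0 (g • q) : ℕ) : ℤ) - (n * d + ((e0 q : ℕ) : ℤ)) =
        c g q * d + (((e0 (g • q) : ℕ) : ℤ) - ((e0 q : ℕ) : ℤ)) := by ring
    rw [h6]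
    refine (abs_add_le _ _).trans ?_
    push_cast at h5 ⊢
    refine add_le_add h5 ?_
    rw [abs_le]
    constructor <;> omega
  · obtain ⟨h0, hh0⟩ : ∃ h0 : H, χ h0 ≠ 1 := by
      by_contra hno
      push Not at hno
      exact hχ (MonoidHom.ext hno)
    set q0 : G ⧸ H := ((1 : G) : G ⧸ H) with hq0
    have hs0 : q0.out ∈ H := by
      have h1 : ((q0.out : G) : G ⧸ H) = ((1 : G) : G ⧸ H) := QuotientGroup.out_eq' _
      rw [eq_comm, QuotientGroup.eq] at h1
      simpa using h1
    set h1 : G := q0.out * h0 * q0.out⁻¹ with hh1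
    have h1mem : h1 ∈ H := H.mul_mem (H.mul_mem hs0 h0.2) (H.inv_mem hs0)
    have hfix : h1 • q0 = q0 := by
      show ((h1 * 1 : G) : G ⧸ H) = ((1 : G) : G ⧸ H)
      rw [mul_one, eq_comm, QuotientGroup.eq]
      simpa using h1mem
    have hc : c h1 q0 ≠ 0 := by
      intro hz
      apply hh0
      have h2 : χ ⟨_, hmem h1 q0⟩ = 1 := by
        have : Multiplicative.toAdd (χ ⟨_, hmem h1 q0⟩) = 0 := hz
        exact Multiplicative.toAdd.injective this
      rw [← h2]
      congr 1
      apply Subtype.ext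
      show (h0 : G) = ((h1 • q0).out)⁻¹ * (h1 * q0.out)
      rw [hfix, hh1]
      group
    have hpow : ∀ k : ℕ, f (h1 ^ k) (e (q0, 0)) = e (q0, k * c h1 q0) := by
      intro k
      induction k with
      | zero => simp
      | succ k ih =>
        rw [pow_succ', map_mul, Equiv.Perm.mul_apply, ih, hf, hfix]
        congr 2
        push_cast
        ring
    refine Set.infinite_of_injective_forall_mem (f := fun k : ℕ => f (h1 ^ k)) ?_
      (fun k => ⟨_, rfl⟩)
    intro k l hkl
    have h2 : f (h1 ^ k) (e (q0, 0)) = f (h1 ^ l) (e (q0, 0)) := by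
      simp only at hkl
      rw [hkl]
    rw [hpow, hpow] at h2
    have h3 := e.injective h2
    simp only [Prod.mk.injEq, true_and] at h3
    have h4 := mul_right_cancel₀ hc h3
    exact_mod_cast h4

end Pool.Agent.N6.W
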