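import Pool.Agent.N6.W.Reach

/-!
# Long orbits give periodic configurations with infinite orbits
-/

set_option autoImplicit false

namespace Pool.Agent.N6.W

variable {A : Type}

theorem reach_symm {ω : ℤ → A → ℤ} {R : Set (List A)} {inv : A → A} (hv : Valid ω R)
    (hi : ∀ a, [inv a, a] ∈ R) {u v : ℤ} (h : Reach ω u v) : Reach ω v u := by
  induction h with
  | refl => exact Relation.ReflTransGen.refl
  | tail h1 h2 ih =>
    obtain ⟨a, rfl⟩ := h2
    refine Relation.ReflTransGen.head ⟨inv a, ?_⟩ ih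
    have := hv _ (hi a)
    simp only [run] at this
    exact (this _).symm

theorem per_add_mul (ω : ℤ → A → ℤ) (c L x n : ℤ) : per ω c L (x + n * L) = per ω c L x := by
  unfold per
  have : (x + n * L - c) % L = (x - c) % L := by
    rw [show x + n * L - c = (x - c) + n * L by ring, Int.add_mul_emod_self_right]
  rw [this]

theorem reach_trans {ω : ℤ → A → ℤ} {t : ℤ} (ht : ∀ x, ω (x + t) = ω x) {u v : ℤ}
    (h : Reach ω u v) : Reach ω (u + t) (v + t) := by
  induction h with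
  | refl => exact Relation.ReflTransGen.refl
  | tail h1 h2 ih =>
    obtain ⟨a, rfl⟩ := h2
    refine Relation.ReflTransGen.tail ih ⟨a, ?_⟩
    unfold stp
    rw [ht]
    ring

/-- states of a cut -/
abbrev St (A : Type) (W m : ℕ) : Type :=
  (Fin (2 * W + 1) → A → {z : ℤ // z ∈ Finset.Icc (-(m : ℤ)) m}) × (Fin m → Fin m → Prop) ×
    (Fin m → Prop)

theorem bdd_mem {ω : ℤ → A → ℤ} {m : ℕ} (hb : Bdd ω m) (p : ℤ) (a : A) :
    ω p a ∈ Finset.Icc (-(m : ℤ)) m := by
  have := hb p a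
  rw [abs_le] at this
  exact Finset.mem_Icc.2 this

/-- the state of the cut `c` -/
def state {ω : ℤ → A → ℤ} {m : ℕ} (hb : Bdd ω m) (W : ℕ) (x c : ℤ) : St A W m :=
  (fun i a => ⟨ω (c - W + i) a, bdd_mem hb _ a⟩,
    fun i j => ReachLt ω c (c - 1 - i) (c - 1 - j),
    fun i => Reach ω x (c - 1 - i))

theorem core [Finite A] (R : Set (List A)) (inv : A → A) (hi : ∀ a, [inv a, a] ∈ R) (m W : ℕ)
    (hmW : m ≤ W) (hRW : ∀ w ∈ R, m * w.length ≤ W) :
    ∃ K : ℕ, ∀ ω : ℤ → A → ℤ, Bdd ω m → Valid ω R → ∀ x y : ℤ, Reach ω x y → (K : ℤ) < y - x →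
      ∃ (ω' : ℤ → A → ℤ) (L : ℤ), 0 < L ∧ Bdd ω' m ∧ (∀ p, ω' (p + L) = ω' p) ∧ Valid ω' R ∧
        ∃ x', {z | Reach ω' x' z}.Infinite := by
  classical
  have := Fintype.ofFinite (St A W m)
  refine ⟨Fintype.card (St A W m), ?_⟩
  intro ω hb hv x y hxy hK
  have hs : ∀ u v, Reach ω u v → Reach ω v u := fun u v h => reach_symm hv hi h
  obtain ⟨n1, n2, hne, heq⟩ := Fintype.exists_ne_map_eq_of_card_lt
    (fun n : Fin (Fintype.card (St A W m) + 1) => state hb W x (x + 1 + n)) (by simp)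
  wlog hlt : n1 < n2 generalizing n1 n2
  · exact this n2 n1 hne.symm heq.symm (lt_of_le_of_ne (not_lt.1 hlt) hne.symm)
  try beta_reduce at heq
  have hlt' : (n1 : ℕ) < (n2 : ℕ) := hlt
  have hn2 : (n2 : ℕ) < Fintype.card (St A W m) + 1 := n2.2
  obtain ⟨c, hc⟩ : ∃ c : ℤ, c = x + 1 + n1 := ⟨_, rfl⟩
  obtain ⟨L, hL'⟩ : ∃ L : ℤ, L = (n2 : ℤ) - n1 := ⟨_, rfl⟩
  have hL : 0 < L := by omega
  have hc2 : x + 1 + (n2 : ℤ) = c + L := by omega
  rw [← hc, hc2] at heq
  have hw : ∀ i : ℤ, -(W : ℤ) ≤ i → i ≤ W → ω (c + i) = ω (c + L + i) := by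
    intro i h1 h2
    have h3 := congrArg Prod.fst heq
    funext a
    have h4 := congrArg Subtype.val
      (congrFun (congrFun h3 ⟨(i + W).toNat, by omega⟩) a)
    simp only [state] at h4
    have e : (((i + W).toNat : ℕ) : ℤ) = i + W := by omega
    rw [e] at h4
    rw [show c - W + (i + W) = c + i by ring, show c + L - W + (i + W) = c + L + i by ring] at h4
    exact h4
  have hR : ∀ i j : ℤ, 1 ≤ i → i ≤ m → 1 ≤ j → j ≤ m → ReachLt ω c (c - i) (c - j) →
      ReachLt ω (c + L) (c + L - i) (c + L - j) := by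
    intro i j h1 h2 h3 h4 h5
    have h6 := congrArg (fun s => s.2.1) heq
    have h7 := congrFun (congrFun h6 ⟨(i - 1).toNat, by omega⟩) ⟨(j - 1).toNat, by omega⟩
    simp only [state] at h7
    have e1 : (((i - 1).toNat : ℕ) : ℤ) = i - 1 := by omega
    have e2 : (((j - 1).toNat : ℕ) : ℤ) = j - 1 := by omega
    rw [e1, e2, show c - 1 - (i - 1) = c - i by ring, show c - 1 - (j - 1) = c - j by ring,
      show c + L - 1 - (i - 1) = c + L - i by ring,
      show c + L - 1 - (j - 1) = c + L - j by ring] at h7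
    exact h7 ▸ h5
  have hO : ∀ i : ℤ, 1 ≤ i → i ≤ m → Reach ω x (c + L - i) → Reach ω x (c - i) := by
    intro i h1 h2 h5
    have h6 := congrArg (fun s => s.2.2) heq
    have h7 := congrFun h6 ⟨(i - 1).toNat, by omega⟩
    simp only [state] at h7
    have e1 : (((i - 1).toNat : ℕ) : ℤ) = i - 1 := by omega
    rw [e1, show c - 1 - (i - 1) = c - i by ring,
      show c + L - 1 - (i - 1) = c + L - i by ring] at h7
    exact h7 ▸ h5
  have hPb := pump_bdd hb c L
  have hperb := per_bdd hb c L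
  have hPv : Valid (pump ω c L) R := pump_valid hL hw hPb hRW hv hb
  have hperv : Valid (per ω c L) R := per_valid hL hw hperb hRW hPv hPb
  refine ⟨per ω c L, L, hL, hperb, fun p => per_add ω c L p, hperv, ?_⟩
  by_contra hcon
  push Not at hcon
  have hB : ∀ p : ℤ, ∃ B : ℕ, ∀ z, Reach (per ω c L) p z → |z - p| ≤ B := by
    intro p
    have h1 : {z | Reach (per ω c L) p z}.Finite := hcon p
    obtain ⟨M, hM⟩ := (h1.image (fun z => (|z - p|).toNat)).bddAbove
    refine ⟨M, fun z hz => ?_⟩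
    have := hM ⟨z, hz, rfl⟩
    simp only at this
    have h2 := abs_nonneg (z - p)
    omega
  choose B hB using hB
  obtain ⟨D, hD⟩ : ∃ D : ℕ, ∀ p ∈ Finset.Ico (0 : ℤ) L, B p ≤ D :=
    ⟨(Finset.Ico (0 : ℤ) L).sup B, fun p hp => Finset.le_sup hp⟩
  have hall : ∀ p z, Reach (per ω c L) p z → |z - p| ≤ D := by
    intro p z h
    have h1 := reach_trans (t := (-(p / L)) * L) (fun x => per_add_mul ω c L x (-(p / L))) h
    have h2 : p + -(p / L) * L = p % L := by
      have := Int.emod_add_mul_ediv p L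
      linarith
    rw [h2] at h1
    have h3 := hB _ _ h1
    have h4 := hD (p % L) (Finset.mem_Ico.2 ⟨Int.emod_nonneg _ (by omega), Int.emod_lt_of_pos _ hL⟩)
    have h5 : z + -(p / L) * L - p % L = z - p := by rw [← h2]; ring
    rw [h5] at h3
    exact le_trans h3 (by exact_mod_cast h4)
  obtain ⟨i, hi1, hi2, -, hi4⟩ := unbounded hL hw hb hmW hR hs (x := x) (y := y) (by omega)
    (by omega) hxy hO (m + D + 1)
  have hzx := reach_symm hPv hi hi4
  have hkL : ((m + D + 1 : ℕ) : ℤ) ≤ ((m + D + 1 : ℕ) : ℤ) * L := by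
    have : ((m + D + 1 : ℕ) : ℤ) * 1 ≤ ((m + D + 1 : ℕ) : ℤ) * L :=
      mul_le_mul_of_nonneg_left (by omega) (by positivity)
    linarith
  have claim : ∀ w, Reach (pump ω c L) (c + ((m + D + 1 : ℕ) : ℤ) * L - i) w →
      Reach (per ω c L) (c + ((m + D + 1 : ℕ) : ℤ) * L - i) w := by
    intro w h
    induction h with
    | refl => exact Relation.ReflTransGen.refl
    | tail h1 h2 ih =>
      obtain ⟨a, rfl⟩ := h2
      refine Relation.ReflTransGen.tail ih ⟨a, ?_⟩
      unfold stp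
      rw [per_eq_pump hL hw]
      have h3 := hall _ _ ih
      rw [abs_le] at h3
      push_cast at h3 hkL ⊢
      omega
  have h3 := hall _ _ (claim _ hzx)
  rw [abs_le] at h3
  push_cast at h3 hkL
  omega

end Pool.Agent.N6.W
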