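import Pool.Agent.N6.W.Core

/-!
# Long orbits give configurations which are periodic on the right, with unbounded orbits
-/

set_option autoImplicit false

namespace Pool.Agent.N6.W

variable {A : Type}

theorem core2 [Finite A] (R : Set (List A)) (inv : A → A) (hi : ∀ a, [inv a, a] ∈ R) (m W : ℕ)
    (hmW : m ≤ W) (hRW : ∀ w ∈ R, m * w.length ≤ W) :
    ∃ K : ℕ, ∀ ω : ℤ → A → ℤ, Bdd ω m → Valid ω R → ∀ x y d : ℤ, 0 ≤ d → Reach ω x y →
      (K : ℤ) + d < y - x →
      ∃ (c L : ℤ), x + d < c ∧ 0 < L ∧ L ≤ K ∧ Bdd (pump ω c L) m ∧ Valid (pump ω c L) R ∧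
        Bdd (per ω c L) m ∧ Valid (per ω c L) R ∧
        (∀ q, q ≤ c → pump ω c L q = ω q) ∧
        (∀ q, c ≤ q → per ω c L q = pump ω c L q) ∧
        ∀ B : ℤ, ∃ z, B ≤ z ∧ Reach (pump ω c L) x z := by
  classical
  have := Fintype.ofFinite (St A W m)
  refine ⟨Fintype.card (St A W m), ?_⟩
  intro ω hb hv x y d hd hxy hK
  have hs : ∀ u v, Reach ω u v → Reach ω v u := fun u v h => reach_symm hv hi h
  obtain ⟨n1, n2, hne, heq⟩ := Fintype.exists_ne_map_eq_of_card_lt
    (fun n : Fin (Fintype.card (St A W m) + 1) => state hb W x (x + d + 1 + n)) (by simp)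
  wlog hlt : n1 < n2 generalizing n1 n2
  · exact this n2 n1 hne.symm heq.symm (lt_of_le_of_ne (not_lt.1 hlt) hne.symm)
  try beta_reduce at heq
  have hlt' : (n1 : ℕ) < (n2 : ℕ) := hlt
  have hn2 : (n2 : ℕ) < Fintype.card (St A W m) + 1 := n2.2
  obtain ⟨c, hc⟩ : ∃ c : ℤ, c = x + d + 1 + n1 := ⟨_, rfl⟩
  obtain ⟨L, hL'⟩ : ∃ L : ℤ, L = (n2 : ℤ) - n1 := ⟨_, rfl⟩
  have hL : 0 < L := by omega
  have hc2 : x + d + 1 + (n2 : ℤ) = c + L := by omega
  rw [← hc, hc2] at heq
  have hw : ∀ i : ℤ, -(W : ℤ) ≤ i → i ≤ W → ω (c + i) = ω (c + L + i) := by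
    intro i h1 h2
    have h3 := congrArg Prod.fst heq
    funext a
    have h4 := congrArg Subtype.val
      (congrFun (congrFun h3 ⟨(i + W).toNat, by omega⟩) a)
    simp only [state] at h4
    have e : (((i + W).toNat : ℕ) : ℤ) = i + W := by omega
    rw [e] at h4
    rw [show c - W + (i + W) = c + i by ring, show c + L - W + (i + W) = c + L + i by ring] at h4
    exact h4
  have hR : ∀ i j : ℤ, 1 ≤ i → i ≤ m → 1 ≤ j → j ≤ m → ReachLt ω c (c - i) (c - j) →
      ReachLt ω (c + L) (c + L - i) (c + L - j) := by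
    intro i j h1 h2 h3 h4 h5
    have h6 := congrArg (fun s => s.2.1) heq
    have h7 := congrFun (congrFun h6 ⟨(i - 1).toNat, by omega⟩) ⟨(j - 1).toNat, by omega⟩
    simp only [state] at h7
    have e1 : (((i - 1).toNat : ℕ) : ℤ) = i - 1 := by omega
    have e2 : (((j - 1).toNat : ℕ) : ℤ) = j - 1 := by omega
    rw [e1, e2, show c - 1 - (i - 1) = c - i by ring, show c - 1 - (j - 1) = c - j by ring,
      show c + L - 1 - (i - 1) = c + L - i by ring,
      show c + L - 1 - (j - 1) = c + L - j by ring] at h7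
    exact h7 ▸ h5
  have hO : ∀ i : ℤ, 1 ≤ i → i ≤ m → Reach ω x (c + L - i) → Reach ω x (c - i) := by
    intro i h1 h2 h5
    have h6 := congrArg (fun s => s.2.2) heq
    have h7 := congrFun h6 ⟨(i - 1).toNat, by omega⟩
    simp only [state] at h7
    have e1 : (((i - 1).toNat : ℕ) : ℤ) = i - 1 := by omega
    rw [e1, show c - 1 - (i - 1) = c - i by ring,
      show c + L - 1 - (i - 1) = c + L - i by ring] at h7
    exact h7 ▸ h5
  have hPb := pump_bdd hb c L
  have hperb := per_bdd hb c L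
  have hPv : Valid (pump ω c L) R := pump_valid hL hw hPb hRW hv hb
  have hperv : Valid (per ω c L) R := per_valid hL hw hperb hRW hPv hPb
  refine ⟨c, L, by omega, hL, by omega, hPb, hPv, hperb, hperv,
    fun q hq => pump_eq hL hw (by omega), fun q hq => per_eq_pump hL hw (by omega), ?_⟩
  intro B
  obtain ⟨i, hi1, hi2, -, hi4⟩ := unbounded hL hw hb hmW hR hs (x := x) (y := y) (by omega)
    (by omega) hxy hO (m + (B - c).toNat)
  refine ⟨_, ?_, hi4⟩
  have h1 : ((m + (B - c).toNat : ℕ) : ℤ) * 1 ≤ ((m + (B - c).toNat : ℕ) : ℤ) * L :=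
    mul_le_mul_of_nonneg_left (by omega) (by positivity)
  push_cast at h1 ⊢
  omega

end Pool.Agent.N6.W
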