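import Pool.Agent.N6.W.Unif

/-!
# Uniformly bounded actions have finite image, and the converse direction
-/

set_option autoImplicit false

namespace Pool.Agent.N6.W

universe u v

/-- the pattern of a point -/
def pat {G : Type u} [Group G] {X : Type v} (S : Set G) (T : Equiv.Perm X) (f : G →* Equiv.Perm X)
    (K : ℕ) (x : X)
    (p : ↥(insert 1 S) × ↥(Finset.Icc (-(K : ℤ)) K) × ↥(Finset.Icc (-(K : ℤ)) K)) : Prop :=
  f p.1 ((T ^ (p.2.1 : ℤ)) x) = (T ^ (p.2.2 : ℤ)) x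

theorem mem_Icc_abs {K : ℕ} {n : ℤ} (h : |n| ≤ K) : n ∈ Finset.Icc (-(K : ℤ)) K := by
  rw [abs_le] at h
  exact Finset.mem_Icc.2 h

theorem pat_step {G : Type u} [Group G] {X : Type v} (S : Set G) (T : Equiv.Perm X)
    (f : G →* Equiv.Perm X) (K : ℕ) (h : ∀ g, Wob T K (f g)) {x y : X}
    (hxy : pat S T f K x = pat S T f K y) (g : G) (hg : g ∈ Subgroup.closure S) :
    ∀ n : ℤ, |n| ≤ K → f g x = (T ^ n) x → f g y = (T ^ n) y := by
  induction hg using Subgroup.closure_induction_left with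
  | one =>
    intro n hn e
    have h1 := congrFun hxy (⟨1, Set.mem_insert _ _⟩, ⟨0, mem_Icc_abs (by simp)⟩,
      ⟨n, mem_Icc_abs hn⟩)
    simp only [pat, map_one, zpow_zero, Equiv.Perm.one_apply] at h1
    rw [map_one, Equiv.Perm.one_apply] at e ⊢
    rw [← h1]
    exact e
  | mul_left s hs g hg ih =>
    intro n hn e
    obtain ⟨i, hi, ei⟩ := h g x
    have e2 := ih i hi ei
    have h1 := congrFun hxy (⟨s, Set.mem_insert_of_mem _ hs⟩, ⟨i, mem_Icc_abs hi⟩,
      ⟨n, mem_Icc_abs hn⟩)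
    simp only [pat] at h1
    rw [map_mul, Equiv.Perm.mul_apply] at e ⊢
    rw [ei] at e
    rw [e2, ← h1]
    exact e
  | inv_mul_cancel s hs g hg ih =>
    intro n hn e
    obtain ⟨i, hi, ei⟩ := h g x
    have e2 := ih i hi ei
    have h1 := congrFun hxy (⟨s, Set.mem_insert_of_mem _ hs⟩, ⟨n, mem_Icc_abs hn⟩,
      ⟨i, mem_Icc_abs hi⟩)
    simp only [pat] at h1
    rw [map_mul, Equiv.Perm.mul_apply] at e ⊢
    have hcan : ∀ z, f s (f s⁻¹ z) = z := fun z => by
      rw [← Equiv.Perm.mul_apply, ← map_mul, mul_inv_cancel, map_one]; rfl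
    have hcan' : ∀ z, f s⁻¹ (f s z) = z := fun z => by
      rw [← Equiv.Perm.mul_apply, ← map_mul, inv_mul_cancel, map_one]; rfl
    have e3 : f s ((T ^ n) x) = (T ^ i) x := by rw [← e, hcan, ei]
    rw [h1] at e3
    rw [e2, ← e3, hcan']

theorem finite_range {G : Type u} [Group G] {X : Type v} (S : Set G) (hSf : S.Finite)
    (hS : Subgroup.closure S = ⊤) (T : Equiv.Perm X) (f : G →* Equiv.Perm X) (K : ℕ)
    (h : ∀ g, Wob T K (f g)) : (Set.range f).Finite := by
  classical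
  have hfi : Finite ↥(insert 1 S) := (hSf.insert 1).to_subtype
  let F : G → (↥(insert 1 S) × ↥(Finset.Icc (-(K : ℤ)) K) × ↥(Finset.Icc (-(K : ℤ)) K) → Prop) →
      Set ↥(Finset.Icc (-(K : ℤ)) K) :=
    fun g π => {n | ∃ x, pat S T f K x = π ∧ f g x = (T ^ (n : ℤ)) x}
  have key : ∀ g g', F g = F g' → f g = f g' := by
    intro g g' hgg
    ext x
    obtain ⟨n, hn, en⟩ := h g x
    have h1 : (⟨n, mem_Icc_abs hn⟩ : ↥(Finset.Icc (-(K : ℤ)) K)) ∈ F g (pat S T f K x) :=
      ⟨x, rfl, en⟩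
    rw [hgg] at h1
    obtain ⟨x', hx', ex'⟩ := h1
    rw [en, pat_step S T f K h hx' g' (by rw [hS]; trivial) n hn ex']
  have hfin : (Set.range F).Finite := Set.toFinite _
  have : Finite (Set.range F) := hfin
  let Ψ : Set.range f → Set.range F := fun y => ⟨F y.2.choose, ⟨_, rfl⟩⟩
  have hΨ : Function.Injective Ψ := by
    intro y y' hyy
    have h1 := key _ _ (congrArg Subtype.val hyy)
    rw [y.2.choose_spec, y'.2.choose_spec] at h1
    exact Subtype.ext h1
  exact Finite.of_injective Ψ hΨ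

end Pool.Agent.N6.W
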