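import Pool.Agent.N6.W.Milnor

/-!
# Groups of subexponential growth have no free subsemigroups
-/

set_option autoImplicit false

open scoped Pointwise

namespace Pool.Agent.N6.W

universe u

open Pool.Agent.H785R3.GrowthA

variable {G : Type u} [Group G]

/-- the symmetrized generating set with `1` -/
def Sy (S : Finset G) : Set G := (S : Set G) ∪ (S : Set G)⁻¹ ∪ {1}

theorem Sy_fin (S : Finset G) : (Sy S).Finite :=
  (S.finite_toSet.union S.finite_toSet.inv).union (Set.finite_singleton 1)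

theorem Sy_pow_fin (S : Finset G) (n : ℕ) : ((Sy S) ^ n).Finite := by
  induction n with
  | zero => rw [pow_zero]; exact Set.finite_singleton 1
  | succ n ih => rw [pow_succ]; exact ih.mul (Sy_fin S)

theorem one_mem_Sy (S : Finset G) : (1 : G) ∈ Sy S := Or.inr rfl

theorem Sy_inv (S : Finset G) : (Sy S)⁻¹ = Sy S := by
  unfold Sy
  rw [Set.union_inv, Set.union_inv, inv_inv, Set.inv_singleton, inv_one, Set.union_comm (S : Set G)⁻¹]

theorem exists_pow (S : Finset G) (hS : Subgroup.closure (S : Set G) = ⊤) (g : G) :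
    ∃ n : ℕ, g ∈ (Sy S) ^ n := by
  have hg : g ∈ Subgroup.closure (S : Set G) := by rw [hS]; trivial
  induction hg using Subgroup.closure_induction with
  | mem x hx => exact ⟨1, by rw [pow_one]; exact Or.inl (Or.inl hx)⟩
  | one => exact ⟨0, by rw [pow_zero]; rfl⟩
  | mul x y _ _ ihx ihy =>
    obtain ⟨m, hm⟩ := ihx
    obtain ⟨n, hn⟩ := ihy
    exact ⟨m + n, by rw [pow_add]; exact Set.mul_mem_mul hm hn⟩
  | inv x _ ih =>
    obtain ⟨n, hn⟩ := ih
    refine ⟨n, ?_⟩
    rw [← Sy_inv, inv_pow]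
    exact Set.inv_mem_inv.2 hn

theorem Sy_mono (S : Finset G) {m n : ℕ} (h : m ≤ n) : (Sy S) ^ m ⊆ (Sy S) ^ n :=
  Set.pow_subset_pow_right (one_mem_Sy S) h

theorem ev_mem_pow {a b : G} {S : Finset G} {k : ℕ} (ha : a ∈ (Sy S) ^ k) (hb : b ∈ (Sy S) ^ k)
    (l : List Bool) : ev a b l ∈ (Sy S) ^ (k * l.length) := by
  induction l with
  | nil => simp
  | cons t l ih =>
    rw [ev_cons, List.length_cons, Nat.mul_succ, add_comm, pow_add]
    refine Set.mul_mem_mul ?_ ih
    cases t
    · simpa using ha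
    · simpa using hb

theorem freePair_growth {a b : G} (hab : FreePair a b) {S : Finset G} {k : ℕ}
    (ha : a ∈ (Sy S) ^ k) (hb : b ∈ (Sy S) ^ k) (n : ℕ) : 2 ^ n ≤ ((Sy S) ^ (k * n)).ncard := by
  have h1 : (Set.univ : Set (Fin n → Bool)).ncard ≤ ((Sy S) ^ (k * n)).ncard := by
    apply Set.ncard_le_ncard_of_injOn (fun f => ev a b (List.ofFn f)) _ _ (Sy_pow_fin S _)
    · intro f _
      have := ev_mem_pow ha hb (List.ofFn f)
      rwa [List.length_ofFn] at this
    · intro f _ f' _ h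
      exact List.ofFn_injective (hab _ _ (by simp) h)
  rw [Set.ncard_univ, Nat.card_eq_fintype_card] at h1
  simpa using h1

theorem no_freePair (S : Finset G) (hS : Subgroup.closure (S : Set G) = ⊤)
    (h : ∀ c : ℝ, 0 < c → ∃ r : ℕ, (((Sy S) ^ r).ncard : ℝ) < Real.exp (c * r)) :
    ∀ a b : G, ¬ FreePair a b := by
  intro a b hab
  obtain ⟨m, hm⟩ := exists_pow S hS a
  obtain ⟨n, hn⟩ := exists_pow S hS b
  obtain ⟨k, hk0, hka, hkb⟩ : ∃ k : ℕ, 0 < k ∧ a ∈ (Sy S) ^ k ∧ b ∈ (Sy S) ^ k :=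
    ⟨m + n + 1, by omega, Sy_mono S (by omega) hm, Sy_mono S (by omega) hn⟩
  have hlog : 0 < Real.log 2 := Real.log_pos (by norm_num)
  have hk0' : (0 : ℝ) < k := by exact_mod_cast hk0
  obtain ⟨r, hr⟩ := h (Real.log 2 / (2 * k)) (by positivity)
  have hfin : ∀ j, ((Sy S) ^ j).Finite := Sy_pow_fin S
  have hne : a ≠ b := by
    intro e
    have := hab [false] [true] rfl (by simp [e])
    simp at this
  by_cases hrk : r < k
  · have h1 : (((Sy S) ^ r).ncard : ℝ) < 2 := by
      refine hr.trans_le ?_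
      have h2 : Real.log 2 / (2 * k) * r ≤ Real.log 2 := by
        have h3 : (r : ℝ) ≤ k := by exact_mod_cast hrk.le
        have h4 : Real.log 2 / (2 * k) * r = Real.log 2 * (r / (2 * k)) := by ring
        rw [h4]
        have h5 : (r : ℝ) / (2 * k) ≤ 1 := by
          rw [div_le_one (by positivity)]
          linarith
        nlinarith
      calc Real.exp (Real.log 2 / (2 * k) * r) ≤ Real.exp (Real.log 2) := Real.exp_le_exp.2 h2
        _ = 2 := Real.exp_log (by norm_num)
    have h2 : ((Sy S) ^ r).ncard < 2 := by exact_mod_cast h1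
    have hr0 : r ≠ 0 := by
      rintro rfl
      rw [pow_zero, show (1 : Set G) = {1} from rfl, Set.ncard_singleton] at hr
      simp at hr
    have hsub : Sy S ⊆ (Sy S) ^ r := by
      have := Sy_mono S (m := 1) (n := r) (by omega)
      rwa [pow_one] at this
    have h3 : (Sy S) ⊆ {1} := by
      intro x hx
      have h4 : ((Sy S) ^ r).ncard ≤ 1 := by omega
      rw [Set.ncard_le_one (hfin r)] at h4
      exact h4 x (hsub hx) 1 (hsub (one_mem_Sy S))
    have h4 : (Sy S) ^ k ⊆ {1} := by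
      have h5 : (Sy S) ^ k ⊆ ({1} : Set G) ^ k := Set.pow_subset_pow_left h3
      rwa [Set.singleton_pow, one_pow] at h5
    exact hne ((h4 hka).trans (h4 hkb).symm)
  · push Not at hrk
    have h1 := freePair_growth hab hka hkb (r / k)
    have h2 : ((Sy S) ^ (k * (r / k))).ncard ≤ ((Sy S) ^ r).ncard :=
      Set.ncard_le_ncard (Sy_mono S (Nat.mul_div_le r k)) (hfin r)
    have h3 : ((2 : ℝ)) ^ (r / k) ≤ (((Sy S) ^ r).ncard : ℝ) := by exact_mod_cast h1.trans h2
    have h4 : Real.exp (Real.log 2 / (2 * k) * r) ≤ (2 : ℝ) ^ (r / k) := by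
      have h5 : (2 : ℝ) ^ (r / k) = Real.exp (Real.log 2 * ((r / k : ℕ) : ℝ)) := by
        rw [Real.exp_mul, Real.exp_log (by norm_num), Real.rpow_natCast]
      rw [h5]
      apply Real.exp_le_exp.2
      have h6 : (r : ℝ) ≤ 2 * k * ((r / k : ℕ) : ℝ) := by
        have h7 : r ≤ 2 * k * (r / k) := by
          have h8 := Nat.div_add_mod r k
          have h9 := Nat.mod_lt r hk0
          have h10 : 1 ≤ r / k := (Nat.one_le_div_iff hk0).2 hrk
          nlinarith
        exact_mod_cast h7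
      have h7 : Real.log 2 / (2 * k) * r = Real.log 2 * (r / (2 * k)) := by ring
      rw [h7]
      apply mul_le_mul_of_nonneg_left _ hlog.le
      rw [div_le_iff₀ (by positivity)]
      linarith
    linarith

end Pool.Agent.N6.W
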