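import Pool.Agent.N6.W.Core

/-!
# Finitely presented groups acting on the line by permutations of bounded displacement
-/

set_option autoImplicit false

namespace Pool.Agent.N6.W

/-- `G` is virtually indicable: a subgroup of finite index has a nonzero homomorphism to `ℤ` -/
def VI (G : Type*) [Group G] : Prop :=
  ∃ H : Subgroup G, H.FiniteIndex ∧ ∃ f : H →* Multiplicative ℤ, f ≠ 1

theorem vi_of_periodic {G : Type*} [Group G] (Φ : G →* Equiv.Perm ℤ) (L : ℤ) (hL : 0 < L)
    (comm : ∀ g p, Φ g (p + L) = Φ g p + L) (x : ℤ) (hinf : {z | ∃ g, Φ g x = z}.Infinite) :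
    VI G := by
  classical
  have commn : ∀ (n : ℕ) g p, Φ g (p + n * L) = Φ g p + n * L := by
    intro n
    induction n with
    | zero => intro g p; simp
    | succ n ih =>
      intro g p
      rw [show p + ((n + 1 : ℕ) : ℤ) * L = (p + n * L) + L by push_cast; ring, comm, ih]
      push_cast
      ring
  have commz : ∀ (n : ℤ) g p, Φ g (p + n * L) = Φ g p + n * L := by
    intro n g p
    rcases Int.le_total 0 n with h | h
    · obtain ⟨k, rfl⟩ := Int.eq_ofNat_of_zero_le h
      exact commn k g p
    · obtain ⟨k, hk⟩ := Int.eq_ofNat_of_zero_le (show 0 ≤ -n by omega)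
      have h1 := commn k g (p + n * L)
      rw [← hk] at h1
      rw [show p + n * L + -n * L = p by ring] at h1
      linarith
  let H : Subgroup G :=
    { carrier := {g | ∀ p, ∃ t : ℤ, Φ g p = p + t * L}
      mul_mem' := by
        intro a b ha hb p
        obtain ⟨t, ht⟩ := hb p
        obtain ⟨u, hu⟩ := ha p
        refine ⟨u + t, ?_⟩
        rw [map_mul, Equiv.Perm.mul_apply, ht, commz, hu]
        ring
      one_mem' := fun p => ⟨0, by simp⟩
      inv_mem' := by
        intro a ha p
        obtain ⟨t, ht⟩ := ha p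
        refine ⟨-t, ?_⟩
        have h1 := commz (-t) a p
        rw [ht] at h1
        have h2 : Φ a (p + -t * L) = p := by rw [h1]; ring
        rw [map_inv, Equiv.Perm.inv_eq_iff_eq]
        exact h2.symm }
  have hfin : H.FiniteIndex := by
    have : NeZero L.toNat := ⟨by omega⟩
    let F : G → (Fin L.toNat → Fin L.toNat) := fun g i =>
      ⟨(Φ g (i : ℤ) % L).toNat, by
        have h1 := Int.emod_nonneg (Φ g (i : ℤ)) (by omega : L ≠ 0)
        have h2 := Int.emod_lt_of_pos (Φ g (i : ℤ)) hL
        omega⟩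
    have key : ∀ g g', F g = F g' → g⁻¹ * g' ∈ H := by
      intro g g' h p
      have h0 := Int.emod_nonneg p (by omega : L ≠ 0)
      have h0' := Int.emod_lt_of_pos p hL
      have h1 := congrArg Fin.val (congrFun h ⟨(p % L).toNat, by omega⟩)
      simp only [F] at h1
      have e : (((p % L).toNat : ℕ) : ℤ) = p % L := by omega
      rw [e] at h1
      have h2 : Φ g (p % L) % L = Φ g' (p % L) % L := by
        have h3 := Int.emod_nonneg (Φ g (p % L)) (by omega : L ≠ 0)
        have h4 := Int.emod_nonneg (Φ g' (p % L)) (by omega : L ≠ 0)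
        omega
      obtain ⟨t, h5⟩ : ∃ t : ℤ, Φ g' (p % L) = Φ g (p % L) + t * L := by
        refine ⟨Φ g' (p % L) / L - Φ g (p % L) / L, ?_⟩
        have h6 := Int.emod_add_mul_ediv (Φ g (p % L)) L
        have h7 := Int.emod_add_mul_ediv (Φ g' (p % L)) L
        rw [← h2] at h7
        linear_combination h6 - h7
      have h8 : p % L + (p / L) * L = p := by
        have := Int.emod_add_mul_ediv p L
        linarith
      have h9 := commz (p / L) g (p % L)
      have h10 := commz (p / L) g' (p % L)
      rw [h8] at h9 h10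
      refine ⟨t, ?_⟩
      have h11 : Φ g' p = Φ g p + t * L := by rw [h9, h10, h5]; ring
      have h12 : Φ g' p = Φ g (p + t * L) := by rw [commz, h11]
      rw [map_mul, Equiv.Perm.mul_apply, h12, ← Equiv.Perm.mul_apply, ← map_mul, inv_mul_cancel,
        map_one, Equiv.Perm.one_apply]
    have hinj : Function.Injective (fun q : G ⧸ H => F q.out) := by
      intro a b hab
      have := key _ _ hab
      rw [← Quotient.out_eq' a, ← Quotient.out_eq' b]
      exact QuotientGroup.eq.2 this
    have : Finite (G ⧸ H) := Finite.of_injective _ hinj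
    exact Subgroup.finiteIndex_of_finite_quotient
  refine ⟨H, hfin, ?_⟩
  by_contra hno
  push Not at hno
  have hdiv : ∀ (h : H) p, Φ h p = p + ((Φ h p - p) / L) * L := by
    intro h p
    obtain ⟨t, ht⟩ := h.2 p
    rw [ht, add_sub_cancel_left, Int.mul_ediv_cancel _ (by omega)]
  have htriv : ∀ (h : H) p, Φ h p = p := by
    intro h p
    let f : H →* Multiplicative ℤ :=
      { toFun := fun h => Multiplicative.ofAdd ((Φ h p - p) / L)
        map_one' := by simp
        map_mul' := by
          intro a b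
          rw [← ofAdd_add]
          congr 1
          have h1 : Φ (a * b : H) p = p + ((Φ a p - p) / L + (Φ b p - p) / L) * L := by
            rw [Subgroup.coe_mul, map_mul, Equiv.Perm.mul_apply, hdiv b p, commz, hdiv a p]
            have h2 : (p + (Φ a p - p) / L * L - p) / L = (Φ a p - p) / L := by
              rw [add_sub_cancel_left, Int.mul_ediv_cancel _ (by omega)]
            have h3 : (p + (Φ b p - p) / L * L - p) / L = (Φ b p - p) / L := by
              rw [add_sub_cancel_left, Int.mul_ediv_cancel _ (by omega)]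
            rw [h2, h3]
            ring
          rw [h1, add_sub_cancel_left, Int.mul_ediv_cancel _ (by omega)] }
    have h1 := hno f
    have h2 : f h = 1 := by rw [h1]; rfl
    have h3 : (Φ h p - p) / L = 0 := by
      have : Multiplicative.ofAdd ((Φ h p - p) / L) = Multiplicative.ofAdd 0 := h2
      exact Multiplicative.ofAdd.injective this
    have h4 := hdiv h p
    rw [h3] at h4
    simpa using h4
  apply hinf
  have : Finite (G ⧸ H) := Subgroup.finite_quotient_of_finiteIndex
  refine (Set.finite_range (fun q : G ⧸ H => Φ q.out x)).subset ?_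
  rintro z ⟨g, rfl⟩
  refine ⟨(g : G ⧸ H), ?_⟩
  obtain ⟨h, hh⟩ := QuotientGroup.mk_out_eq_mul H g
  simp only
  rw [hh, map_mul, Equiv.Perm.mul_apply, htriv h x]

/-- the configuration of a homomorphism -/
def conf {n : ℕ} (F : FreeGroup (Fin n) →* Equiv.Perm ℤ) (p : ℤ) (a : Fin n × Bool) : ℤ :=
  F (FreeGroup.mk [a]) p - p

theorem run_conf {n : ℕ} (F : FreeGroup (Fin n) →* Equiv.Perm ℤ) (w : List (Fin n × Bool))
    (p : ℤ) : run (conf F) w p = F (FreeGroup.mk w) p := by
  induction w with
  | nil =>
    simp only [run]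
    have : (FreeGroup.mk ([] : List (Fin n × Bool))) = 1 := rfl
    rw [this, map_one]
    rfl
  | cons a w ih =>
    have h : FreeGroup.mk (a :: w) = FreeGroup.mk [a] * FreeGroup.mk w := by
      rw [FreeGroup.mul_mk]; rfl
    simp only [run, stp, conf]
    rw [ih, h, map_mul, Equiv.Perm.mul_apply]
    ring

theorem reach_run {A : Type} (ω : ℤ → A → ℤ) (w : List A) (p : ℤ) : Reach ω p (run ω w p) := by
  induction w with
  | nil => exact Relation.ReflTransGen.refl
  | cons a w ih => exact Relation.ReflTransGen.tail ih ⟨a, rfl⟩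

theorem reach_orbit {A : Type} {ω : ℤ → A → ℤ} {x z : ℤ} (h : Reach ω x z) :
    ∃ w : List A, run ω w x = z := by
  induction h with
  | refl => exact ⟨[], rfl⟩
  | tail h1 h2 ih =>
    obtain ⟨w, hw⟩ := ih
    obtain ⟨a, ha⟩ := h2
    exact ⟨a :: w, by rw [ha, ← hw]; rfl⟩

/-- the relators of a finite presentation, with the words `a⁻¹ a` -/
def rels {n : ℕ} (s : Set (FreeGroup (Fin n))) : Set (List (Fin n × Bool)) :=
  {w | ∃ r ∈ s, w = r.toWord} ∪ {w | ∃ a : Fin n × Bool, w = [(a.1, !a.2), a]}

theorem rels_finite {n : ℕ} {s : Set (FreeGroup (Fin n))} (hs : s.Finite) :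
    (rels s).Finite := by
  refine Set.Finite.union ?_ ?_
  · refine (hs.image (fun r => r.toWord)).subset ?_
    rintro w ⟨r, hr, rfl⟩
    exact ⟨r, hr, rfl⟩
  · refine (Set.finite_range (fun a : Fin n × Bool => [(a.1, !a.2), a])).subset ?_
    rintro w ⟨a, rfl⟩
    exact ⟨a, rfl⟩

theorem mk_inv_cancel {n : ℕ} (a : Fin n × Bool) :
    FreeGroup.mk [(a.1, !a.2), a] = (1 : FreeGroup (Fin n)) := by
  obtain ⟨i, b⟩ := a
  have h1 : FreeGroup.mk [(i, !b), (i, b)] = FreeGroup.mk [(i, !b)] * FreeGroup.mk [(i, b)] := by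
    rw [FreeGroup.mul_mk]; rfl
  have h2 : FreeGroup.mk [(i, !b)] = (FreeGroup.mk [(i, b)])⁻¹ := by
    rw [FreeGroup.inv_mk]
    simp [FreeGroup.invRev]
  rw [h1, h2, inv_mul_cancel]

/-- the homomorphism of a valid configuration -/
theorem exists_hom {n : ℕ} {s : Set (FreeGroup (Fin n))} {ω : ℤ → Fin n × Bool → ℤ}
    (hv : Valid ω (rels s)) :
    ∃ F : FreeGroup (Fin n) →* Equiv.Perm ℤ, (∀ w p, F (FreeGroup.mk w) p = run ω w p) ∧
      ∀ r ∈ s, F r = 1 := by
  have h1 : ∀ (i : Fin n) (p : ℤ), stp ω (i, false) (stp ω (i, true) p) = p := by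
    intro i p
    exact hv _ (Or.inr ⟨(i, true), rfl⟩) p
  have h2 : ∀ (i : Fin n) (p : ℤ), stp ω (i, true) (stp ω (i, false) p) = p := by
    intro i p
    exact hv _ (Or.inr ⟨(i, false), rfl⟩) p
  let σ : Fin n → Equiv.Perm ℤ := fun i =>
    ⟨stp ω (i, true), stp ω (i, false), h1 i, h2 i⟩
  have hrun : ∀ w p, FreeGroup.lift σ (FreeGroup.mk w) p = run ω w p := by
    intro w
    induction w with
    | nil =>
      intro p
      have : (FreeGroup.mk ([] : List (Fin n × Bool))) = 1 := rfl
      rw [this, map_one]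
      rfl
    | cons a w ih =>
      intro p
      have h : FreeGroup.mk (a :: w) = FreeGroup.mk [a] * FreeGroup.mk w := by
        rw [FreeGroup.mul_mk]; rfl
      rw [h, map_mul, Equiv.Perm.mul_apply, ih]
      obtain ⟨i, b⟩ := a
      rw [FreeGroup.lift_mk]
      cases b
      · simp only [List.map_cons, List.map_nil, List.prod_cons, List.prod_nil, mul_one, cond_false]
        rfl
      · simp only [List.map_cons, List.map_nil, List.prod_cons, List.prod_nil, mul_one, cond_true]
        rfl
  refine ⟨FreeGroup.lift σ, hrun, ?_⟩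
  intro r hr
  ext p
  have := hrun r.toWord p
  rw [FreeGroup.mk_toWord] at this
  rw [this]
  exact hv _ (Or.inl ⟨r, hr, rfl⟩) p

end Pool.Agent.N6.W
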