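import Pool.Agent.H785R3.GrowthA

/-!
# Milnor's lemma: in a finitely generated group without free subsemigroups the commutator subgroup
is finitely generated
-/

set_option autoImplicit false

namespace Pool.Agent.N6.W

universe u

open Subgroup Pool.Agent.H785R3.GrowthA

variable {G : Type u} [Group G]

/-- the subgroup generated by the conjugates `a⁻ʲ c aʲ`, `j ≥ 0` -/
def Qc (a c : G) : Subgroup G := closure (Set.range (fun j : ℕ => (a ^ j)⁻¹ * c * a ^ j))

theorem Qc_conj (a c : G) {x : G} (hx : x ∈ Qc a c) : a⁻¹ * x * a ∈ Qc a c := by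
  have hle : Qc a c ≤ (Qc a c).comap (MulAut.conj a⁻¹).toMonoidHom := by
    unfold Qc
    rw [closure_le]
    rintro _ ⟨j, rfl⟩
    simp only [SetLike.mem_coe, mem_comap, MulEquiv.coe_toMonoidHom, MulAut.conj_apply, inv_inv]
    apply Subgroup.subset_closure
    refine ⟨j + 1, ?_⟩
    simp only
    rw [pow_succ]
    group
  have := hle hx
  simpa using this

theorem Qc_fg (a c : G) (h : ¬ FreePair a (a * c)) : (Qc a c).FG := by
  unfold FreePair at h
  push Not at h
  obtain ⟨l, l', hlen, hev, hne⟩ := h
  obtain ⟨m, hm⟩ := exists_conj_mem a c l l' hlen hev hne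
  have heq : Qc a c = closure ((fun j : ℕ => (a ^ j)⁻¹ * c * a ^ j) '' Set.Iio m) := by
    set P := closure ((fun j : ℕ => (a ^ j)⁻¹ * c * a ^ j) '' Set.Iio m) with hP
    have hstep : ∀ x ∈ P, a⁻¹ * x * a ∈ P := by
      intro x hx
      have hle : P ≤ P.comap (MulAut.conj a⁻¹).toMonoidHom := by
        conv_lhs => rw [hP]
        rw [closure_le]
        rintro _ ⟨j, hj, rfl⟩
        simp only [Set.mem_Iio] at hj
        simp only [SetLike.mem_coe, mem_comap, MulEquiv.coe_toMonoidHom, MulAut.conj_apply,
          inv_inv]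
        have h1 : a⁻¹ * ((a ^ j)⁻¹ * c * a ^ j) * a = (a ^ (j + 1))⁻¹ * c * a ^ (j + 1) := by
          rw [pow_succ]; group
        rw [h1]
        rcases Nat.lt_or_ge (j + 1) m with h2 | h2
        · exact Subgroup.subset_closure ⟨j + 1, h2, rfl⟩
        · have : j + 1 = m := by omega
          rw [this]; exact hm
      have := hle hx
      simpa using this
    have hall : ∀ j : ℕ, (a ^ j)⁻¹ * c * a ^ j ∈ P := by
      intro j
      induction j with
      | zero =>
        rcases Nat.eq_zero_or_pos m with h0 | h0
        · rw [h0] at hm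
          exact hm
        · exact Subgroup.subset_closure ⟨0, h0, rfl⟩
      | succ j ih =>
        have h1 : (a ^ (j + 1))⁻¹ * c * a ^ (j + 1) = a⁻¹ * ((a ^ j)⁻¹ * c * a ^ j) * a := by
          rw [pow_succ]; group
        rw [h1]
        exact hstep _ ih
    apply le_antisymm
    · unfold Qc
      rw [closure_le]
      rintro _ ⟨j, rfl⟩
      exact hall j
    · unfold Qc
      apply Subgroup.closure_mono
      rintro _ ⟨j, -, rfl⟩
      exact ⟨j, rfl⟩
  rw [heq, Subgroup.fg_iff]
  exact ⟨_, rfl, (Set.finite_Iio m).image _⟩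

/-- the subgroup generated by the conjugates of `c` by the powers of `t` -/
def Q2 (t c : G) : Subgroup G := Qc t c ⊔ Qc t⁻¹ c

theorem mem_Q2 (t c : G) : c ∈ Q2 t c := by
  apply mem_sup_left
  apply Subgroup.subset_closure
  exact ⟨0, by simp⟩

theorem Q2_conj (t c : G) {x : G} (hx : x ∈ Q2 t c) : t * x * t⁻¹ ∈ Q2 t c := by
  have hle : Q2 t c ≤ (Q2 t c).comap (MulAut.conj t).toMonoidHom := by
    unfold Q2
    rw [sup_le_iff]
    constructor
    · unfold Qc
      rw [closure_le]
      rintro _ ⟨j, rfl⟩
      simp only [SetLike.mem_coe, mem_comap, MulEquiv.coe_toMonoidHom, MulAut.conj_apply]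
      cases j with
      | zero =>
        apply mem_sup_right
        apply Subgroup.subset_closure
        refine ⟨1, ?_⟩
        simp
      | succ j =>
        apply mem_sup_left
        apply Subgroup.subset_closure
        refine ⟨j, ?_⟩
        simp only
        rw [pow_succ]
        group
    · intro x hx
      simp only [mem_comap, MulEquiv.coe_toMonoidHom, MulAut.conj_apply]
      apply mem_sup_right
      have := Qc_conj t⁻¹ c hx
      rwa [inv_inv] at this
  exact hle hx

theorem Q2_symm (t c : G) : Q2 t⁻¹ c = Q2 t c := by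
  unfold Q2
  rw [inv_inv, sup_comm]

theorem Q2_conj' (t c : G) {x : G} (hx : x ∈ Q2 t c) : t⁻¹ * x * t ∈ Q2 t c := by
  rw [← Q2_symm] at hx ⊢
  have := Q2_conj t⁻¹ c hx
  rwa [inv_inv] at this

theorem Q2_fg (hNF : ∀ a b : G, ¬ FreePair a b) (t c : G) : (Q2 t c).FG :=
  (Qc_fg t c (hNF _ _)).sup (Qc_fg t⁻¹ c (hNF _ _))

theorem zpowers_inf_fg (t : G) (N : Subgroup G) : (zpowers t ⊓ N).FG := by
  have hc : IsCyclic (N.subgroupOf (zpowers t)) := inferInstance
  obtain ⟨g, hg⟩ := hc
  have h1 : N.subgroupOf (zpowers t) = zpowers (g : zpowers t) := by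
    apply le_antisymm
    · intro x hx
      obtain ⟨k, hk⟩ := hg ⟨x, hx⟩
      exact ⟨k, by simpa using congrArg Subtype.val hk⟩
    · rw [zpowers_le]
      exact g.2
  have h2 : zpowers t ⊓ N = zpowers ((g : zpowers t) : G) := by
    have h3 := congrArg (Subgroup.map (zpowers t).subtype) h1
    rw [Subgroup.subgroupOf_map_subtype, MonoidHom.map_zpowers] at h3
    rw [inf_comm]
    exact h3
  rw [h2]
  exact ⟨{((g : zpowers t) : G)}, by rw [Finset.coe_singleton]; exact (zpowers_eq_closure _).symm⟩

theorem milnor_step (hNF : ∀ a b : G, ¬ FreePair a b) (N : Subgroup G) [hN : N.Normal] (t : G)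
    (hM : (N ⊔ zpowers t).FG) : N.FG := by
  classical
  obtain ⟨S, hS⟩ := hM
  have hdec : ∀ s ∈ S, ∃ c ∈ N, ∃ k : ℤ, s = c * t ^ k := by
    intro s hs
    have h1 : s ∈ (↑(N ⊔ zpowers t) : Set G) := by
      rw [← hS]
      exact Subgroup.subset_closure hs
    rw [Subgroup.normal_mul] at h1
    obtain ⟨c, hc, _, ⟨k, rfl⟩, h2⟩ := h1
    exact ⟨c, hc, k, h2.symm⟩
  choose! c hc k hk using hdec
  -- finite supremum
  have hfg : ∀ F : Finset G, F ⊆ S → ∃ P : Subgroup G, P.FG ∧ P ≤ N ∧ (∀ s ∈ F, c s ∈ P) ∧
      (∀ x ∈ P, t * x * t⁻¹ ∈ P) ∧ (∀ x ∈ P, t⁻¹ * x * t ∈ P) := by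
    intro F
    induction F using Finset.induction_on with
    | empty =>
      intro _
      refine ⟨⊥, Subgroup.FG.bot, bot_le, by simp, ?_, ?_⟩
      · intro x hx
        rw [mem_bot] at hx ⊢
        rw [hx]; group
      · intro x hx
        rw [mem_bot] at hx ⊢
        rw [hx]; group
    | insert s F _ ih =>
      intro hsub
      obtain ⟨P, h1, h2, h3, h4, h5⟩ := ih (fun x hx => hsub (Finset.mem_insert_of_mem hx))
      have hcs : c s ∈ N := hc s (hsub (Finset.mem_insert_self _ _))
      have hQ : Q2 t (c s) ≤ N := by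
        unfold Q2 Qc
        rw [sup_le_iff, closure_le, closure_le]
        constructor
        · rintro _ ⟨j, rfl⟩
          have := hN.conj_mem _ hcs (t ^ j)⁻¹
          simpa using this
        · rintro _ ⟨j, rfl⟩
          have := hN.conj_mem _ hcs (t⁻¹ ^ j)⁻¹
          simpa using this
      refine ⟨P ⊔ Q2 t (c s), h1.sup (Q2_fg hNF _ _), sup_le h2 hQ, ?_, ?_, ?_⟩
      · intro x hx
        rcases Finset.mem_insert.1 hx with rfl | hx
        · exact mem_sup_right (mem_Q2 _ _)
        · exact mem_sup_left (h3 x hx)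
      · intro x hx
        have hle : P ⊔ Q2 t (c s) ≤ (P ⊔ Q2 t (c s)).comap (MulAut.conj t).toMonoidHom := by
          rw [sup_le_iff]
          constructor
          · intro y hy
            simp only [mem_comap, MulEquiv.coe_toMonoidHom, MulAut.conj_apply]
            exact mem_sup_left (h4 y hy)
          · intro y hy
            simp only [mem_comap, MulEquiv.coe_toMonoidHom, MulAut.conj_apply]
            exact mem_sup_right (Q2_conj _ _ hy)
        exact hle hx
      · intro x hx
        have hle : P ⊔ Q2 t (c s) ≤ (P ⊔ Q2 t (c s)).comap (MulAut.conj t⁻¹).toMonoidHom := by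
          rw [sup_le_iff]
          constructor
          · intro y hy
            simp only [mem_comap, MulEquiv.coe_toMonoidHom, MulAut.conj_apply, inv_inv]
            exact mem_sup_left (h5 y hy)
          · intro y hy
            simp only [mem_comap, MulEquiv.coe_toMonoidHom, MulAut.conj_apply, inv_inv]
            exact mem_sup_right (Q2_conj' _ _ hy)
        have := hle hx
        simpa using this
  obtain ⟨P, h1, h2, h3, h4, h5⟩ := hfg S (Finset.Subset.refl _)
  have hnorm : zpowers t ≤ normalizer P := by
    rw [zpowers_le, mem_normalizer_iff]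
    intro x
    refine ⟨h4 x, fun hx => ?_⟩
    have h6 := h5 _ hx
    have h7 : t⁻¹ * (t * x * t⁻¹) * t = x := by group
    rwa [h7] at h6
  have hle : N ⊔ zpowers t ≤ P ⊔ zpowers t := by
    rw [← hS, closure_le]
    intro s hs
    have h6 := hk s hs
    rw [SetLike.mem_coe, h6]
    exact mul_mem (mem_sup_left (h3 s hs)) (mem_sup_right (zpow_mem (mem_zpowers t) _))
  have heq : N = P ⊔ (zpowers t ⊓ N) := by
    apply le_antisymm
    · intro x hx
      have h6 : x ∈ (↑(P ⊔ zpowers t) : Set G) := hle (mem_sup_left hx)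
      rw [Subgroup.coe_mul_of_right_le_normalizer_left P (zpowers t) hnorm] at h6
      obtain ⟨y, hy, z, hz, rfl⟩ := h6
      refine mul_mem (mem_sup_left hy) (mem_sup_right ⟨hz, ?_⟩)
      have h7 := mul_mem (inv_mem (h2 hy)) hx
      simpa using h7
    · exact sup_le h2 inf_le_right
  rw [heq]
  exact h1.sup (zpowers_inf_fg t N)

/-- In a finitely generated group without free subsemigroups, the commutator subgroup is finitely
generated. -/
theorem commutator_fg (hG : Group.FG G) (hNF : ∀ a b : G, ¬ FreePair a b) :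
    (commutator G).FG := by
  classical
  obtain ⟨S, hS⟩ := hG.out
  have key : ∀ F : Finset G, (commutator G ⊔ closure (F : Set G)).FG → (commutator G).FG := by
    intro F
    induction F using Finset.induction_on with
    | empty =>
      intro h
      rwa [Finset.coe_empty, Subgroup.closure_empty, sup_bot_eq] at h
    | insert s F _ ih =>
      intro h
      apply ih
      have hn : (commutator G ⊔ closure (F : Set G)).Normal := by
        constructor
        intro x hx g
        have h1 : g * x * g⁻¹ = (g * x * g⁻¹ * x⁻¹) * x := by group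
        rw [h1]
        refine mul_mem (mem_sup_left ?_) hx
        exact commutator_mem_commutator (mem_top g) (mem_top x)
      apply milnor_step hNF _ s
      rw [sup_assoc]
      have h2 : closure (F : Set G) ⊔ zpowers s = closure ((insert s F : Finset G) : Set G) := by
        rw [Finset.coe_insert, Set.insert_eq, Subgroup.closure_union, ← zpowers_eq_closure, sup_comm]
      rw [h2]
      exact h
  apply key S
  rw [hS, sup_top_eq]
  exact ⟨S, hS⟩

/-- the same for a subgroup of finite index -/
theorem commutator_sub_fg (hG : Group.FG G) (hNF : ∀ a b : G, ¬ FreePair a b) (K : Subgroup G)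
    (hK : K.FiniteIndex) : (⁅K, K⁆ : Subgroup G).FG := by
  classical
  have hFG : Group.FG K := inferInstance
  have hNF' : ∀ a b : K, ¬ FreePair a b := by
    intro a b hab
    apply hNF (a : G) (b : G)
    intro l l' hlen hev
    apply hab l l' hlen
    have hcoe : ∀ l : List Bool, ((ev a b l : K) : G) = ev (a : G) (b : G) l := by
      intro l
      induction l with
      | nil => simp
      | cons t l ih =>
        rw [ev_cons, ev_cons, Subgroup.coe_mul, ih]
        cases t <;> rfl
    exact Subtype.ext (by rw [hcoe, hcoe, hev])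
  obtain ⟨T, hT⟩ := commutator_fg hFG hNF'
  refine ⟨T.image K.subtype, ?_⟩
  rw [Finset.coe_image, ← MonoidHom.map_closure, hT, commutator_def, Subgroup.map_commutator,
    ← MonoidHom.range_eq_map, Subgroup.range_subtype]

end Pool.Agent.N6.W
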