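import Pool.Agent.N6.W.Growth

/-!
# Virtually abelian groups have polynomial growth
-/

set_option autoImplicit false

open scoped Pointwise

namespace Pool.Agent.N6.W

universe u

variable {G : Type u} [Group G]

theorem prod_map_eq {M : Type*} [CommMonoid M] {ι : Type*} [Fintype ι] [DecidableEq ι]
    (e : ι → M) (l : List ι) : (l.map e).prod = ∏ i, e i ^ (l.count i) := by
  induction l with
  | nil => simp
  | cons j l ih =>
    rw [List.map_cons, List.prod_cons, ih]
    have h1 : ∀ i, e i ^ ((j :: l).count i) = e i ^ (l.count i) * (if j = i then e i else 1) := by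
      intro i
      rw [List.count_cons]
      by_cases h : j = i
      · simp [h, pow_succ]
      · simp [h]
    simp_rw [h1]
    rw [Finset.prod_mul_distrib, Finset.prod_ite_eq]
    simp [mul_comm]

theorem exists_prod_map {M : Type*} [CommMonoid M] {ι : Type*} [Fintype ι]
    (e : ι → M) (l : List ι) :
    ∃ m : ι → ℕ, (∀ i, m i ≤ l.length) ∧ (l.map e).prod = ∏ i, e i ^ m i := by
  classical
  exact ⟨fun i => l.count i, fun i => List.count_le_length, prod_map_eq e l⟩

theorem poly_growth (A : Subgroup G) (hA : A.FiniteIndex) (hab : ∀ a ∈ A, ∀ b ∈ A, a * b = b * a)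
    (S : Finset G) : ∃ C d : ℕ, ∀ n : ℕ, ((Sy S) ^ n).ncard ≤ C * (n + 1) ^ d := by
  classical
  let instA : CommGroup A :=
    { (inferInstance : Group A) with
      mul_comm := fun a b => Subtype.ext (hab a a.2 b b.2) }
  have hfinq : Finite (G ⧸ A) := Subgroup.finite_quotient_of_finiteIndex
  have := Fintype.ofFinite (G ⧸ A)
  have hfinS : Finite (Sy S) := (Sy_fin S).to_subtype
  have := Fintype.ofFinite (Sy S)
  have hmem : ∀ (g : G) (q : G ⧸ A), ((g • q).out)⁻¹ * (g * q.out) ∈ A := by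
    intro g q
    rw [← QuotientGroup.eq, QuotientGroup.out_eq']
    conv_lhs => rw [← QuotientGroup.out_eq' q]
    rfl
  let e : (Sy S) × (G ⧸ A) → A := fun p => ⟨_, hmem (p.1 : G) p.2⟩
  have he : ∀ (s : Sy S) (r : G ⧸ A), (s : G) * r.out = ((s : G) • r).out * (e (s, r) : G) := by
    intro s r
    show (s : G) * r.out = ((s : G) • r).out * ((((s : G) • r).out)⁻¹ * ((s : G) * r.out))
    group
  set a0 : G := (((1 : G) : G ⧸ A).out)⁻¹ with ha0
  have key : ∀ n : ℕ, ∀ g ∈ (Sy S) ^ n, ∃ (r : G ⧸ A) (l : List ((Sy S) × (G ⧸ A))),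
      l.length = n ∧ g = r.out * ((l.map e).prod : A) * a0 := by
    intro n
    induction n with
    | zero =>
      intro g hg
      rw [pow_zero] at hg
      have hg1 : g = 1 := hg
      refine ⟨((1 : G) : G ⧸ A), [], rfl, ?_⟩
      rw [hg1, ha0]
      simp
    | succ n ih =>
      intro g hg
      rw [pow_succ'] at hg
      obtain ⟨s, hs, g', hg', rfl⟩ := hg
      obtain ⟨r, l, hl, rfl⟩ := ih g' hg'
      refine ⟨s • r, (⟨s, hs⟩, r) :: l, by simp [hl], ?_⟩
      have h1 := he ⟨s, hs⟩ r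
      simp only at h1
      rw [List.map_cons, List.prod_cons]
      have h2 : (((e (⟨s, hs⟩, r)) * (l.map e).prod : A) : G) =
          (e (⟨s, hs⟩, r) : G) * ((l.map e).prod : A) := rfl
      rw [h2]
      calc s * (r.out * ((l.map e).prod : A) * a0)
          = (s * r.out) * ((l.map e).prod : A) * a0 := by group
        _ = _ := by rw [h1]; group
  refine ⟨Fintype.card (G ⧸ A), Fintype.card ((Sy S) × (G ⧸ A)), fun n => ?_⟩
  let Θ : (G ⧸ A) × (((Sy S) × (G ⧸ A)) → Fin (n + 1)) → G := fun p =>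
    p.1.out * ((∏ i, e i ^ ((p.2 i : Fin (n + 1)) : ℕ) : A) : G) * a0
  have hsub : (Sy S) ^ n ⊆ Θ '' Set.univ := by
    intro g hg
    obtain ⟨r, l, hl, rfl⟩ := key n g hg
    obtain ⟨m, hm, hprod⟩ := exists_prod_map e l
    refine ⟨(r, fun i => ⟨m i, by have := hm i; omega⟩), trivial, ?_⟩
    simp only [Θ]
    rw [hprod]
  have h1 : ((Sy S) ^ n).ncard ≤ (Θ '' Set.univ).ncard :=
    Set.ncard_le_ncard hsub (Set.toFinite _)
  have h2 : (Θ '' Set.univ).ncard ≤
      (Set.univ : Set ((G ⧸ A) × (((Sy S) × (G ⧸ A)) → Fin (n + 1)))).ncard :=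
    Set.ncard_image_le (Set.toFinite _)
  refine (h1.trans h2).trans ?_
  rw [Set.ncard_univ, Nat.card_eq_fintype_card, Fintype.card_prod, Fintype.card_fun,
    Fintype.card_fin]

end Pool.Agent.N6.W
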