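import Pool.Agent.N6.W.Core2
import Pool.Agent.N6.W.App

/-!
# Finitely generated commutator subgroups act trivially on long orbits
-/

set_option autoImplicit false

namespace Pool.Agent.N6.W

universe u v

theorem commz_of {G : Type u} [Group G] (Φ : G →* Equiv.Perm ℤ) (L : ℤ)
    (comm : ∀ g p, Φ g (p + L) = Φ g p + L) :
    ∀ (n : ℤ) g p, Φ g (p + n * L) = Φ g p + n * L := by
  have commn : ∀ (n : ℕ) g p, Φ g (p + n * L) = Φ g p + n * L := by
    intro n
    induction n with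
    | zero => intro g p; simp
    | succ n ih =>
      intro g p
      rw [show p + ((n + 1 : ℕ) : ℤ) * L = (p + n * L) + L by push_cast; ring, comm, ih]
      push_cast
      ring
  intro n g p
  rcases Int.le_total 0 n with h | h
  · obtain ⟨k, rfl⟩ := Int.eq_ofNat_of_zero_le h
    exact commn k g p
  · obtain ⟨k, hk⟩ := Int.eq_ofNat_of_zero_le (show 0 ≤ -n by omega)
    have h1 := commn k g (p + n * L)
    rw [← hk] at h1
    rw [show p + n * L + -n * L = p by ring] at h1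
    linarith

/-- the homomorphism of a valid configuration -/
theorem exists_homG {G : Type u} [Group G] {n : ℕ} (φ : FreeGroup (Fin n) →* G)
    (hφ : Function.Surjective φ) {s : Set (FreeGroup (Fin n))}
    (hker : Subgroup.normalClosure s = φ.ker) {ω : ℤ → Fin n × Bool → ℤ}
    (hv : Valid ω (rels s)) :
    ∃ Φ : G →* Equiv.Perm ℤ, ∀ w p, Φ (φ (FreeGroup.mk w)) p = run ω w p := by
  obtain ⟨F', hF', hF's⟩ := exists_hom hv
  have hle : φ.ker ≤ F'.ker := by
    rw [← hker]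
    exact Subgroup.normalClosure_le_normal (fun r hr => hF's r hr)
  let Φ : G →* Equiv.Perm ℤ := φ.liftOfSurjective hφ ⟨F', hle⟩
  have hΦ : ∀ u, Φ (φ u) = F' u := fun u => MonoidHom.liftOfRightInverse_comp_apply _ _ _ _ _
  exact ⟨Φ, fun w p => by rw [hΦ, hF']⟩

/-- the elements which act trivially on all sets with at most `N + 1` elements -/
def resCore (G : Type u) [Group G] (N : ℕ) : Subgroup G :=
  ⨅ (L : Fin (N + 1)), ⨅ ρ : G →* Equiv.Perm (ZMod ((L : ℕ) + 1)), ρ.ker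

theorem resCore_normal (G : Type u) [Group G] (N : ℕ) : (resCore G N).Normal :=
  Subgroup.normal_iInf_normal (fun _ => Subgroup.normal_iInf_normal (fun _ => inferInstance))

theorem resCore_finiteIndex {G : Type u} [Group G] {n : ℕ} (φ : FreeGroup (Fin n) →* G)
    (hφ : Function.Surjective φ) (N : ℕ) : (resCore G N).FiniteIndex := by
  have hfin : ∀ L : ℕ, Finite (G →* Equiv.Perm (ZMod (L + 1))) := by
    intro L
    have h1 : Function.Injective (fun (ρ : G →* Equiv.Perm (ZMod (L + 1))) (i : Fin n) =>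
        ρ (φ (FreeGroup.of i))) := by
      intro ρ ρ' h
      have h2 : ρ.comp φ = ρ'.comp φ := FreeGroup.ext_hom _ _ (fun i => congrFun h i)
      ext1 g
      obtain ⟨u, rfl⟩ := hφ g
      exact DFunLike.congr_fun h2 u
    exact Finite.of_injective _ h1
  apply Subgroup.finiteIndex_iInf
  intro L
  have := hfin L
  apply Subgroup.finiteIndex_iInf
  intro ρ
  infer_instance

theorem resCore_apply {G : Type u} [Group G] {N : ℕ} {g : G} (hg : g ∈ resCore G N) {L : ℕ}
    (h1 : 0 < L) (h2 : L ≤ N + 1) (ρ : G →* Equiv.Perm (ZMod L)) : ρ g = 1 := by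
  obtain ⟨L', rfl⟩ : ∃ L', L = L' + 1 := ⟨L - 1, by omega⟩
  unfold resCore at hg
  rw [Subgroup.mem_iInf] at hg
  have h3 := hg ⟨L', by omega⟩
  rw [Subgroup.mem_iInf] at h3
  exact h3 ρ

theorem exists_residue {G : Type u} [Group G] (Φ : G →* Equiv.Perm ℤ) (L : ℕ) [NeZero L]
    (comm : ∀ g p, Φ g (p + L) = Φ g p + L) :
    ∃ ρ : G →* Equiv.Perm (ZMod L), ∀ g (p : ℤ), ρ g (p : ZMod L) = ((Φ g p : ℤ) : ZMod L) := by
  have key : ∀ g (p : ℤ), ((Φ g (((p : ZMod L).val : ℕ) : ℤ) : ℤ) : ZMod L) =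
      ((Φ g p : ℤ) : ZMod L) := by
    intro g p
    have h1 : (((p : ZMod L).val : ℕ) : ℤ) = p % L := ZMod.val_intCast p
    have h2 : p = (((p : ZMod L).val : ℕ) : ℤ) + (p / L) * L := by
      rw [h1]
      have := Int.emod_add_mul_ediv p L
      linarith
    have h3 := commz_of Φ L comm (p / L) g (((p : ZMod L).val : ℕ) : ℤ)
    rw [← h2] at h3
    rw [h3]
    push_cast
    simp
  refine ⟨MonoidHom.toHomPerm
    { toFun := fun g z => ((Φ g ((z.val : ℕ) : ℤ) : ℤ) : ZMod L)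
      map_one' := by
        funext z
        simp only [map_one, Equiv.Perm.one_apply]
        simp
        rfl
      map_mul' := by
        intro g g'
        funext z
        show ((Φ (g * g') ((z.val : ℕ) : ℤ) : ℤ) : ZMod L) =
          ((Φ g ((((Φ g' ((z.val : ℕ) : ℤ) : ℤ) : ZMod L).val : ℕ) : ℤ) : ℤ) : ZMod L)
        rw [key, map_mul, Equiv.Perm.mul_apply] }, ?_⟩
  intro g p
  exact key g p

theorem commutator_trivial {G : Type u} [Group G] {N : ℕ} (Φ : G →* Equiv.Perm ℤ) (L : ℤ)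
    (hL : 0 < L) (hLN : L ≤ N) (comm : ∀ g p, Φ g (p + L) = Φ g p + L) :
    ⁅resCore G N, resCore G N⁆ ≤ Φ.ker := by
  obtain ⟨L', rfl⟩ := Int.eq_ofNat_of_zero_le hL.le
  have : NeZero L' := ⟨by omega⟩
  obtain ⟨ρ, hρ⟩ := exists_residue Φ L' comm
  have hz := commz_of Φ L' comm
  have htr : ∀ g ∈ resCore G N, ∀ p, ∃ t : ℤ, Φ g p = p + t * L' := by
    intro g hg p
    have h1 := resCore_apply hg (L := L') (by omega) (by omega) ρ
    have h2 := hρ g p
    rw [h1, Equiv.Perm.one_apply] at h2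
    have h3 : ((Φ g p - p : ℤ) : ZMod L') = 0 := by
      push_cast
      rw [← h2, sub_self]
    rw [ZMod.intCast_zmod_eq_zero_iff_dvd] at h3
    obtain ⟨t, ht⟩ := h3
    exact ⟨t, by linarith⟩
  rw [Subgroup.commutator_le]
  intro a ha b hb
  rw [MonoidHom.mem_ker, map_commutatorElement, commutatorElement_eq_one_iff_mul_comm]
  ext p
  obtain ⟨t, ht⟩ := htr a ha p
  obtain ⟨r, hr⟩ := htr b hb p
  rw [Equiv.Perm.mul_apply, Equiv.Perm.mul_apply, hr, ht, hz, hz, hr, ht]
  ring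

theorem quiet_right {G : Type u} [Group G] {n : ℕ} (φ : FreeGroup (Fin n) →* G)
    (hφ : Function.Surjective φ) (s : Set (FreeGroup (Fin n)))
    (hker : Subgroup.normalClosure s = φ.ker) (m ℓ : ℕ) (hℓ : ∀ w ∈ rels s, w.length ≤ ℓ) :
    ∃ K : ℕ, ∀ B : Subgroup G, B.Normal → B ≤ ⁅resCore G K, resCore G K⁆ → B.FG →
      ∀ ω : ℤ → Fin n × Bool → ℤ, Bdd ω m →
      Valid ω (rels s) → ∀ x y w, φ (FreeGroup.mk w) ∈ B →
      Reach ω x y → (K : ℤ) + (m * w.length : ℕ) < y - x → run ω w x = x := by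
  classical
  obtain ⟨K, hK⟩ := core2 (rels s) (fun a => (a.1, !a.2)) (fun a => Or.inr ⟨a, rfl⟩) m
    (m + m * ℓ) (Nat.le_add_right _ _)
    (fun w hw => le_trans (Nat.mul_le_mul_left _ (hℓ w hw)) (Nat.le_add_left _ _))
  refine ⟨K, fun B hBn hBle hFG ω hb hv x y w hw hxy hlt => ?_⟩
  obtain ⟨c, L, hc, hL, hLK, hPb, hPv, hperb, hperv, hP1, hP2, hunb⟩ :=
    hK ω hb hv x y ((m * w.length : ℕ) : ℤ) (by positivity) hxy hlt
  obtain ⟨Φ, hΦ⟩ := exists_homG φ hφ hker hPv
  obtain ⟨Ψ, hΨ⟩ := exists_homG φ hφ hker hperv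
  have hcomm : ∀ g p, Ψ g (p + L) = Ψ g p + L := by
    intro g p
    obtain ⟨u, rfl⟩ := hφ g
    rw [← FreeGroup.mk_toWord (x := u), hΨ, hΨ]
    exact (run_shift hperb L _ p (fun q _ => per_add ω c L q)).1
  have hBtriv := commutator_trivial (N := K) Ψ L hL (by exact_mod_cast hLK) hcomm
  obtain ⟨T, hT⟩ := hFG
  have hwd : ∀ g : G, ∃ w : List (Fin n × Bool), φ (FreeGroup.mk w) = g := by
    intro g
    obtain ⟨u, rfl⟩ := hφ g
    exact ⟨u.toWord, by rw [FreeGroup.mk_toWord]⟩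
  choose wd hwd using hwd
  obtain ⟨r, hr⟩ : ∃ r : ℕ, ∀ g ∈ T, (wd g).length ≤ r :=
    ⟨T.sup (fun g => (wd g).length), fun g hg => Finset.le_sup (f := fun g => (wd g).length) hg⟩
  have hfar : ∀ b ∈ B, ∀ z, c + (m * r : ℕ) ≤ z →
      Φ b z = z := by
    intro b hb'
    rw [← hT] at hb'
    induction hb' using Subgroup.closure_induction with
    | mem g hg =>
      intro z hz
      have h0 : m * (wd g).length ≤ m * r := Nat.mul_le_mul_left _ (hr g hg)
      have h1 := (run_shift (ω := pump ω c L) (ω' := per ω c L) hPb 0 (wd g) z (fun q hq => by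
        rw [add_zero]
        apply hP2
        rw [abs_le] at hq
        omega)).1
      rw [add_zero, add_zero] at h1
      rw [← hwd g, hΦ, ← h1, ← hΨ, hwd]
      have h2 : g ∈ B := by
        rw [← hT]
        exact Subgroup.subset_closure hg
      have h3 := hBtriv (hBle h2)
      rw [MonoidHom.mem_ker] at h3
      rw [h3]
      rfl
    | one => intro z hz; simp
    | mul a b _ _ iha ihb =>
      intro z hz
      rw [map_mul, Equiv.Perm.mul_apply, ihb z hz, iha z hz]
    | inv a _ ih =>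
      intro z hz
      rw [map_inv, Equiv.Perm.inv_eq_iff_eq]
      exact (ih z hz).symm
  obtain ⟨z, hz, hxz⟩ := hunb (c + (m * r : ℕ))
  obtain ⟨w', hw'⟩ := reach_orbit hxz
  have h2 : Φ (φ (FreeGroup.mk w')) x = z := by rw [hΦ, hw']
  have h3 := hBn.conj_mem _ hw (φ (FreeGroup.mk w'))
  have h4 := hfar _ h3 z hz
  have h5 : Φ (φ (FreeGroup.mk w)) x = x := by
    rw [map_mul, map_mul, Equiv.Perm.mul_apply, Equiv.Perm.mul_apply, ← h2] at h4
    have h6 : Φ (φ (FreeGroup.mk w'))⁻¹ (Φ (φ (FreeGroup.mk w')) x) = x := by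
      rw [← Equiv.Perm.mul_apply, ← map_mul, inv_mul_cancel, map_one]; rfl
    rw [h6] at h4
    exact (Φ (φ (FreeGroup.mk w'))).injective h4
  have h6 := (run_shift (ω := ω) (ω' := pump ω c L) hb 0 w x (fun q hq => by
    rw [add_zero]
    apply hP1
    rw [abs_le] at hq
    omega)).1
  rw [add_zero, add_zero] at h6
  rw [← h6, ← hΦ]
  exact h5

end Pool.Agent.N6.W
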