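import Pool.Agent.N6.W.Quiet

/-!
# Uniform bound for the commutator subgroup
-/

set_option autoImplicit false

namespace Pool.Agent.N6.W

universe u v

section

variable {A : Type}

/-- the reflected configuration -/
def refl (ω : ℤ → A → ℤ) (p : ℤ) (a : A) : ℤ := - ω (-p) a

theorem run_refl (ω : ℤ → A → ℤ) (w : List A) (p : ℤ) :
    run (refl ω) w p = - run ω w (-p) := by
  induction w with
  | nil => simp [run]
  | cons a w ih =>
    simp only [run, stp, refl]
    rw [ih, neg_neg]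
    ring

theorem refl_bdd {ω : ℤ → A → ℤ} {m : ℕ} (hb : Bdd ω m) : Bdd (refl ω) m := by
  intro p a
  unfold refl
  rw [abs_neg]
  exact hb _ _

theorem refl_valid {ω : ℤ → A → ℤ} {R : Set (List A)} (hv : Valid ω R) : Valid (refl ω) R := by
  intro w hw p
  rw [run_refl, hv w hw, neg_neg]

theorem reach_refl {ω : ℤ → A → ℤ} {x y : ℤ} (h : Reach ω x y) : Reach (refl ω) (-x) (-y) := by
  obtain ⟨w, hw⟩ := reach_orbit h
  have h1 := reach_run (refl ω) w (-x)
  rw [run_refl, neg_neg, hw] at h1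
  exact h1

end

theorem quiet_both {G : Type u} [Group G] {n : ℕ} (φ : FreeGroup (Fin n) →* G)
    (hφ : Function.Surjective φ) (s : Set (FreeGroup (Fin n)))
    (hker : Subgroup.normalClosure s = φ.ker) (m ℓ : ℕ) (hℓ : ∀ w ∈ rels s, w.length ≤ ℓ) :
    ∃ K : ℕ, ∀ B : Subgroup G, B.Normal → B ≤ ⁅resCore G K, resCore G K⁆ → B.FG →
      ∀ ω : ℤ → Fin n × Bool → ℤ, Bdd ω m →
      Valid ω (rels s) → ∀ x y w, φ (FreeGroup.mk w) ∈ B →
      Reach ω x y → (K : ℤ) + (m * w.length : ℕ) < |y - x| → run ω w x = x := by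
  obtain ⟨K, hK⟩ := quiet_right φ hφ s hker m ℓ hℓ
  refine ⟨K, fun B hBn hBle hFG ω hb hv x y w hw hxy hlt => ?_⟩
  rcases le_total 0 (y - x) with h | h
  · rw [abs_of_nonneg h] at hlt
    exact hK B hBn hBle hFG ω hb hv x y w hw hxy hlt
  · rw [abs_of_nonpos h] at hlt
    have h1 := hK B hBn hBle hFG (refl ω) (refl_bdd hb) (refl_valid hv) (-x) (-y) w hw (reach_refl hxy)
      (by omega)
    rw [run_refl, neg_neg] at h1
    omega

theorem quiet_bound {G : Type u} [Group G] {n : ℕ} (φ : FreeGroup (Fin n) →* G)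
    (hφ : Function.Surjective φ) (s : Set (FreeGroup (Fin n)))
    (hker : Subgroup.normalClosure s = φ.ker) (m ℓ : ℕ) (hℓ : ∀ w ∈ rels s, w.length ≤ ℓ) :
    ∃ K : ℕ, ∀ B : Subgroup G, B.Normal → B ≤ ⁅resCore G K, resCore G K⁆ → B.FG →
      ∃ D : ℕ, ∀ ω : ℤ → Fin n × Bool → ℤ, Bdd ω m →
      Valid ω (rels s) → ∀ w, φ (FreeGroup.mk w) ∈ B →
      ∀ x, |run ω w x - x| ≤ D := by
  classical
  obtain ⟨K, hK⟩ := quiet_both φ hφ s hker m ℓ hℓ
  refine ⟨K, fun B hBn hBle hFG => ?_⟩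
  have hFG' := hFG
  obtain ⟨T, hT⟩ := hFG'
  have hwd : ∀ g : G, ∃ w : List (Fin n × Bool), φ (FreeGroup.mk w) = g := by
    intro g
    obtain ⟨u, rfl⟩ := hφ g
    exact ⟨u.toWord, by rw [FreeGroup.mk_toWord]⟩
  choose wd hwd using hwd
  obtain ⟨r, hr⟩ : ∃ r : ℕ, ∀ g ∈ T, (wd g).length ≤ r :=
    ⟨T.sup (fun g => (wd g).length), fun g hg => Finset.le_sup (f := fun g => (wd g).length) hg⟩
  refine ⟨2 * (K + m * r), fun ω hb hv w hw x => ?_⟩
  by_contra hlt
  push Not at hlt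
  have hxy : Reach ω x (run ω w x) := reach_run ω w x
  obtain ⟨Φ, hΦ⟩ := exists_homG φ hφ hker hv
  have hsymm : ∀ u v, Reach ω u v → Reach ω v u := fun u v h =>
    reach_symm (inv := fun a => (a.1, !a.2)) hv (fun a => Or.inr ⟨a, rfl⟩) h
  have hfix : ∀ b ∈ B, ∀ z, Reach ω x z →
      Φ b z = z := by
    intro b hb'
    rw [← hT] at hb'
    induction hb' using Subgroup.closure_induction with
    | mem g hg =>
      intro z hz
      rw [← hwd g, hΦ]
      have h0 : m * (wd g).length ≤ m * r := Nat.mul_le_mul_left _ (hr g hg)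
      have h2 : g ∈ B := by
        rw [← hT]
        exact Subgroup.subset_closure hg
      have h3 : φ (FreeGroup.mk (wd g)) ∈ B := by
        rw [hwd]; exact h2
      by_cases hzx : ((K + m * r : ℕ) : ℤ) < |x - z|
      · exact hK B hBn hBle hFG ω hb hv z x (wd g) h3 (hsymm _ _ hz)
          (lt_of_le_of_lt (by push_cast; exact_mod_cast Nat.add_le_add_left h0 K) hzx)
      · have hzy : ((K + m * r : ℕ) : ℤ) < |run ω w x - z| := by
          have h4 := abs_sub_le (run ω w x) z x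
          rw [abs_sub_comm z x] at h4
          push_cast at hzx hlt ⊢
          push Not at hzx
          linarith
        exact hK B hBn hBle hFG ω hb hv z (run ω w x) (wd g) h3
          (Relation.ReflTransGen.trans (hsymm _ _ hz) hxy)
          (lt_of_le_of_lt (by push_cast; exact_mod_cast Nat.add_le_add_left h0 K) hzy)
    | one => intro z hz; simp
    | mul a b _ _ iha ihb =>
      intro z hz
      rw [map_mul, Equiv.Perm.mul_apply, ihb z hz, iha z hz]
    | inv a _ ih =>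
      intro z hz
      rw [map_inv, Equiv.Perm.inv_eq_iff_eq]
      exact (ih z hz).symm
  have h1 := hfix _ hw x Relation.ReflTransGen.refl
  rw [hΦ] at h1
  rw [h1, sub_self, abs_zero] at hlt
  exact absurd hlt (not_lt.2 (by positivity))

theorem short_period {X : Type v} (T : Equiv.Perm X) {k : ℕ} {x : X}
    (h : (T ^ (k : ℤ)) x = x) (e : ℤ) : (T ^ (e % k)) x = (T ^ e) x := by
  have hmul : ∀ j : ℕ, (T ^ ((j : ℤ) * k)) x = x := by
    intro j
    induction j with
    | zero => simp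
    | succ j ih =>
      rw [show (((j + 1 : ℕ) : ℤ) * k) = (j : ℤ) * k + k by push_cast; ring, zpow_add_apply,
        h, ih]
  have hmulz : ∀ j : ℤ, (T ^ (j * (k : ℤ))) x = x := by
    intro j
    rcases Int.le_total 0 j with h | h
    · obtain ⟨j', rfl⟩ := Int.eq_ofNat_of_zero_le h
      exact hmul j'
    · obtain ⟨j', hj'⟩ := Int.eq_ofNat_of_zero_le (show 0 ≤ -j by omega)
      have h1 := hmul j'
      have h2 : (T ^ (j * (k : ℤ))) ((T ^ ((j' : ℤ) * k)) x) = x := by
        rw [← zpow_add_apply, ← hj']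
        rw [show j * (k : ℤ) + -j * k = 0 by ring, zpow_zero]
        rfl
      rwa [h1] at h2
  have h1 := Int.emod_add_mul_ediv e k
  have h2 : (T ^ e) x = (T ^ (e % k + (e / k) * k)) x := by
    congr 2
    linarith
  rw [h2, zpow_add_apply, hmulz]

theorem lift_config {G : Type u} [Group G] {n : ℕ} (φ : FreeGroup (Fin n) →* G)
    (s : Set (FreeGroup (Fin n))) (hker : Subgroup.normalClosure s = φ.ker) (m' ℓ : ℕ)
    (hℓ : ∀ w ∈ rels s, w.length ≤ ℓ) {X : Type v} (T : Equiv.Perm X) (f : G →* Equiv.Perm X)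
    (hc : ∀ a, Wob T m' (f (φ (FreeGroup.mk [a])))) (x : X)
    (hper : ∀ k : ℕ, 0 < k → k ≤ m' * ℓ → (T ^ (k : ℤ)) x ≠ x) :
    ∃ ω : ℤ → Fin n × Bool → ℤ, Bdd ω m' ∧ Valid ω (rels s) ∧
      ∀ w p, (T ^ (run ω w p)) x = f (φ (FreeGroup.mk w)) ((T ^ p) x) := by
  unfold Wob at hc
  choose c hc1 hc2 using hc
  let ω : ℤ → Fin n × Bool → ℤ := fun p a => c a ((T ^ p) x)
  have hb : Bdd ω m' := fun p a => hc1 a _
  have hrun : ∀ (w : List (Fin n × Bool)) (p : ℤ),
      (T ^ (run ω w p)) x = f (φ (FreeGroup.mk w)) ((T ^ p) x) := by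
    intro w p
    induction w with
    | nil =>
      have : (FreeGroup.mk ([] : List (Fin n × Bool))) = 1 := rfl
      rw [this, map_one, map_one]
      rfl
    | cons a w ih =>
      have h : FreeGroup.mk (a :: w) = FreeGroup.mk [a] * FreeGroup.mk w := by
        rw [FreeGroup.mul_mk]; rfl
      rw [h, map_mul, map_mul, Equiv.Perm.mul_apply, ← ih]
      simp only [run, stp]
      rw [hc2, add_comm, zpow_add_apply]
  refine ⟨ω, hb, ?_, hrun⟩
  intro w hw p
  have h1 : φ (FreeGroup.mk w) = 1 := by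
    rcases hw with ⟨r, hr, rfl⟩ | ⟨a, rfl⟩
    · rw [FreeGroup.mk_toWord, ← MonoidHom.mem_ker, ← hker]
      exact Subgroup.subset_normalClosure hr
    · rw [mk_inv_cancel, map_one]
  have h2 := hrun w p
  rw [h1, map_one, Equiv.Perm.one_apply] at h2
  have h3 := (run_shift hb 0 w p (ω' := ω) (fun q _ => by rw [add_zero])).2
  by_contra hne
  set d := run ω w p - p with hd
  have hd0 : d ≠ 0 := by omega
  have h4 : (T ^ d) x = x := by
    have h5 := congrArg (T ^ (-p)) h2
    rw [← zpow_add_apply, ← zpow_add_apply, neg_add_cancel, zpow_zero,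
      Equiv.Perm.one_apply, show -p + run ω w p = d by omega] at h5
    exact h5
  have h5 : (T ^ (-d)) x = x := by
    have h6 := congrArg (T ^ (-d)) h4
    rw [← zpow_add_apply, neg_add_cancel, zpow_zero, Equiv.Perm.one_apply] at h6
    exact h6.symm
  have h6 : (m' * w.length : ℕ) ≤ m' * ℓ := Nat.mul_le_mul_left _ (hℓ w hw)
  have h7 : d.natAbs ≤ m' * ℓ := by
    have h8 := Int.natCast_natAbs d
    rw [← h8] at h3
    have h9 : d.natAbs ≤ m' * w.length := by exact_mod_cast h3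
    exact h9.trans h6
  apply hper d.natAbs (by omega) h7
  rcases Int.natAbs_eq d with h | h
  · rw [← h]; exact h4
  · rw [show ((d.natAbs : ℕ) : ℤ) = -d by omega]; exact h5

/-- Let `N` be a normal subgroup of the finitely presented group `G`. If the commutator subgroups of
the subgroups of finite index of `N` are finitely generated, then one of them has uniformly bounded
displacement. -/
theorem comm_wob (G : Type u) [Group G] [hfp : Group.IsFinitelyPresented G] (N : Subgroup G)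
    (hNn : N.Normal) (hN : ∀ K : Subgroup N, K.FiniteIndex → (⁅K, K⁆ : Subgroup N).FG)
    (S : Set G) (hS : Subgroup.closure S = ⊤) (m : ℕ) :
    ∃ K1 : Subgroup N, K1.FiniteIndex ∧ ∃ D : ℕ, ∀ (X : Type v) (T : Equiv.Perm X)
      (f : G →* Equiv.Perm X), (∀ s ∈ S, Wob T m (f s)) →
      ∀ g ∈ (⁅K1, K1⁆ : Subgroup N), Wob T D (f g) := by
  classical
  obtain ⟨n, φ, hφ, s, hs, hker⟩ := hfp.out
  have hκ : ∀ a : Fin n × Bool, ∃ κ : ℕ, ∀ (X : Type v) (T : Equiv.Perm X)
      (f : G →* Equiv.Perm X) (m : ℕ),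
      (∀ s ∈ S, Wob T m (f s)) → Wob T (κ * m) (f (φ (FreeGroup.mk [a]))) :=
    fun a => displacement S _ (by rw [hS]; trivial)
  choose κ hκ using hκ
  obtain ⟨m', hm'⟩ : ∃ m' : ℕ, ∀ a, κ a * m ≤ m' :=
    ⟨∑ a, κ a * m, fun a => Finset.single_le_sum (f := fun a => κ a * m)
      (fun _ _ => Nat.zero_le _) (Finset.mem_univ a)⟩
  obtain ⟨ℓ, hℓ⟩ : ∃ ℓ : ℕ, ∀ w ∈ rels s, w.length ≤ ℓ := by
    obtain ⟨ℓ, h⟩ := ((rels_finite hs).image List.length).bddAbove
    exact ⟨ℓ, fun w hw => h ⟨w, hw, rfl⟩⟩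
  obtain ⟨K, hK⟩ := quiet_bound φ hφ s hker m' ℓ hℓ
  have hn := resCore_normal G K
  have hfi := resCore_finiteIndex φ hφ K
  have hfi' : ((resCore G K).subgroupOf N).FiniteIndex := inferInstance
  have hmap : ((⁅(resCore G K).subgroupOf N, (resCore G K).subgroupOf N⁆ : Subgroup N).map
      N.subtype) = ⁅resCore G K ⊓ N, resCore G K ⊓ N⁆ := by
    rw [Subgroup.map_commutator, Subgroup.subgroupOf_map_subtype]
  have hBFG : (⁅resCore G K ⊓ N, resCore G K ⊓ N⁆ : Subgroup G).FG := by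
    rw [← hmap]
    obtain ⟨T0, hT0⟩ := hN _ hfi'
    exact ⟨T0.image N.subtype, by rw [Finset.coe_image, ← MonoidHom.map_closure, hT0]⟩
  obtain ⟨D, hD⟩ := hK ⁅resCore G K ⊓ N, resCore G K ⊓ N⁆ inferInstance
    (Subgroup.commutator_mono inf_le_left inf_le_left) hBFG
  refine ⟨(resCore G K).subgroupOf N, hfi', max D (m' * ℓ), fun X T f hf g hg x => ?_⟩
  by_cases hper : ∃ k : ℕ, 0 < k ∧ k ≤ m' * ℓ ∧ (T ^ (k : ℤ)) x = x
  · obtain ⟨k, hk, hk2, hk3⟩ := hper
    obtain ⟨κg, hκg⟩ := displacement.{u, v} S (g : G) (by rw [hS]; trivial)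
    obtain ⟨e, -, he⟩ := hκg X T f m hf x
    refine ⟨e % k, ?_, ?_⟩
    · have h1 := Int.emod_nonneg e (show (k : ℤ) ≠ 0 by omega)
      have h2 := Int.emod_lt_of_pos e (show (0 : ℤ) < k by omega)
      rw [abs_of_nonneg h1]
      have h3 : ((m' * ℓ : ℕ) : ℤ) ≤ ((max D (m' * ℓ) : ℕ) : ℤ) := by
        exact_mod_cast le_max_right _ _
      have h4 : (k : ℤ) ≤ ((m' * ℓ : ℕ) : ℤ) := by exact_mod_cast hk2
      omega
    · rw [he, short_period T hk3]
  · push Not at hper
    have hc : ∀ a, Wob T m' (f (φ (FreeGroup.mk [a]))) := fun a => (hκ a X T f m hf).mono (hm' a)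
    obtain ⟨ω, hb, hv, hrun⟩ := lift_config φ s hker m' ℓ hℓ T f hc x hper
    obtain ⟨u, hu⟩ := hφ (g : G)
    have hg' : φ (FreeGroup.mk u.toWord) ∈
        (⁅resCore G K ⊓ N, resCore G K ⊓ N⁆ : Subgroup G) := by
      rw [FreeGroup.mk_toWord, hu, ← hmap]
      exact Subgroup.mem_map_of_mem _ hg
    refine ⟨run ω u.toWord 0, ?_, ?_⟩
    · have h1 := hD ω hb hv u.toWord hg' 0
      rw [sub_zero] at h1
      refine h1.trans ?_
      exact_mod_cast le_max_left _ _
    · have := hrun u.toWord 0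
      rw [zpow_zero, Equiv.Perm.one_apply, FreeGroup.mk_toWord, hu] at this
      exact this.symm

end Pool.Agent.N6.W
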