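import Pool.Agent.N6.W.Conf

/-!
# Orbits in pumped configurations
-/

set_option autoImplicit false

namespace Pool.Agent.N6.W

variable {A : Type}

/-- one step -/
def R1 (ω : ℤ → A → ℤ) (x y : ℤ) : Prop := ∃ a, y = stp ω a x

/-- reachable -/
def Reach (ω : ℤ → A → ℤ) : ℤ → ℤ → Prop := Relation.ReflTransGen (R1 ω)

/-- reachable by a path with all further points below `t` -/
def ReachLt (ω : ℤ → A → ℤ) (t : ℤ) : ℤ → ℤ → Prop :=
  Relation.ReflTransGen (fun x y => R1 ω x y ∧ y < t)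

theorem ReachLt.reach {ω : ℤ → A → ℤ} {t u v : ℤ} (h : ReachLt ω t u v) : Reach ω u v :=
  Relation.ReflTransGen.mono (fun _ _ h => h.1) _ _ h

theorem ReachLt.mono {ω : ℤ → A → ℤ} {t t' u v : ℤ} (h : ReachLt ω t u v) (ht : t ≤ t') :
    ReachLt ω t' u v :=
  Relation.ReflTransGen.mono (fun _ _ h => ⟨h.1, lt_of_lt_of_le h.2 ht⟩) _ _ h

theorem R1.abs_le {ω : ℤ → A → ℤ} {m : ℕ} (hb : Bdd ω m) {x y : ℤ} (h : R1 ω x y) :
    |y - x| ≤ m := by
  obtain ⟨a, rfl⟩ := h
  unfold stp
  have := hb x a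
  simpa using this

/-- the last point before crossing `t` -/
theorem cross {ω : ℤ → A → ℤ} {m : ℕ} (hb : Bdd ω m) {t u v : ℤ} (h : Reach ω u v) (hu : u < t)
    (hv : t ≤ v) : ∃ z, ReachLt ω t u z ∧ z < t ∧ t - m ≤ z := by
  induction h using Relation.ReflTransGen.head_induction_on with
  | refl => omega
  | head h1 h2 ih =>
    rename_i a b
    by_cases hb' : b < t
    · obtain ⟨z, hz, h3, h4⟩ := ih hb'
      exact ⟨z, Relation.ReflTransGen.head ⟨h1, hb'⟩ hz, h3, h4⟩
    · refine ⟨a, Relation.ReflTransGen.refl, hu, ?_⟩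
      have := h1.abs_le hb
      rw [abs_le] at this
      omega

section

variable {ω : ℤ → A → ℤ} {c L : ℤ} {W m : ℕ} (hL : 0 < L)
  (hw : ∀ i : ℤ, -(W : ℤ) ≤ i → i ≤ W → ω (c + i) = ω (c + L + i))
  (hb : Bdd ω m) (hm : m ≤ W)

include hL hw hm in
theorem pump_mul_eq (k : ℕ) {w : ℤ} (h1 : c - m ≤ w) (h2 : w < c + L) :
    pump ω c L (w + k * L) = ω w := by
  rw [pump_add_mul hL hw k (by omega), pump_eq hL hw (by omega)]

include hL hw hb hm in
theorem sim (k : ℕ)
    (hI : ∀ u v, c - m ≤ u → u < c → c - m ≤ v → v < c → ReachLt ω c u v →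
      ReachLt (pump ω c L) (c + k * L) (u + k * L) (v + k * L))
    {u w : ℤ} (hu1 : c - m ≤ u) (hu2 : u < c + L) (h : ReachLt ω (c + L) u w) :
    w < c + L ∧
    (c ≤ w → ReachLt (pump ω c L) (c + (k + 1) * L) (u + k * L) (w + k * L)) ∧
    (w < c → ∃ v, c - m ≤ v ∧ v < c ∧
      ReachLt (pump ω c L) (c + (k + 1) * L) (u + k * L) (v + k * L) ∧ ReachLt ω c v w) := by
  induction h with
  | refl => exact ⟨hu2, fun _ => Relation.ReflTransGen.refl,
      fun h => ⟨u, hu1, h, Relation.ReflTransGen.refl, Relation.ReflTransGen.refl⟩⟩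
  | tail h1 h2 ih =>
    rename_i w w'
    obtain ⟨⟨a, ha⟩, hw'⟩ := h2
    have hstep : c - m ≤ w → w < c + L → w' + k * L = stp (pump ω c L) a (w + k * L) := by
      intro h3 h4
      unfold stp
      rw [pump_mul_eq hL hw hm k h3 h4, ha]
      unfold stp
      ring
    have hlt : w' + k * L < c + (k + 1) * L := by
      have : c + (k + 1) * L = c + L + k * L := by ring
      omega
    have hmono : c + k * L ≤ c + (k + 1) * L := by
      have : c + (k + 1) * L = c + L + k * L := by ring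
      omega
    have habs := hb w a
    have ha' : w' = w + ω w a := ha
    rw [abs_le] at habs
    refine ⟨hw', ?_⟩
    obtain ⟨hwlt, ih1, ih2⟩ := ih
    by_cases hcw : c ≤ w
    · have h3 := ih1 hcw
      have h4 : ReachLt (pump ω c L) (c + (k + 1) * L) (u + k * L) (w' + k * L) :=
        Relation.ReflTransGen.tail h3 ⟨⟨a, hstep (by omega) hwlt⟩, hlt⟩
      exact ⟨fun _ => h4, fun h5 => ⟨w', by omega, h5, h4, Relation.ReflTransGen.refl⟩⟩
    · obtain ⟨v, hv1, hv2, hv3, hv4⟩ := ih2 (by omega)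
      refine ⟨fun h5 => ?_, fun h5 => ⟨v, hv1, hv2, hv3,
        Relation.ReflTransGen.tail hv4 ⟨⟨a, ha⟩, h5⟩⟩⟩
      have h6 := hI v w hv1 hv2 (by omega) (by omega) hv4
      have h7 : ReachLt (pump ω c L) (c + (k + 1) * L) (u + k * L) (w + k * L) :=
        Relation.ReflTransGen.trans hv3 (h6.mono hmono)
      exact Relation.ReflTransGen.tail h7 ⟨⟨a, hstep (by omega) hwlt⟩, hlt⟩

include hL hw hb hm in
theorem sim' (k : ℕ)
    (hI : ∀ u v, c - m ≤ u → u < c → c - m ≤ v → v < c → ReachLt ω c u v →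
      ReachLt (pump ω c L) (c + k * L) (u + k * L) (v + k * L))
    {u w : ℤ} (hu1 : c - m ≤ u) (hu2 : u < c + L) (hw1 : c - m ≤ w)
    (h : ReachLt ω (c + L) u w) :
    ReachLt (pump ω c L) (c + (k + 1) * L) (u + k * L) (w + k * L) := by
  obtain ⟨h1, h2, h3⟩ := sim hL hw hb hm k hI hu1 hu2 h
  by_cases hc : c ≤ w
  · exact h2 hc
  · obtain ⟨v, hv1, hv2, hv3, hv4⟩ := h3 (by omega)
    have hmono : c + k * L ≤ c + (k + 1) * L := by
      have : c + (k + 1) * L = c + L + k * L := by ring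
      omega
    exact Relation.ReflTransGen.trans hv3 ((hI v w hv1 hv2 hw1 (by omega) hv4).mono hmono)

include hL hw in
theorem reachLt_pump {t u w : ℤ} (ht : t ≤ c + L) (hu : u < t) (h : ReachLt ω t u w) :
    ReachLt (pump ω c L) t u w ∧ w < t := by
  induction h with
  | refl => exact ⟨Relation.ReflTransGen.refl, hu⟩
  | tail h1 h2 ih =>
    rename_i w w'
    obtain ⟨⟨a, ha⟩, hw'⟩ := h2
    refine ⟨Relation.ReflTransGen.tail ih.1 ⟨⟨a, ?_⟩, hw'⟩, hw'⟩
    rw [ha]
    unfold stp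
    rw [pump_eq hL hw (x := w) (by have := ih.2; omega)]

include hL hw hb hm in
theorem inv_all
    (hR : ∀ i j : ℤ, 1 ≤ i → i ≤ m → 1 ≤ j → j ≤ m → ReachLt ω c (c - i) (c - j) →
      ReachLt ω (c + L) (c + L - i) (c + L - j)) (k : ℕ) :
    ∀ u v, c - m ≤ u → u < c → c - m ≤ v → v < c → ReachLt ω c u v →
      ReachLt (pump ω c L) (c + k * L) (u + k * L) (v + k * L) := by
  induction k with
  | zero =>
    intro u v hu1 hu2 hv1 hv2 h
    have := (reachLt_pump hL hw (by omega) hu2 h).1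
    simpa using this
  | succ k ih =>
    intro u v hu1 hu2 hv1 hv2 h
    have h1 := hR (c - u) (c - v) (by omega) (by omega) (by omega) (by omega)
      (by rw [sub_sub_cancel, sub_sub_cancel]; exact h)
    have h2 := sim' hL hw hb hm k ih (u := c + L - (c - u)) (w := c + L - (c - v))
      (by omega) (by omega) (by omega) h1
    push_cast
    convert h2 using 1 <;> ring

include hL hw hb hm in
/-- the orbit of `x` in the pumped configuration is unbounded -/
theorem unbounded
    (hR : ∀ i j : ℤ, 1 ≤ i → i ≤ m → 1 ≤ j → j ≤ m → ReachLt ω c (c - i) (c - j) →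
      ReachLt ω (c + L) (c + L - i) (c + L - j))
    (hs : ∀ u v, Reach ω u v → Reach ω v u) {x y : ℤ} (hx : x < c) (hy : c + L ≤ y)
    (hxy : Reach ω x y)
    (hO : ∀ i : ℤ, 1 ≤ i → i ≤ m → Reach ω x (c + L - i) → Reach ω x (c - i)) (k : ℕ) :
    ∃ i : ℤ, 1 ≤ i ∧ i ≤ m ∧ Reach ω x (c - i) ∧ Reach (pump ω c L) x (c + k * L - i) := by
  induction k with
  | zero =>
    obtain ⟨z, h1, h2, h3⟩ := cross hb hxy hx (by omega)
    refine ⟨c - z, by omega, by omega, ?_, ?_⟩
    · rw [sub_sub_cancel]; exact h1.reach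
    · have := (reachLt_pump hL hw (by omega) hx h1).1.reach
      simpa using this
  | succ k ih =>
    obtain ⟨i, hi1, hi2, hi3, hi4⟩ := ih
    have h1 : Reach ω (c - i) y := Relation.ReflTransGen.trans (hs _ _ hi3) hxy
    obtain ⟨z, h2, h3, h4⟩ := cross hb h1 (t := c + L) (by omega) hy
    have h5 : Reach ω x z := Relation.ReflTransGen.trans hi3 h2.reach
    have h6 := hO (c + L - z) (by omega) (by omega) (by rw [sub_sub_cancel]; exact h5)
    have h7 := sim' hL hw hb hm k (inv_all hL hw hb hm hR k) (u := c - i) (w := z)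
      (by omega) (by omega) (by omega) h2
    refine ⟨c + L - z, by omega, by omega, h6, ?_⟩
    refine Relation.ReflTransGen.trans hi4 ?_
    have h8 := h7.reach
    have e1 : c - i + k * L = c + k * L - i := by ring
    have e2 : z + k * L = c + ((k + 1 : ℕ) : ℤ) * L - (c + L - z) := by push_cast; ring
    rw [e1, e2] at h8
    exact h8

end

end Pool.Agent.N6.W
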