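import Pool.Agent.H71R2.Thin.Common
import Pool.Agent.N6.W.App

/-!
# Homomorphisms of finitely presented groups to full groups of actions of slow growth
-/

set_option autoImplicit false

open scoped Pointwise Topology

open Filter

namespace Pool.Agent.N6.W

universe u v w

open Pool.Agent.H71R2.Thin

/-- The points `γ x`, `γ` a product of `n` elements of `E`. -/
def EB {Γ : Type w} {X : Type v} [Group Γ] [MulAction Γ X] (E : Set Γ) (n : ℕ) (x : X) : Set X :=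
  {y | ∃ γ ∈ E ^ n, y = γ • x}

/-- The sets `E ^ n x` grow slowly. -/
def SlowA (Γ : Type w) {X : Type v} [Group Γ] [MulAction Γ X] (A : Set X) : Prop :=
  ∀ E : Set Γ, E.Finite → ∀ δ : ℝ, 0 < δ → ∀ n₀ : ℕ, ∃ n : ℕ, n₀ ≤ n ∧ ∀ x ∈ A,
    ((EB E n x).ncard : ℝ) ≤ δ * (n * Real.log n / Real.log (Real.log n))

theorem pos_of_ge {n : ℕ} (hn : 16 ≤ n) : 1 < Real.log n ∧ 0 < Real.log (Real.log n) := by
  have h1 : (16 : ℝ) ≤ n := by exact_mod_cast hn
  have h2 : Real.exp 1 < 16 := Real.exp_one_lt_d9.trans (by norm_num)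
  have h3 : 1 < Real.log n := by
    rw [Real.lt_log_iff_exp_lt (by linarith)]
    linarith
  exact ⟨h3, Real.log_pos h3⟩

theorem exists_slow (C : ℕ) {δ : ℝ} (hδ : 0 < δ) (n₀ : ℕ) :
    ∃ n : ℕ, n₀ ≤ n ∧ 16 ≤ n ∧
      ((C * (n + 1) : ℕ) : ℝ) < δ * (n * Real.log n / Real.log (Real.log n)) := by
  have hC : (0 : ℝ) < (C : ℝ) + 1 := by positivity
  have hc : 0 < δ / (2 * ((C : ℝ) + 1)) := by positivity
  have h1 : ∀ᶠ t : ℝ in atTop, ‖Real.log t‖ ≤ δ / (2 * ((C : ℝ) + 1)) * ‖id t‖ :=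
    Real.isLittleO_log_id_atTop.def hc
  have ht : Tendsto (fun n : ℕ => Real.log n) atTop atTop :=
    Real.tendsto_log_atTop.comp tendsto_natCast_atTop_atTop
  obtain ⟨n, hn, hn2⟩ := ((ht.eventually h1).and (eventually_ge_atTop (max n₀ 16))).exists
  have h16 : 16 ≤ n := (le_max_right _ _).trans hn2
  refine ⟨n, (le_max_left _ _).trans hn2, h16, ?_⟩
  obtain ⟨hL, hM⟩ := pos_of_ge h16
  set L := Real.log n with hLdef
  set M := Real.log L with hMdef
  rw [Real.norm_of_nonneg hM.le, id, Real.norm_of_nonneg (by linarith)] at hn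
  have hnR : (16 : ℝ) ≤ n := by exact_mod_cast h16
  have h2 : (2 * ((C : ℝ) + 1)) / δ ≤ L / M := by
    rw [div_le_div_iff₀ hδ hM]
    have h3 : M * (2 * ((C : ℝ) + 1)) ≤ δ * L := by
      have := mul_le_mul_of_nonneg_right hn (by positivity : (0 : ℝ) ≤ 2 * ((C : ℝ) + 1))
      have e : δ / (2 * ((C : ℝ) + 1)) * L * (2 * ((C : ℝ) + 1)) = δ * L := by
        field_simp
      linarith
    linarith
  have h4 : δ * (n * L / M) = n * (δ * (L / M)) := by ring
  have h5 : 2 * ((C : ℝ) + 1) ≤ δ * (L / M) := by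
    rw [div_le_iff₀ hδ] at h2
    linarith
  rw [h4]
  have h6 : (n : ℝ) * (2 * ((C : ℝ) + 1)) ≤ n * (δ * (L / M)) :=
    mul_le_mul_of_nonneg_left h5 (by positivity)
  have h7 : (0 : ℝ) ≤ C := by positivity
  push_cast
  nlinarith

theorem slow_of_linear {Γ : Type w} {X : Type v} [Group Γ] [MulAction Γ X] (A : Set X)
    (h : ∀ E : Set Γ, E.Finite → ∃ C : ℕ, ∀ n : ℕ, ∀ x ∈ A, (EB E n x).ncard ≤ C * (n + 1)) :
    SlowA Γ A := by
  intro E hE δ hδ n₀
  obtain ⟨C, hC⟩ := h E hE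
  obtain ⟨n, hn, -, hlt⟩ := exists_slow C hδ n₀
  exact ⟨n, hn, fun x hx => (Nat.cast_le.2 (hC n x hx)).trans hlt.le⟩

theorem eb_finite {Γ : Type w} {X : Type v} [Group Γ] [MulAction Γ X] {E : Set Γ}
    (hE : E.Finite) (n : ℕ) (x : X) : (EB E n x).Finite := by
  refine ((finite_pow hE n).image (fun γ => γ • x)).subset ?_
  rintro y ⟨γ, hγ, rfl⟩
  exact ⟨γ, hγ, rfl⟩

/-- The key statement: slow orbits of `L` are bounded. -/
theorem orbit_sub {G : Type u} [Group G] [Group.IsFinitelyPresented G] {S : Set G}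
    (hSf : S.Finite) (h1S : (1 : G) ∈ S) (hS : Submonoid.closure S = ⊤) (L : Subgroup G)
    (hLfg : L.FG) (hL : ¬ Seen L) :
    ∃ ε : ℝ, 0 < ε ∧ ∃ n0 : ℕ, 16 ≤ n0 ∧ ∀ (X : Type v) [MulAction G X] (x : X) (n : ℕ), n0 ≤ n →
      ((Bl S x n).ncard : ℝ) < ε * (n * Real.log n / Real.log (Real.log n)) →
      ∀ g ∈ L, g • x ∈ Bl S x n := by
  obtain ⟨ε, hε, n0, hgap⟩ := gap_sub.{u, v} hSf h1S hS L hLfg hL
  refine ⟨ε, hε, max n0 16, le_max_right _ _, fun X _ x n hn hlt g hg => ?_⟩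
  set x' : MulAction.orbit G x := ⟨x, MulAction.mem_orbit_self x⟩ with hx'
  rcases hgap (MulAction.orbit G x) x' n ((le_max_left _ _).trans hn) with h | h
  · exact orbit_ball S x n ⟨_, h g hg, rfl⟩
  · exact absurd (h.trans (Nat.cast_le.2 (orbit_ball_ncard hSf x n))) (not_le.2 hlt)

theorem slow_bound (G : Type u) [Group G] [Group.IsFinitelyPresented G] (L : Subgroup G)
    (hLfg : L.FG) (hL : ¬ Seen L) (Γ : Type w) (X : Type v) [Group Γ] [MulAction Γ X]
    (A : Set X) (hslow : SlowA Γ A) (f : G →* Equiv.Perm X)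
    (h : ∀ g, ∃ E : Set Γ, E.Finite ∧ ∀ x, ∃ γ ∈ E, f g x = γ • x) :
    ∃ N : ℕ, ∀ x ∈ A, {y | ∃ g ∈ L, y = f g x}.encard ≤ N := by
  classical
  obtain ⟨S0, hS0f, hS0⟩ := exists_gen G
  have hSf : (sym S0).Finite := by
    have := sym_finite hS0f.toFinset
    rwa [hS0f.coe_toFinset] at this
  obtain ⟨ε, hε, n0, h16, hkey⟩ := orbit_sub.{u, v} hSf (one_mem_sym _) (sym_closure hS0) L hLfg hL
  choose E hEf hE using h
  set E' : Set Γ := ⋃ s ∈ sym S0, E s with hE'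
  have hE'f : E'.Finite := hSf.biUnion fun s _ => hEf s
  obtain ⟨n, hn, hsl⟩ := hslow E' hE'f (ε / 2) (by positivity) n0
  let _ : MulAction G X := MulAction.compHom X f
  have hsm : ∀ (g : G) (x : X), g • x = f g x := fun _ _ => rfl
  have hsub : ∀ (m : ℕ) (x y : X), y ∈ Bl (sym S0) x m → y ∈ EB E' m x := by
    intro m x
    induction m with
    | zero =>
      intro y hy
      have hy' : y = x := hy
      subst hy'
      exact ⟨1, by rw [pow_zero]; rfl, (one_smul _ _).symm⟩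
    | succ m ih =>
      rintro _ ⟨k, hk, y, hy, rfl⟩
      obtain ⟨γ, hγ, rfl⟩ := ih y hy
      obtain ⟨γ', hγ', e⟩ := hE k (γ • x)
      refine ⟨γ' * γ, ?_, ?_⟩
      · rw [pow_succ']
        exact Set.mul_mem_mul (Set.mem_biUnion hk hγ') hγ
      · rw [hsm, e, mul_smul]
  have hcard : ∀ x ∈ A, ((Bl (sym S0) x n).ncard : ℝ) <
      ε * (n * Real.log n / Real.log (Real.log n)) := by
    intro x hx
    obtain ⟨h1, h2⟩ := pos_of_ge (h16.trans hn)
    have hnpos : (0 : ℝ) < n := by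
      have : 0 < n := by omega
      exact_mod_cast this
    have hpos : 0 < (n : ℝ) * Real.log n / Real.log (Real.log n) := by positivity
    have h3 : ((Bl (sym S0) x n).ncard : ℝ) ≤ ((EB E' n x).ncard : ℝ) :=
      Nat.cast_le.2 (Set.ncard_le_ncard (hsub n x) (eb_finite hE'f n x))
    have h4 := hsl x hx
    nlinarith
  refine ⟨((sym S0) ^ n).ncard, fun x hx => ?_⟩
  have horb := hkey X x n hn (hcard x hx)
  have h2 : {y | ∃ g ∈ L, y = f g x} ⊆ Bl (sym S0) x n := by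
    rintro _ ⟨g, hg, rfl⟩
    exact horb g hg
  have h3 := bl_finite hSf x n
  calc {y | ∃ g ∈ L, y = f g x}.encard ≤ (Bl (sym S0) x n).encard := Set.encard_le_encard h2
    _ = ((Bl (sym S0) x n).ncard : ℕ∞) := by rw [h3.cast_ncard_eq]
    _ ≤ (((sym S0) ^ n).ncard : ℕ∞) := by exact_mod_cast bl_ncard_le hSf x n

theorem slow_finite (G : Type u) [Group G] [Group.IsFinitelyPresented G] (L : Subgroup G)
    (hLfg : L.FG) (hL : ¬ Seen L) (Γ : Type w) (X : Type v) [Group Γ] [MulAction Γ X]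
    (hslow : SlowA Γ (Set.univ : Set X)) (f : G →* Equiv.Perm X)
    (h : ∀ g, ∃ E : Set Γ, E.Finite ∧ ∀ x, ∃ γ ∈ E, f g x = γ • x) :
    (f '' (L : Set G)).Finite := by
  classical
  obtain ⟨N, hN⟩ := slow_bound G L hLfg hL Γ X Set.univ hslow f h
  -- the image group
  have hfg : Group.FG (L.map f) := (Group.fg_iff_subgroup_fg _).2 (by
    obtain ⟨T, hT⟩ := hLfg
    refine ⟨T.image f, ?_⟩
    rw [Finset.coe_image, ← MonoidHom.map_closure, hT])
  have hfin : Finite (L.map f) := by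
    refine finite_of_orbits (X := X) N fun x => ?_
    have h5 : MulAction.orbit (L.map f) x ⊆ {y | ∃ g ∈ L, y = f g x} := by
      rintro _ ⟨⟨_, g, hg, rfl⟩, rfl⟩
      exact ⟨g, hg, rfl⟩
    have h6 : (MulAction.orbit (L.map f) x).encard ≤ N :=
      (Set.encard_le_encard h5).trans (hN x trivial)
    have h7 : (MulAction.orbit (L.map f) x).Finite :=
      Set.encard_lt_top_iff.1 (lt_of_le_of_lt h6 (ENat.natCast_lt_top N))
    refine ⟨h7, ?_⟩
    rw [← h7.cast_ncard_eq] at h6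
    exact_mod_cast h6
  have h6 : ((L.map f : Subgroup (Equiv.Perm X)) : Set (Equiv.Perm X)).Finite :=
    Set.toFinite _
  rwa [Subgroup.coe_map] at h6

theorem slow_finite_top (G : Type u) [Group G] [Group.IsFinitelyPresented G] (L : Subgroup G)
    (hLfg : L.FG) (hL : ¬ Seen L) (Γ : Type w) (X : Type v) [Group Γ] [MulAction Γ X]
    (hslow : SlowA Γ (Set.univ : Set X)) [TopologicalSpace X] [CompactSpace X] (f : G →* (X ≃ₜ X))
    (h : ∀ g x, ∃ γ : Γ, ∀ᶠ y in 𝓝 x, f g y = γ • y) :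
    (f '' (L : Set G)).Finite := by
  classical
  let ι : (X ≃ₜ X) →* Equiv.Perm X :=
    { toFun := Homeomorph.toEquiv
      map_one' := rfl
      map_mul' := fun _ _ => rfl }
  have hι : Function.Injective ι := Homeomorph.toEquiv_injective
  have h1 : ((ι.comp f) '' (L : Set G)).Finite := by
    refine slow_finite G L hLfg hL Γ X hslow (ι.comp f) fun g => ?_
    choose γ hγ using h g
    obtain ⟨t, ht⟩ := CompactSpace.elim_nhds_subcover (fun x => {y | f g y = γ x • y}) hγ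
    refine ⟨γ '' (t : Set X), t.finite_toSet.image _, fun x => ?_⟩
    have hx : x ∈ (⋃ z ∈ t, {y | f g y = γ z • y}) := by rw [ht]; trivial
    obtain ⟨z, hz, hxz⟩ := Set.mem_iUnion₂.1 hx
    exact ⟨γ z, ⟨z, hz, rfl⟩, hxz⟩
  have h2 : (ι.comp f) '' (L : Set G) = ι '' (f '' (L : Set G)) := by
    rw [Set.image_image]; rfl
  rw [h2] at h1
  exact h1.of_finite_image hι.injOn

theorem not_seen_top {G : Type u} [Group G] (h : ¬ VI G) : ¬ Seen (⊤ : Subgroup G) := by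
  rintro ⟨K, hK, f, g, -, hg⟩
  refine h ⟨K, hK, f, fun e => hg ?_⟩
  rw [e]; rfl

theorem slow_orbit (G : Type u) [Group G] [Group.IsFinitelyPresented G] (hG : ¬ VI G)
    (Y : Type v) [MulAction G Y] (A : Set Y) (hA : SlowA G A) :
    ∃ N : ℕ, ∀ y ∈ A, (MulAction.orbit G y).encard ≤ N := by
  classical
  obtain ⟨S, hSf, hS⟩ := exists_gen G
  have hfg : (⊤ : Subgroup G).FG := ⟨hSf.toFinset, by rw [hSf.coe_toFinset]; exact hS⟩
  obtain ⟨N, hN⟩ := slow_bound G ⊤ hfg (not_seen_top hG) G Y A hA (MulAction.toPermHom G Y)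
    fun g => ⟨{g}, Set.finite_singleton g, fun x => ⟨g, rfl, rfl⟩⟩
  refine ⟨N, fun y hy => le_trans (Set.encard_le_encard ?_) (hN y hy)⟩
  rintro _ ⟨g, rfl⟩
  exact ⟨g, trivial, rfl⟩

/-- The uniform version for linear growth. -/
theorem linear_bound (G : Type u) [Group G] [Group.IsFinitelyPresented G] (hG : ¬ VI G)
    (S : Set G) (hSf : S.Finite) (hS : Subgroup.closure S = ⊤) (C : ℕ) :
    ∃ N : ℕ, ∀ (Y : Type v) [MulAction G Y] (y : Y),
      (∀ n : ℕ, (EB (S ∪ S⁻¹ ∪ {1}) n y).ncard ≤ C * (n + 1)) →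
      (MulAction.orbit G y).encard ≤ N := by
  classical
  have hSf' : (sym S).Finite := by
    have := sym_finite hSf.toFinset
    rwa [hSf.coe_toFinset] at this
  have hfg : (⊤ : Subgroup G).FG := ⟨hSf.toFinset, by rw [hSf.coe_toFinset]; exact hS⟩
  obtain ⟨ε, hε, n0, h16, hkey⟩ := orbit_sub.{u, v} hSf' (one_mem_sym _) (sym_closure hS) ⊤ hfg
    (not_seen_top hG)
  obtain ⟨n, hn, -, hlt⟩ := exists_slow C hε n0
  refine ⟨((sym S) ^ n).ncard, fun Y _ y hy => ?_⟩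
  have e : Bl (sym S) y n = EB (S ∪ S⁻¹ ∪ {1}) n y := by
    ext z
    constructor
    · intro hz
      obtain ⟨g, hg, d, hd, rfl⟩ := mem_nb_iff.1 hz
      rw [Set.mem_singleton_iff.1 hd]
      exact ⟨g, hg, rfl⟩
    · rintro ⟨g, hg, rfl⟩
      exact mem_nb_iff.2 ⟨g, hg, y, rfl, rfl⟩
  have h1 := hkey Y y n hn (by
    rw [e]
    exact lt_of_le_of_lt (Nat.cast_le.2 (hy n)) hlt)
  have h2 : MulAction.orbit G y ⊆ Bl (sym S) y n := by
    rintro _ ⟨g, rfl⟩
    exact h1 g trivial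
  have h3 := bl_finite hSf' y n
  calc (MulAction.orbit G y).encard ≤ (Bl (sym S) y n).encard := Set.encard_le_encard h2
    _ = ((Bl (sym S) y n).ncard : ℕ∞) := by rw [h3.cast_ncard_eq]
    _ ≤ (((sym S) ^ n).ncard : ℕ∞) := by exact_mod_cast bl_ncard_le hSf' y n

end Pool.Agent.N6.W
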