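import Pool.Agent.N6.W.Grp

/-!
# Uniform bound for the orbits of a finitely presented group that is not virtually indicable
-/

set_option autoImplicit false

namespace Pool.Agent.N6.W

universe u v

/-- the permutation `σ` moves every point by a power of `T` with exponent at most `m` -/
def Wob {X : Type v} (T : Equiv.Perm X) (m : ℕ) (σ : Equiv.Perm X) : Prop :=
  ∀ x, ∃ n : ℤ, |n| ≤ m ∧ σ x = (T ^ n) x

theorem zpow_add_apply {X : Type v} (T : Equiv.Perm X) (a b : ℤ) (x : X) :
    (T ^ (a + b)) x = (T ^ a) ((T ^ b) x) := by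
  rw [zpow_add, Equiv.Perm.mul_apply]

theorem displacement {G : Type u} [Group G] (S : Set G) (g : G) (hg : g ∈ Subgroup.closure S) :
    ∃ κ : ℕ, ∀ (X : Type v) (T : Equiv.Perm X) (f : G →* Equiv.Perm X) (m : ℕ),
      (∀ s ∈ S, Wob T m (f s)) → Wob T (κ * m) (f g) := by
  induction hg using Subgroup.closure_induction with
  | mem x hx => exact ⟨1, fun X T f m h => by simpa using h x hx⟩
  | one => exact ⟨0, fun X T f m h p => ⟨0, by simp, by simp⟩⟩
  | mul x y hx hy ihx ihy =>
    obtain ⟨a, ha⟩ := ihx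
    obtain ⟨b, hb⟩ := ihy
    refine ⟨a + b, fun X T f m h p => ?_⟩
    obtain ⟨n1, h1, e1⟩ := hb X T f m h p
    obtain ⟨n2, h2, e2⟩ := ha X T f m h (f y p)
    refine ⟨n2 + n1, ?_, ?_⟩
    · have h3 : (((a + b) * m : ℕ) : ℤ) = ((a * m : ℕ) : ℤ) + ((b * m : ℕ) : ℤ) := by
        push_cast; ring
      rw [h3]
      exact (abs_add_le _ _).trans (add_le_add h2 h1)
    · rw [map_mul, Equiv.Perm.mul_apply, e2, e1, zpow_add_apply]
  | inv x hx ih =>
    obtain ⟨a, ha⟩ := ih
    refine ⟨a, fun X T f m h p => ?_⟩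
    obtain ⟨n, h1, e1⟩ := ha X T f m h (f x⁻¹ p)
    have h2 : f x (f x⁻¹ p) = p := by
      rw [← Equiv.Perm.mul_apply, ← map_mul, mul_inv_cancel, map_one]; rfl
    refine ⟨-n, by rwa [abs_neg], ?_⟩
    rw [h2] at e1
    have h3 := congrArg (T ^ (-n)) e1
    rw [← zpow_add_apply, neg_add_cancel, zpow_zero] at h3
    exact h3.symm

theorem not_vi_core {G : Type u} [Group G] {n : ℕ} (φ : FreeGroup (Fin n) →* G)
    (hφ : Function.Surjective φ) (s : Set (FreeGroup (Fin n)))
    (hker : Subgroup.normalClosure s = φ.ker) (hG : ¬ VI G) {ω' : ℤ → Fin n × Bool → ℤ} {L : ℤ}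
    (hL : 0 < L) {m' : ℕ} (hb' : Bdd ω' m') (hper : ∀ p, ω' (p + L) = ω' p)
    (hv' : Valid ω' (rels s)) {x' : ℤ} (hinf : {z | Reach ω' x' z}.Infinite) : False := by
  obtain ⟨F', hF', hF's⟩ := exists_hom hv'
  have hle : φ.ker ≤ F'.ker := by
    rw [← hker]
    exact Subgroup.normalClosure_le_normal (fun r hr => hF's r hr)
  let Φ : G →* Equiv.Perm ℤ := φ.liftOfSurjective hφ ⟨F', hle⟩
  have hΦ : ∀ u, Φ (φ u) = F' u := fun u => MonoidHom.liftOfRightInverse_comp_apply _ _ _ _ _
  apply hG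
  refine vi_of_periodic Φ L hL ?_ x' ?_
  · intro g p
    obtain ⟨u, rfl⟩ := hφ g
    rw [hΦ, ← FreeGroup.mk_toWord (x := u), hF', hF']
    exact (run_shift hb' L _ p (fun q _ => hper q)).1
  · refine hinf.mono ?_
    intro z hz
    obtain ⟨w, hw⟩ := reach_orbit hz
    refine ⟨φ (FreeGroup.mk w), ?_⟩
    rw [hΦ, hF', hw]

theorem uniform (G : Type u) [Group G] [hfp : Group.IsFinitelyPresented G] (hG : ¬ VI G)
    (S : Set G) (hS : Subgroup.closure S = ⊤) (m : ℕ) :
    ∃ K : ℕ, ∀ (X : Type v) (T : Equiv.Perm X) (f : G →* Equiv.Perm X),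
      (∀ s ∈ S, Wob T m (f s)) → ∀ g, Wob T K (f g) := by
  classical
  obtain ⟨n, φ, hφ, s, hs, hker⟩ := hfp.out
  have hκ : ∀ a : Fin n × Bool, ∃ κ : ℕ, ∀ (X : Type v) (T : Equiv.Perm X)
      (f : G →* Equiv.Perm X) (m : ℕ),
      (∀ s ∈ S, Wob T m (f s)) → Wob T (κ * m) (f (φ (FreeGroup.mk [a]))) :=
    fun a => displacement S _ (by rw [hS]; trivial)
  choose κ hκ using hκ
  obtain ⟨m', hm'⟩ : ∃ m' : ℕ, ∀ a, κ a * m ≤ m' :=
    ⟨∑ a, κ a * m, fun a => Finset.single_le_sum (f := fun a => κ a * m)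
      (fun _ _ => Nat.zero_le _) (Finset.mem_univ a)⟩
  obtain ⟨ℓ, hℓ⟩ : ∃ ℓ : ℕ, ∀ w ∈ rels s, w.length ≤ ℓ := by
    obtain ⟨ℓ, h⟩ := ((rels_finite hs).image List.length).bddAbove
    exact ⟨ℓ, fun w hw => h ⟨w, hw, rfl⟩⟩
  obtain ⟨K, hK⟩ := core (rels s) (fun a => (a.1, !a.2)) (fun a => Or.inr ⟨a, rfl⟩) m'
    (m' + m' * ℓ) (Nat.le_add_right _ _)
    (fun w hw => le_trans (Nat.mul_le_mul_left _ (hℓ w hw)) (Nat.le_add_left _ _))
  refine ⟨max K (m' * ℓ), fun X T f hf g x => ?_⟩
  obtain ⟨u, hu⟩ := hφ g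
  by_cases hper : ∃ k : ℕ, 0 < k ∧ k ≤ m' * ℓ ∧ (T ^ (k : ℤ)) x = x
  · obtain ⟨k, hk, hk2, hk3⟩ := hper
    obtain ⟨κg, hκg⟩ := displacement.{u, v} S g (by rw [hS]; trivial)
    obtain ⟨e, -, he⟩ := hκg X T f m hf x
    have hmul : ∀ j : ℕ, (T ^ ((j : ℤ) * k)) x = x := by
      intro j
      induction j with
      | zero => simp
      | succ j ih =>
        rw [show (((j + 1 : ℕ) : ℤ) * k) = (j : ℤ) * k + k by push_cast; ring, zpow_add_apply,
          hk3, ih]
    have hmulz : ∀ j : ℤ, (T ^ (j * (k : ℤ))) x = x := by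
      intro j
      rcases Int.le_total 0 j with h | h
      · obtain ⟨j', rfl⟩ := Int.eq_ofNat_of_zero_le h
        exact hmul j'
      · obtain ⟨j', hj'⟩ := Int.eq_ofNat_of_zero_le (show 0 ≤ -j by omega)
        have h1 := hmul j'
        have h2 : (T ^ (j * (k : ℤ))) ((T ^ ((j' : ℤ) * k)) x) = x := by
          rw [← zpow_add_apply, ← hj']
          rw [show j * (k : ℤ) + -j * k = 0 by ring, zpow_zero]
          rfl
        rwa [h1] at h2
    refine ⟨e % k, ?_, ?_⟩
    · have h1 := Int.emod_nonneg e (show (k : ℤ) ≠ 0 by omega)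
      have h2 := Int.emod_lt_of_pos e (show (0 : ℤ) < k by omega)
      rw [abs_of_nonneg h1]
      have h3 : ((m' * ℓ : ℕ) : ℤ) ≤ ((max K (m' * ℓ) : ℕ) : ℤ) := by
        exact_mod_cast le_max_right _ _
      have h4 : (k : ℤ) ≤ ((m' * ℓ : ℕ) : ℤ) := by exact_mod_cast hk2
      omega
    · rw [he]
      have h1 := Int.emod_add_mul_ediv e k
      rw [show e = e % k + (e / k) * k by linarith, zpow_add_apply, hmulz]
      congr 2
      rw [Int.add_mul_emod_self_right]
      exact (Int.emod_emod_of_dvd e (dvd_refl _)).symm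
  · push Not at hper
    have hc : ∀ (a : Fin n × Bool) (x : X), ∃ c : ℤ, |c| ≤ m' ∧
        f (φ (FreeGroup.mk [a])) x = (T ^ c) x := by
      intro a x
      obtain ⟨c, h1, h2⟩ := hκ a X T f m hf x
      exact ⟨c, h1.trans (by exact_mod_cast hm' a), h2⟩
    choose c hc1 hc2 using hc
    let ω : ℤ → Fin n × Bool → ℤ := fun p a => c a ((T ^ p) x)
    have hb : Bdd ω m' := fun p a => hc1 a _
    have hrun : ∀ (w : List (Fin n × Bool)) (p : ℤ),
        (T ^ (run ω w p)) x = f (φ (FreeGroup.mk w)) ((T ^ p) x) := by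
      intro w p
      induction w with
      | nil =>
        have : (FreeGroup.mk ([] : List (Fin n × Bool))) = 1 := rfl
        rw [this, map_one, map_one]
        rfl
      | cons a w ih =>
        have h : FreeGroup.mk (a :: w) = FreeGroup.mk [a] * FreeGroup.mk w := by
          rw [FreeGroup.mul_mk]; rfl
        rw [h, map_mul, map_mul, Equiv.Perm.mul_apply, ← ih]
        simp only [run, stp]
        rw [hc2, add_comm, zpow_add_apply]
    have hv : Valid ω (rels s) := by
      intro w hw p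
      have h1 : φ (FreeGroup.mk w) = 1 := by
        rcases hw with ⟨r, hr, rfl⟩ | ⟨a, rfl⟩
        · rw [FreeGroup.mk_toWord, ← MonoidHom.mem_ker, ← hker]
          exact Subgroup.subset_normalClosure hr
        · rw [mk_inv_cancel, map_one]
      have h2 := hrun w p
      rw [h1, map_one, Equiv.Perm.one_apply] at h2
      have h3 := (run_shift hb 0 w p (ω' := ω) (fun q _ => by rw [add_zero])).2
      by_contra hne
      set d := run ω w p - p with hd
      have hd0 : d ≠ 0 := by omega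
      have h4 : (T ^ d) x = x := by
        have h5 := congrArg (T ^ (-p)) h2
        rw [← zpow_add_apply, ← zpow_add_apply, neg_add_cancel, zpow_zero,
          Equiv.Perm.one_apply, show -p + run ω w p = d by omega] at h5
        exact h5
      have h5 : (T ^ (-d)) x = x := by
        have h6 := congrArg (T ^ (-d)) h4
        rw [← zpow_add_apply, neg_add_cancel, zpow_zero, Equiv.Perm.one_apply] at h6
        exact h6.symm
      have h6 : (m' * w.length : ℕ) ≤ m' * ℓ := Nat.mul_le_mul_left _ (hℓ w hw)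
      have h7 : d.natAbs ≤ m' * ℓ := by
        have h8 := Int.natCast_natAbs d
        rw [← h8] at h3
        have h9 : d.natAbs ≤ m' * w.length := by exact_mod_cast h3
        exact h9.trans h6
      apply hper d.natAbs (by omega) h7
      rcases Int.natAbs_eq d with h | h
      · rw [← h]; exact h4
      · rw [show ((d.natAbs : ℕ) : ℤ) = -d by omega]; exact h5
    refine ⟨run ω u.toWord 0, ?_, ?_⟩
    · by_contra hlt
      push Not at hlt
      have hK' : (K : ℤ) < |run ω u.toWord 0| := by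
        refine lt_of_le_of_lt ?_ hlt
        exact_mod_cast le_max_left _ _
      have hreach : Reach ω 0 (run ω u.toWord 0) := reach_run ω _ 0
      rcases le_total 0 (run ω u.toWord 0) with h | h
      · rw [abs_of_nonneg h] at hK'
        obtain ⟨ω', L, hL, hb', hper', hv', x', hinf⟩ := hK ω hb hv _ _ hreach (by omega)
        exact not_vi_core φ hφ s hker hG hL hb' hper' hv' hinf
      · rw [abs_of_nonpos h] at hK'
        have hreach' : Reach ω (run ω u.toWord 0) 0 :=
          reach_symm (inv := fun a => (a.1, !a.2)) hv (fun a => Or.inr ⟨a, rfl⟩) hreach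
        obtain ⟨ω', L, hL, hb', hper', hv', x', hinf⟩ := hK ω hb hv _ _ hreach' (by omega)
        exact not_vi_core φ hφ s hker hG hL hb' hper' hv' hinf
    · have := hrun u.toWord 0
      rw [zpow_zero, Equiv.Perm.one_apply, FreeGroup.mk_toWord, hu] at this
      exact this.symm

end Pool.Agent.N6.W
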