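import Pool.Agent.N6.W.Quiet2

/-!
# Virtually abelian images
-/

set_option autoImplicit false

namespace Pool.Agent.N6.W

universe u v

open scoped commutatorElement

theorem commute_of_comm_eq {H : Type u} [Group H] {a b t : H} (h : ⁅a, t⁆ = ⁅b, t⁆) :
    (a⁻¹ * b) * t = t * (a⁻¹ * b) := by
  rw [commutatorElement_def, commutatorElement_def] at h
  have h1 : a * t * a⁻¹ = b * t * b⁻¹ := mul_right_cancel h
  calc (a⁻¹ * b) * t = a⁻¹ * (b * t * b⁻¹) * b := by group
    _ = a⁻¹ * (a * t * a⁻¹) * b := by rw [h1]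
    _ = t * (a⁻¹ * b) := by group

theorem exists_abelian {G : Type u} [Group G] {H : Type v} [Group H] (hG : Group.FG G)
    (f : G →* H) (K1 : Subgroup G) (hfi : K1.FiniteIndex)
    (hB : (f '' (⁅K1, K1⁆ : Subgroup G)).Finite) :
    ∃ A : Subgroup G, A.FiniteIndex ∧ ∀ a ∈ A, ∀ b ∈ A, f a * f b = f b * f a := by
  classical
  have hK1 : Group.FG K1 := inferInstance
  obtain ⟨T1, hT1⟩ := (Group.fg_iff_subgroup_fg K1).1 hK1
  have hT1K : ∀ t ∈ T1, t ∈ K1 := fun t ht => hT1 ▸ Subgroup.subset_closure ht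
  let A : Subgroup G := K1 ⊓ (Subgroup.centralizer (f '' K1)).comap f
  refine ⟨A, ?_, ?_⟩
  · have hfinB : Finite ↥(f '' (⁅K1, K1⁆ : Subgroup G)) := hB
    let F : (K1 ⧸ A.subgroupOf K1) → (T1 → ↥(f '' (⁅K1, K1⁆ : Subgroup G))) := fun q t =>
      ⟨f ⁅(q.out : G), (t : G)⁆, ⟨_, Subgroup.commutator_mem_commutator q.out.2 (hT1K _ t.2), rfl⟩⟩
    have hF : Function.Injective F := by
      intro q q' hqq
      rw [← QuotientGroup.out_eq' q, ← QuotientGroup.out_eq' q', QuotientGroup.eq,
        Subgroup.mem_subgroupOf]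
      refine ⟨(q.out⁻¹ * q'.out).2, ?_⟩
      show f ((q.out⁻¹ * q'.out : K1) : G) ∈ Subgroup.centralizer (f '' K1)
      rw [Subgroup.mem_centralizer_iff]
      rintro _ ⟨k, hk, rfl⟩
      have hk' : k ∈ Subgroup.closure (T1 : Set G) := by rw [hT1]; exact hk
      have hle : Subgroup.closure (T1 : Set G) ≤
          (Subgroup.centralizer {f ((q.out⁻¹ * q'.out : K1) : G)}).comap f := by
        rw [Subgroup.closure_le]
        intro t ht
        show f t ∈ Subgroup.centralizer {f ((q.out⁻¹ * q'.out : K1) : G)}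
        rw [Subgroup.mem_centralizer_iff]
        rintro _ rfl
        have h1 := congrArg Subtype.val (congrFun hqq ⟨t, ht⟩)
        simp only [F] at h1
        rw [map_commutatorElement, map_commutatorElement] at h1
        have h2 := commute_of_comm_eq h1
        rw [Subgroup.coe_mul, Subgroup.coe_inv, map_mul, map_inv]
        exact h2
      have h3 := hle hk'
      have h4 : f k ∈ Subgroup.centralizer {f ((q.out⁻¹ * q'.out : K1) : G)} := h3
      rw [Subgroup.mem_centralizer_iff] at h4
      exact (h4 _ rfl).symm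
    have hfinq : Finite (K1 ⧸ A.subgroupOf K1) := Finite.of_injective F hF
    have h1 : (A.subgroupOf K1).index ≠ 0 := by
      have := Subgroup.finiteIndex_of_finite_quotient (H := A.subgroupOf K1)
      exact this.index_ne_zero
    constructor
    rw [← Subgroup.relIndex_mul_index (inf_le_left : A ≤ K1)]
    exact mul_ne_zero h1 hfi.index_ne_zero
  · intro a ha b hb
    have h1 : f a ∈ Subgroup.centralizer (f '' K1) := ha.2
    rw [Subgroup.mem_centralizer_iff] at h1
    exact (h1 (f b) ⟨b, hb.1, rfl⟩).symm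

theorem fg_of_fp (G : Type u) [Group G] [Group.IsFinitelyPresented G] : Group.FG G := by
  obtain ⟨S, hSf, hS⟩ := exists_gen G
  exact ⟨⟨hSf.toFinset, by rw [Set.Finite.coe_toFinset]; exact hS⟩⟩

theorem image_finite {G : Type u} [Group G] {X : Type v} (B : Subgroup G) (hB : B.FG)
    (T : Equiv.Perm X) (f : G →* Equiv.Perm X) (D : ℕ) (h : ∀ g ∈ B, Wob T D (f g)) :
    (f '' B).Finite := by
  have hFG : Group.FG ↥B := (Group.fg_iff_subgroup_fg _).2 hB
  obtain ⟨S', hS'⟩ := hFG.out
  have h0 : ∀ g : B, Wob T D ((f.comp B.subtype) g) := fun g => h g.1 g.2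
  have h1 := finite_range (S' : Set B) S'.finite_toSet hS' T (f.comp B.subtype) D h0
  refine h1.subset ?_
  rintro _ ⟨g, hg, rfl⟩
  exact ⟨⟨g, hg⟩, rfl⟩

/-- Let `N` be a finitely generated normal subgroup of the finitely presented group `G` such that the
commutator subgroups of the subgroups of finite index of `N` are finitely generated. Then the
images of `N` under homomorphisms from `G` to full groups are virtually abelian. -/
theorem virt_ab (G : Type u) [Group G] [Group.IsFinitelyPresented G] (N : Subgroup G)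
    (hNn : N.Normal) (hNfg : N.FG)
    (hN : ∀ K : Subgroup N, K.FiniteIndex → (⁅K, K⁆ : Subgroup N).FG)
    (X : Type v) (T : Equiv.Perm X) (f : G →* Equiv.Perm X) (h : ∀ g, ∃ m : ℕ, Wob T m (f g)) :
    ∃ A : Subgroup N, A.FiniteIndex ∧ ∀ a ∈ A, ∀ b ∈ A, f a * f b = f b * f a := by
  obtain ⟨S, hSf, hS⟩ := exists_gen G
  obtain ⟨m, hm⟩ := exists_common S hSf T f h
  obtain ⟨K1, hfi, D, hD⟩ := comm_wob.{u, v} G N hNn hN S hS m
  have hB := image_finite (⁅K1, K1⁆ : Subgroup N) (hN K1 hfi) T (f.comp N.subtype) D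
    (fun g hg => hD X T f hm g hg)
  exact exists_abelian ((Group.fg_iff_subgroup_fg N).2 hNfg) (f.comp N.subtype) K1 hfi hB

end Pool.Agent.N6.W
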